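import Pool.Agent.Lib.MP_629918_an.Series

set_option autoImplicit false

section

/-!
# The order of the entropy numbers
-/


open MeasureTheory Filter Topology Asymptotics

namespace Pool.Agent.Lib.MP_629918_an

theorem isTheta {p : ℝ} [Fact (1 ≤ ENNReal.ofReal p)] (hp1 : 1 < p) (hp2 : p < 2) {a b : ℝ}
    (ha1 : 1 - 1 / p < a) (ha2 : a ≤ 1 / 2) :
    (fun k : ℕ => entX k (WLp p a b)) =Θ[atTop] phi a b := by
  have hp0 : 0 < p := by linarith
  have hβ0 : 0 ≤ 1 - 1 / p := by rw [sub_nonneg, div_le_one hp0]; exact hp1.le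
  have ha0 : 0 < a := by linarith
  have hent0 : ∀ k, 0 ≤ entX k (WLp p a b) := fun k =>
    Real.sInf_nonneg fun x hx => hx.1.le
  have hphi0 : ∀ k, 0 ≤ phi a b k := fun k => by
    unfold phi
    have : 0 ≤ Real.log k := Real.log_natCast_nonneg k
    positivity
  constructor
  · obtain ⟨B, C, hB, hC, hup⟩ := upper hp1 hp2 (b := b) ha1 ha2
    obtain ⟨C', hC', hcmp⟩ := compare (a := a) (b := b) ha0 hB
    refine IsBigO.of_bound (C * C') ?_
    filter_upwards [hcmp, tendsto_natCast_atTop_atTop.eventually_ge_atTop (4 * B)] with k hk hk4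
    obtain ⟨n, hn, h1, h2⟩ := exists_nu hB hk4
    rw [Real.norm_of_nonneg (hent0 k), Real.norm_of_nonneg (hphi0 k)]
    calc entX k (WLp p a b) ≤ C * RR a b n := hup n k hn h1
      _ ≤ C * (C' * phi a b k) := by
          have := (hk n hn h1 h2).1
          gcongr
      _ = _ := by ring
  · obtain ⟨C', hC', hcmp⟩ := compare (a := a) (b := b) ha0 one_pos
    refine IsBigO.of_bound (C' * (2 ^ (a * ((1 : ℕ) : ℝ)) * (((1 : ℕ) : ℝ) + 1) ^ |b|) * 4) ?_
    filter_upwards [hcmp, tendsto_natCast_atTop_atTop.eventually_ge_atTop (4 * (1 : ℝ))] with k hk hk4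
    obtain ⟨n, hn, h1, h2⟩ := exists_nu one_pos hk4
    rw [Real.norm_of_nonneg (hent0 k), Real.norm_of_nonneg (hphi0 k)]
    have h3 := (hk n hn h1 h2).2
    have h4 : RR a b n ≤ RR a b (n + 1) * (2 ^ (a * ((1 : ℕ) : ℝ)) * (((1 : ℕ) : ℝ) + 1) ^ |b|) :=
      RR_down (by omega) rfl
    have h5 : k ≤ (n + 1 + 1) * 2 ^ (n + 1) := by
      unfold DD at h2
      have h6 : (k : ℝ) < (((n + 1 + 1) * 2 ^ (n + 1) : ℕ) : ℝ) := by
        push_cast
        push_cast at h2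
        linarith
      exact_mod_cast h6.le
    have h7 := lower hp1 hp2 (b := b) ha1 (n + 1) k h5
    have h8 : (0 : ℝ) < 2 ^ (a * ((1 : ℕ) : ℝ)) * (((1 : ℕ) : ℝ) + 1) ^ |b| := by positivity
    calc phi a b k ≤ C' * RR a b n := h3
      _ ≤ C' * (RR a b (n + 1) * (2 ^ (a * ((1 : ℕ) : ℝ)) * (((1 : ℕ) : ℝ) + 1) ^ |b|)) := by gcongr
      _ ≤ C' * ((4 * entX k (WLp p a b)) * (2 ^ (a * ((1 : ℕ) : ℝ)) * (((1 : ℕ) : ℝ) + 1) ^ |b|)) := by
          gcongr
      _ = _ := by ring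

end Pool.Agent.Lib.MP_629918_an

end

section

/-!
# The class is a compact subset of `L^p`
-/


open MeasureTheory Filter Topology Asymptotics

namespace Pool.Agent.Lib.MP_629918_an

lemma isClosed_WLp {p : ℝ} (hp : 1 ≤ p) [Fact (1 ≤ ENNReal.ofReal p)] (a b : ℝ) :
    IsClosed (WLp p a b) := by
  have h1 : WLp p a b = ⋂ l : ℕ, {g : Lp ℂ (ENNReal.ofReal p) torusMeasure |
      ∫ x, ‖P (Q l) (coeff g) x‖ ∂torusMeasure ≤ RR a b l} := by
    ext g
    simp only [Set.mem_iInter, Set.mem_ofPred_eq]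
    constructor
    · intro h l
      exact (mem_classW_iff.1 (show (g : Torus → ℂ) ∈ classW a b from h)).2 l
    · intro h
      exact (mem_classW_iff.2 ⟨integrable_of_Lp p hp g, h⟩ : (g : Torus → ℂ) ∈ classW a b)
  rw [h1]
  refine isClosed_iInter fun l => isClosed_le ?_ continuous_const
  -- continuity of the `L¹` norm of a layer
  have h2 : Continuous fun g : Lp ℂ (ENNReal.ofReal p) torusMeasure =>
      (∑ k ∈ Q l, coeffL p hp k g • expoC k : C(Torus, ℂ)) := by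
    refine continuous_finsetSum _ fun k _ => ?_
    exact (coeffL p hp k).continuous.smul continuous_const
  have h3 : Continuous fun F : C(Torus, ℂ) => ∫ x, ‖F x‖ ∂torusMeasure := by
    rw [Metric.continuous_iff]
    intro F ε hε
    refine ⟨ε, hε, fun G hG => ?_⟩
    rw [dist_eq_norm] at hG ⊢
    have hi : ∀ H : C(Torus, ℂ), Integrable (fun x => ‖H x‖) torusMeasure := fun H =>
      integrable_of_continuous H.continuous.norm
    rw [← integral_sub (hi G) (hi F)]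
    refine lt_of_le_of_lt ?_ hG
    calc ‖∫ x, (‖G x‖ - ‖F x‖) ∂torusMeasure‖ ≤ ∫ x, ‖‖G x‖ - ‖F x‖‖ ∂torusMeasure :=
          norm_integral_le_integral_norm _
      _ ≤ ∫ _x, ‖G - F‖ ∂torusMeasure := by
          refine integral_mono ((hi G).sub (hi F)).norm (integrable_const _) fun x => ?_
          refine (abs_norm_sub_norm_le _ _).trans ?_
          exact (G - F).norm_coe_le_norm x
      _ = ‖G - F‖ := by simp
  have h4 := h3.comp h2
  refine h4.congr fun g => ?_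
  simp only [Function.comp_apply]
  congr 1; ext x
  congr 1
  simp only [P, ContinuousMap.coe_sum, Finset.sum_apply, ContinuousMap.smul_apply, smul_eq_mul,
    coeffL_apply, expoC, ContinuousMap.coe_mk]

lemma totallyBounded_WLp {p : ℝ} [Fact (1 ≤ ENNReal.ofReal p)] (hp1 : 1 < p) (hp2 : p < 2) {a b : ℝ}
    (ha1 : 1 - 1 / p < a) (ha2 : a ≤ 1 / 2) : TotallyBounded (WLp p a b) := by
  rw [Metric.totallyBounded_iff]
  intro ε hε
  obtain ⟨B, C, hB, hC, hup⟩ := upper hp1 hp2 (b := b) ha1 ha2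
  have hp0 : 0 < p := by linarith
  have hβ0 : 0 ≤ 1 - 1 / p := by rw [sub_nonneg, div_le_one hp0]; exact hp1.le
  have hR : Tendsto (fun n => C * RR a b n) atTop (𝓝 0) := by
    have h1 := (summable_tau hp1 (b := b) ha1).tendsto_atTop_zero
    have h2 : Tendsto (fun n => RR a b n) atTop (𝓝 0) := by
      refine squeeze_zero (fun n => (RR_pos a b n).le) (fun n => ?_) h1
      unfold tau
      have h3 : 1 ≤ DD n ^ (1 - 1 / p) := Real.one_le_rpow (one_le_DD n) hβ0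
      have h4 := RR_pos a b n
      nlinarith
    simpa using h2.const_mul C
  obtain ⟨n, hn⟩ := ((hR.eventually (gt_mem_nhds hε)).and (eventually_ge_atTop 1)).exists
  obtain ⟨k, hk⟩ := exists_nat_ge (B * DD n)
  have h1 := (hup n k hn.2 hk).trans_lt hn.1
  unfold entX at h1
  have hne : {ε : ℝ | 0 < ε ∧ ∃ y : Fin (2 ^ k) → Lp ℂ (ENNReal.ofReal p) torusMeasure,
      WLp p a b ⊆ ⋃ j, Metric.closedBall (y j) ε}.Nonempty := by
    refine ⟨∑' l, tau p a b l + 1, ?_, fun _ => 0, ?_⟩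
    · have : 0 ≤ ∑' l, tau p a b l := tsum_nonneg (tau_nonneg p a b)
      positivity
    · intro g hg
      have h1 := norm_le_of_mem hp1 hp2 ha1 hg
      refine Set.mem_iUnion.2 ⟨⟨0, by positivity⟩, ?_⟩
      rw [mem_closedBall_zero_iff]
      linarith
  obtain ⟨r, ⟨hr0, y, hy⟩, hr⟩ := (csInf_lt_iff ⟨0, fun x hx => hx.1.le⟩ hne).1 h1
  refine ⟨Set.range y, Set.finite_range y, ?_⟩
  intro g hg
  obtain ⟨j, hj⟩ := Set.mem_iUnion.1 (hy hg)
  refine Set.mem_iUnion₂.2 ⟨y j, ⟨j, rfl⟩, ?_⟩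
  rw [Metric.mem_ball]
  exact lt_of_le_of_lt (Metric.mem_closedBall.1 hj) hr

theorem isCompact_WLp {p : ℝ} [Fact (1 ≤ ENNReal.ofReal p)] (hp1 : 1 < p) (hp2 : p < 2) {a b : ℝ}
    (ha1 : 1 - 1 / p < a) (ha2 : a ≤ 1 / 2) : IsCompact (WLp p a b) :=
  isCompact_iff_totallyBounded_isComplete.2
    ⟨totallyBounded_WLp hp1 hp2 ha1 ha2, (isClosed_WLp hp1.le a b).isComplete⟩

end Pool.Agent.Lib.MP_629918_an

end

section

/-!
# From the elements of the space `L^p` to functions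
-/


open MeasureTheory Filter Topology Asymptotics

namespace Pool.Agent.Lib.MP_629918_an

lemma coeff_congr_fun {f g : Torus → ℂ} (h : f =ᵐ[torusMeasure] g) : coeff f = coeff g :=
  funext fun k => coeff_congr h k

lemma mem_congr {a b : ℝ} {f g : Torus → ℂ} (h : f =ᵐ[torusMeasure] g) (hf : f ∈ classW a b) :
    g ∈ classW a b := by
  rw [mem_classW_iff] at hf ⊢
  rw [← coeff_congr_fun h]
  exact ⟨hf.1.congr h, hf.2⟩

lemma toLp_mem {p a b : ℝ} {f : Torus → ℂ} (hf : f ∈ classW a b) (h : InLp p f) :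
    MemLp.toLp f h ∈ WLp p a b := by
  have h1 : (MemLp.toLp f h : Torus → ℂ) ∈ classW a b := mem_congr (MemLp.coeFn_toLp h).symm hf
  exact h1

lemma distLp_eq {p : ℝ} [Fact (1 ≤ ENNReal.ofReal p)] {f g : Torus → ℂ} (hf : InLp p f) (hg : InLp p g) :
    distLp p f g = edist (MemLp.toLp f hf) (MemLp.toLp g hg) := by
  rw [Lp.edist_toLp_toLp]; rfl

lemma distLp_congr {p : ℝ} {f g f' g' : Torus → ℂ} (h1 : f =ᵐ[torusMeasure] f')
    (h2 : g =ᵐ[torusMeasure] g') : distLp p f g = distLp p f' g' := by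
  unfold distLp
  exact eLpNorm_congr_ae (h1.sub h2)

theorem entropyNumber_eq {p : ℝ} [Fact (1 ≤ ENNReal.ofReal p)] (hp1 : 1 < p) (hp2 : p < 2) {a b : ℝ}
    (ha1 : 1 - 1 / p < a) (k : ℕ) : entropyNumber p k (classW a b) = entX k (WLp p a b) := by
  unfold entropyNumber entX
  congr 1
  ext ε
  simp only [Set.mem_ofPred_eq]
  refine and_congr_right fun hε => ?_
  constructor
  · rintro ⟨y, hy1, hy2⟩
    refine ⟨fun j => MemLp.toLp (y j) (hy1 j), fun g hg => ?_⟩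
    obtain ⟨j, hj⟩ := hy2 g hg
    refine Set.mem_iUnion.2 ⟨j, ?_⟩
    rw [Metric.mem_closedBall, dist_edist]
    have h1 : distLp p g (y j) = edist g (MemLp.toLp (y j) (hy1 j)) := by
      rw [distLp_eq (Lp.memLp g) (hy1 j), Lp.toLp_coeFn]
    rw [h1] at hj
    exact ENNReal.toReal_le_of_le_ofReal hε.le hj
  · rintro ⟨y, hy⟩
    refine ⟨fun j => y j, fun j => Lp.memLp (y j), fun f hf => ?_⟩
    have hfp : InLp p f := memLp_of_mem hp1 hp2 ha1 hf
    obtain ⟨j, hj⟩ := Set.mem_iUnion.1 (hy (toLp_mem hf hfp))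
    refine ⟨j, ?_⟩
    rw [distLp_eq hfp (Lp.memLp (y j)), Lp.toLp_coeFn]
    rw [Metric.mem_closedBall, dist_edist] at hj
    rw [← ENNReal.ofReal_toReal (edist_ne_top _ _)]
    exact ENNReal.ofReal_le_ofReal hj

theorem compactLp {p : ℝ} [Fact (1 ≤ ENNReal.ofReal p)] (hp1 : 1 < p) (hp2 : p < 2) {a b : ℝ}
    (ha1 : 1 - 1 / p < a) (ha2 : a ≤ 1 / 2) : CompactLp p (classW a b) := by
  have hmem : ∀ f ∈ classW a b, InLp p f := fun f hf => memLp_of_mem hp1 hp2 ha1 hf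
  refine ⟨hmem, fun f hf => ?_⟩
  obtain ⟨g, hg, φ, hφ, hlim⟩ := (isCompact_WLp hp1 hp2 ha1 ha2 (b := b)).tendsto_subseq
    (x := fun n => MemLp.toLp (f n) (hmem _ (hf n))) (fun n => toLp_mem (hf n) _)
  refine ⟨g, hg, φ, hφ, ?_⟩
  have h1 : ∀ n, distLp p (f (φ n)) g = edist (MemLp.toLp (f (φ n)) (hmem _ (hf (φ n)))) g := by
    intro n
    rw [distLp_eq (hmem _ (hf (φ n))) (Lp.memLp g), Lp.toLp_coeFn]
  simp only [h1]
  exact tendsto_iff_edist_tendsto_0.1 hlim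

end Pool.Agent.Lib.MP_629918_an

end
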