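import Mathlib

set_option autoImplicit false

section

/-!
# Entropy numbers of the classes `W^{a,b}_1` on the two-dimensional torus: definitions
-/


open MeasureTheory

namespace Pool.Agent.Lib.MP_629918_an

instance fact_two_pi_pos : Fact (0 < 2 * Real.pi) := ⟨Real.two_pi_pos⟩

/-- The torus `(ℝ / 2πℤ)²`. -/
abbrev Torus : Type := AddCircle (2 * Real.pi) × AddCircle (2 * Real.pi)

/-- The normalised Haar measure on the torus, i.e. `(2π)⁻² dx` on `[0,2π)²`. -/
noncomputable def torusMeasure : Measure Torus :=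
  (AddCircle.haarAddCircle (T := 2 * Real.pi)).prod (AddCircle.haarAddCircle (T := 2 * Real.pi))

/-- The exponential `e^{i(k,x)}`. -/
noncomputable def expo (k : ℤ × ℤ) (x : Torus) : ℂ := fourier k.1 x.1 * fourier k.2 x.2

/-- The Fourier coefficient `f^(k) = (2π)⁻² ∫ f(x) e^{-i(k,x)} dx`. -/
noncomputable def coeff (f : Torus → ℂ) (k : ℤ × ℤ) : ℂ := ∫ x, f x * expo (-k) x ∂torusMeasure

/-- The one-dimensional dyadic block `{k ∈ ℤ : [2^{j-1}] ≤ |k| < 2^j}`. -/
noncomputable def block1 (j : ℕ) : Finset ℤ := (Finset.Ioo (-(2 : ℤ) ^ j) (2 ^ j)).filter (fun k => 2 ^ j / 2 ≤ |k|)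

/-- The dyadic block `ρ(s)`, `s = (s₁, s₂)`. -/
noncomputable def block (s : ℕ × ℕ) : Finset (ℤ × ℤ) := block1 s.1 ×ˢ block1 s.2

/-- The hyperbolic layer `f_l = ∑_{s₁+s₂=l} δ_s(f)`, with `s = (s₁, l - s₁)`, `0 ≤ s₁ ≤ l`. -/
noncomputable def layer (l : ℕ) (f : Torus → ℂ) (x : Torus) : ℂ :=
  ∑ s ∈ Finset.range (l + 1), ∑ k ∈ block (s, l - s), coeff f k * expo k x

/-- The class `W^{a,b}_1`. -/
def classW (a b : ℝ) : Set (Torus → ℂ) :=
  {f | Integrable f torusMeasure ∧
    ∀ l : ℕ, ∫ x, ‖layer l f x‖ ∂torusMeasure ≤ 2 ^ (-a * l) * (max l 1 : ℝ) ^ b}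

/-- Membership in `L^p` of the torus, `1 ≤ p < ∞` real. -/
def InLp (p : ℝ) (f : Torus → ℂ) : Prop := MemLp f (ENNReal.ofReal p) torusMeasure

/-- The distance `‖f - g‖_p` of two functions on the torus. -/
noncomputable def distLp (p : ℝ) (f g : Torus → ℂ) : ENNReal :=
  eLpNorm (f - g) (ENNReal.ofReal p) torusMeasure

/-- The class `A` is a compact subset of `L^p` (in terms of sequences): its functions are in `L^p`,
and every sequence of functions of `A` has a subsequence that converges in `L^p` to a function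
of `A`. -/
def CompactLp (p : ℝ) (A : Set (Torus → ℂ)) : Prop :=
  (∀ f ∈ A, InLp p f) ∧
  ∀ f : ℕ → Torus → ℂ, (∀ n, f n ∈ A) → ∃ g ∈ A, ∃ φ : ℕ → ℕ, StrictMono φ ∧
    Filter.Tendsto (fun n => distLp p (f (φ n)) g) Filter.atTop (nhds 0)

/-- The entropy number `ε_k(A, L_p)`: the infimum of the `ε > 0` such that `A` is covered by `2^k`
closed balls of `L^p` of radius `ε`. -/
noncomputable def entropyNumber (p : ℝ) (k : ℕ) (A : Set (Torus → ℂ)) : ℝ :=
  sInf {ε : ℝ | 0 < ε ∧ ∃ y : Fin (2 ^ k) → Torus → ℂ, (∀ j, InLp p (y j)) ∧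
    ∀ f ∈ A, ∃ j, distLp p f (y j) ≤ ENNReal.ofReal ε}

end Pool.Agent.Lib.MP_629918_an

end

section

/-!
# Trigonometric polynomials on the torus: basic facts
-/


open MeasureTheory

namespace Pool.Agent.Lib.MP_629918_an

instance isProb_torusMeasure : IsProbabilityMeasure torusMeasure := by
  unfold torusMeasure; infer_instance

lemma integral_fourier_one (n : ℤ) :
    ∫ t, fourier n t ∂(AddCircle.haarAddCircle (T := 2 * Real.pi)) = if n = 0 then 1 else 0 := by
  have h := congrFun (fourierCoeff_fourier (T := 2 * Real.pi) n) 0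
  unfold fourierCoeff at h
  simp only [neg_zero, fourier_zero, one_smul] at h
  rw [h, Pi.single_apply]
  simp [eq_comm]

lemma continuous_expo (k : ℤ × ℤ) : Continuous (expo k) := by
  unfold expo
  exact ((fourier k.1).continuous.comp continuous_fst).mul
    ((fourier k.2).continuous.comp continuous_snd)

@[simp] lemma expo_zero (x : Torus) : expo 0 x = 1 := by
  simp [expo]

lemma expo_add (k m : ℤ × ℤ) (x : Torus) : expo (k + m) x = expo k x * expo m x := by
  simp only [expo, Prod.fst_add, Prod.snd_add, fourier_add]; ring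

lemma expo_neg (k : ℤ × ℤ) (x : Torus) : expo (-k) x = star (expo k x) := by
  simp only [expo, Prod.fst_neg, Prod.snd_neg, fourier_neg, star_mul']
  rfl

lemma norm_expo (k : ℤ × ℤ) (x : Torus) : ‖expo k x‖ = 1 := by
  simp only [expo, norm_mul, fourier_apply, Circle.norm_coe, mul_one]

lemma expo_mul_star (k : ℤ × ℤ) (x : Torus) : expo k x * star (expo k x) = 1 := by
  rw [← expo_neg, ← expo_add, add_neg_cancel, expo_zero]

lemma integral_expo (k : ℤ × ℤ) : ∫ x, expo k x ∂torusMeasure = if k = 0 then 1 else 0 := by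
  unfold torusMeasure expo
  rw [integral_prod_mul (fun x => (fourier k.1 x : ℂ)) (fun x => (fourier k.2 x : ℂ)),
    integral_fourier_one, integral_fourier_one]
  rcases k with ⟨a, b⟩
  by_cases ha : a = 0 <;> by_cases hb : b = 0 <;> simp [ha, hb]

/-- The trigonometric polynomial with coefficients `c` on the finite set `Q`. -/
noncomputable def P (Q : Finset (ℤ × ℤ)) (c : ℤ × ℤ → ℂ) (x : Torus) : ℂ := ∑ k ∈ Q, c k * expo k x

lemma continuous_P (Q : Finset (ℤ × ℤ)) (c : ℤ × ℤ → ℂ) : Continuous (P Q c) := by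
  unfold P
  exact continuous_finsetSum _ (fun k _ => continuous_const.mul (continuous_expo k))

lemma integrable_of_continuous {E : Type*} [NormedAddCommGroup E] {f : Torus → E}
    (hf : Continuous f) : Integrable f torusMeasure :=
  hf.integrable_of_hasCompactSupport (HasCompactSupport.of_compactSpace f)

lemma P_sub (Q : Finset (ℤ × ℤ)) (c d : ℤ × ℤ → ℂ) (x : Torus) :
    P Q (c - d) x = P Q c x - P Q d x := by
  simp [P, sub_mul, Finset.sum_sub_distrib]

lemma P_add (Q : Finset (ℤ × ℤ)) (c d : ℤ × ℤ → ℂ) (x : Torus) :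
    P Q (c + d) x = P Q c x + P Q d x := by
  simp [P, add_mul, Finset.sum_add_distrib]

lemma coeff_P (Q : Finset (ℤ × ℤ)) (c : ℤ × ℤ → ℂ) (m : ℤ × ℤ) :
    coeff (P Q c) m = if m ∈ Q then c m else 0 := by
  unfold coeff P
  have h1 : ∀ x, (∑ k ∈ Q, c k * expo k x) * expo (-m) x = ∑ k ∈ Q, c k * expo (k - m) x := by
    intro x
    rw [Finset.sum_mul]
    refine Finset.sum_congr rfl fun k _ => ?_
    rw [sub_eq_add_neg, expo_add]; ring
  simp only [h1]
  rw [integral_finsetSum]
  · simp only [integral_const_mul, integral_expo, sub_eq_zero]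
    simp
  · intro k _
    exact integrable_of_continuous (continuous_const.mul (continuous_expo _))

lemma integral_norm_sq_P (Q : Finset (ℤ × ℤ)) (c : ℤ × ℤ → ℂ) :
    ∫ x, ‖P Q c x‖ ^ 2 ∂torusMeasure = ∑ k ∈ Q, ‖c k‖ ^ 2 := by
  have h1 : ∀ x, ((‖P Q c x‖ ^ 2 : ℝ) : ℂ) = ∑ k ∈ Q, ∑ m ∈ Q, c k * star (c m) * expo (k - m) x := by
    intro x
    rw [Complex.ofReal_pow, ← Complex.mul_conj']
    unfold P
    rw [map_sum, Finset.sum_mul_sum]
    refine Finset.sum_congr rfl fun k _ => Finset.sum_congr rfl fun m _ => ?_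
    rw [sub_eq_add_neg, expo_add, expo_neg, map_mul]
    simp only [Complex.star_def]
    ring
  have h2 : ((∫ x, ‖P Q c x‖ ^ 2 ∂torusMeasure : ℝ) : ℂ) = ((∑ k ∈ Q, ‖c k‖ ^ 2 : ℝ) : ℂ) := by
    rw [← integral_complex_ofReal]
    simp only [h1]
    rw [integral_finsetSum]
    · rw [Complex.ofReal_sum]
      refine Finset.sum_congr rfl fun k hk => ?_
      rw [integral_finsetSum]
      · simp only [integral_const_mul, integral_expo, sub_eq_zero]
        simp only [mul_ite, mul_one, mul_zero]
        rw [Finset.sum_ite_eq]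
        simp only [hk, if_true]
        rw [Complex.ofReal_pow, ← Complex.mul_conj']
        rfl
      · intro m _
        exact integrable_of_continuous (continuous_const.mul (continuous_expo _))
    · intro k _
      exact integrable_of_continuous
        (continuous_finsetSum _ fun m _ => continuous_const.mul (continuous_expo _))
  exact_mod_cast h2

end Pool.Agent.Lib.MP_629918_an

end

section

/-!
# One-dimensional kernels with bounded discrete L1 norms
-/


open MeasureTheory

namespace Pool.Agent.Lib.MP_629918_an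

/-- Equidistant grid points on the circle. -/
noncomputable def gp (N : ℕ) (i : ℕ) : AddCircle (2 * Real.pi) :=
  ((2 * Real.pi * i / N : ℝ) : AddCircle (2 * Real.pi))

lemma fourier_add_point (n : ℤ) (x y : AddCircle (2 * Real.pi)) :
    (fourier n (x + y) : ℂ) = fourier n x * fourier n y := by
  simp [fourier_apply, smul_add, AddCircle.toCircle_add]

lemma fourier_neg_point (n : ℤ) (x : AddCircle (2 * Real.pi)) :
    (fourier n (-x) : ℂ) = fourier (-n) x := by
  simp [fourier_apply]

lemma fourier_sub_point (n : ℤ) (x y : AddCircle (2 * Real.pi)) :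
    (fourier n (x - y) : ℂ) = fourier n x * fourier (-n) y := by
  rw [sub_eq_add_neg, fourier_add_point, fourier_neg_point]

lemma fourier_gp (N : ℕ) (n : ℤ) (i : ℕ) :
    (fourier n (gp N i) : ℂ) = (Complex.exp (2 * Real.pi * Complex.I * (n / N))) ^ i := by
  unfold gp
  rw [fourier_coe_apply, ← Complex.exp_nat_mul]
  congr 1
  have hpi : (Real.pi : ℂ) ≠ 0 := by exact_mod_cast Real.pi_ne_zero
  push_cast
  field_simp

lemma sum_fourier_gp (N : ℕ) (hN : 0 < N) (n : ℤ) :
    ∑ i ∈ Finset.range N, (fourier n (gp N i) : ℂ) = if (N : ℤ) ∣ n then (N : ℂ) else 0 := by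
  simp only [fourier_gp]
  have hN' : (N : ℂ) ≠ 0 := by exact_mod_cast hN.ne'
  set z : ℂ := Complex.exp (2 * Real.pi * Complex.I * (n / N)) with hz
  have hzN : z ^ N = 1 := by
    rw [hz, ← Complex.exp_nat_mul]
    have : (N : ℂ) * (2 * Real.pi * Complex.I * (n / N)) = n * (2 * Real.pi * Complex.I) := by
      field_simp
    rw [this, Complex.exp_int_mul_two_pi_mul_I]
  split_ifs with h
  · obtain ⟨m, hm⟩ := h
    have hz1 : z = 1 := by
      rw [hz, hm]
      have : (2 * Real.pi * Complex.I * (((N : ℤ) * m : ℤ) / (N : ℂ)) : ℂ) = m * (2 * Real.pi * Complex.I) := by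
        push_cast
        field_simp
      rw [this, Complex.exp_int_mul_two_pi_mul_I]
    simp [hz1]
  · have hz1 : z ≠ 1 := by
      intro h1
      rw [hz, Complex.exp_eq_one_iff] at h1
      obtain ⟨m, hm⟩ := h1
      apply h
      refine ⟨m, ?_⟩
      have hI : (2 * Real.pi * Complex.I : ℂ) ≠ 0 := by
        simp [Real.pi_ne_zero]
      have h2 : (n : ℂ) / N = m := by
        have := hm
        rw [mul_comm (m : ℂ)] at this
        exact mul_left_cancel₀ hI this
      rw [div_eq_iff hN'] at h2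
      have h3 : (n : ℂ) = ((m * N : ℤ) : ℂ) := by rw [h2]; push_cast; ring
      have h4 : n = m * N := by exact_mod_cast h3
      rw [h4]; ring
    have := mul_geom_sum z N
    rw [hzN, sub_self] at this
    rcases mul_eq_zero.1 this with h5 | h5
    · exact absurd (sub_eq_zero.1 h5) hz1
    · exact h5

/-- Discrete Parseval on the grid. -/
lemma grid_parseval (N : ℕ) (hN : 0 < N) (A : Finset ℤ)
    (hA : ∀ k ∈ A, ∀ m ∈ A, (N : ℤ) ∣ k - m → k = m) (y : AddCircle (2 * Real.pi)) :
    ∑ i ∈ Finset.range N, ‖∑ k ∈ A, (fourier k (y - gp N i) : ℂ)‖ ^ 2 = N * A.card := by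
  have h1 : ∀ i, ((‖∑ k ∈ A, (fourier k (y - gp N i) : ℂ)‖ ^ 2 : ℝ) : ℂ) =
      ∑ k ∈ A, ∑ m ∈ A, fourier (k - m) y * fourier (m - k) (gp N i) := by
    intro i
    rw [Complex.ofReal_pow, ← Complex.mul_conj', map_sum, Finset.sum_mul_sum]
    refine Finset.sum_congr rfl fun k _ => Finset.sum_congr rfl fun m _ => ?_
    rw [← fourier_neg, fourier_sub_point, fourier_sub_point, sub_eq_add_neg, sub_eq_add_neg,
      fourier_add, fourier_add, neg_neg]
    ring
  have h2 : ((∑ i ∈ Finset.range N, ‖∑ k ∈ A, (fourier k (y - gp N i) : ℂ)‖ ^ 2 : ℝ) : ℂ) =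
      ((N * A.card : ℝ) : ℂ) := by
    rw [Complex.ofReal_sum]
    simp only [h1]
    rw [Finset.sum_comm]
    have : ∀ k ∈ A, ∑ i ∈ Finset.range N, ∑ m ∈ A, (fourier (k - m) y : ℂ) * fourier (m - k) (gp N i)
        = N := by
      intro k hk
      rw [Finset.sum_comm]
      have h3 : ∀ m ∈ A, ∑ i ∈ Finset.range N, (fourier (k - m) y : ℂ) * fourier (m - k) (gp N i)
          = if k = m then (N : ℂ) else 0 := by
        intro m hm
        rw [← Finset.mul_sum, sum_fourier_gp N hN]
        by_cases hkm : k = m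
        · subst hkm; simp
        · have : ¬ (N : ℤ) ∣ m - k := fun hd => hkm (hA m hm k hk hd).symm
          simp [this, hkm]
      rw [Finset.sum_congr rfl h3, Finset.sum_ite_eq]
      simp [hk]
    rw [Finset.sum_congr rfl this]
    simp [mul_comm]
  exact_mod_cast h2

/-- The frequency region of the one-dimensional kernels. -/
noncomputable def Z (j : ℕ) : Finset ℤ :=
  if j = 0 then {0} else (Finset.Ioo (-(2 : ℤ) ^ (j + 1)) (2 ^ (j + 1))).filter (fun k => 2 ^ j < 4 * |k|)

lemma mem_Z {j : ℕ} (hj : j ≠ 0) {k : ℤ} : k ∈ Z j ↔ |k| < 2 ^ (j + 1) ∧ 2 ^ j < 4 * |k| := by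
  simp [Z, hj, abs_lt]

lemma mem_Z_zero {k : ℤ} : k ∈ Z 0 ↔ k = 0 := by simp [Z]

lemma Z_lt {j : ℕ} {k : ℤ} (hk : k ∈ Z j) : |k| < 2 ^ (j + 1) := by
  by_cases hj : j = 0
  · subst hj; rw [mem_Z_zero] at hk; subst hk; simp
  · exact ((mem_Z hj).1 hk).1

lemma mem_block1 {j : ℕ} {k : ℤ} : k ∈ block1 j ↔ |k| < 2 ^ j ∧ 2 ^ j / 2 ≤ |k| := by
  simp [block1, abs_lt]

lemma mem_block1_zero {k : ℤ} : k ∈ block1 0 ↔ k = 0 := by
  rw [mem_block1]
  constructor
  · rintro ⟨h, -⟩
    have : |k| < 1 := by simpa using h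
    exact Int.abs_lt_one_iff.1 this
  · rintro rfl; simp

lemma exists_kernel (j : ℕ) : ∃ α : ℤ → ℝ, (∀ k ∈ block1 j, α k = 1) ∧ (∀ k, k ∉ Z j → α k = 0) ∧
    (∀ t : AddCircle (2 * Real.pi), (∑ k ∈ Z j, (α k : ℂ) * fourier k t).im = 0) ∧
    ∀ y : AddCircle (2 * Real.pi), ∑ i ∈ Finset.range (4 * 2 ^ j),
      ‖∑ k ∈ Z j, (α k : ℂ) * fourier k (y - gp (4 * 2 ^ j) i)‖ ≤ 4 * ((4 * 2 ^ j : ℕ) : ℝ) := by
  classical
  rcases Nat.eq_zero_or_pos j with rfl | hj
  · refine ⟨fun k => if k = 0 then 1 else 0, ?_, ?_, ?_, ?_⟩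
    · intro k hk; rw [mem_block1_zero] at hk; simp [hk]
    · intro k hk; rw [mem_Z_zero] at hk; simp [hk]
    · intro t; simp [Z]
    · intro y; simp [Z]
  have hj0 : j ≠ 0 := hj.ne'
  -- parameters
  obtain ⟨b, hb1, hb2, hb3, hb4⟩ : ∃ b : ℕ, 1 ≤ b ∧ (2 ^ (j - 1) : ℕ) ≤ 2 * b ∧ 4 * b < 2 ^ j + 4
      ∧ 2 ^ j = 2 * 2 ^ (j - 1) := by
    rcases Nat.lt_or_ge j 2 with h | h
    · have : j = 1 := by omega
      subst this; exact ⟨1, by norm_num, by norm_num, by norm_num, by norm_num⟩
    · obtain ⟨i, rfl⟩ := Nat.exists_eq_add_of_le h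
      refine ⟨2 ^ i, Nat.one_le_two_pow, ?_, ?_, ?_⟩
      · have : 2 + i - 1 = i + 1 := by omega
        rw [this, pow_succ]; omega
      · rw [pow_add]; omega
      · have : 2 + i - 1 = i + 1 := by omega
        rw [this, pow_add, pow_succ]; ring
  set h : ℕ := 2 ^ (j - 1) with hh
  have hhpos : 1 ≤ h := Nat.one_le_two_pow
  have hbh : b ≤ h := by omega
  have h2j : (2 : ℤ) ^ j = 2 * (h : ℤ) := by exact_mod_cast hb4
  have h2j1 : (2 : ℤ) ^ (j + 1) = 4 * (h : ℤ) := by rw [pow_succ, h2j]; ring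
  set A : Finset ℤ := Finset.Ico (h : ℤ) (2 * h + b - 1) with hA
  set B : Finset ℤ := Finset.Ico (0 : ℤ) b with hB
  set N : ℕ := 4 * 2 ^ j with hN
  have hNpos : 0 < N := by positivity
  have hNh : (N : ℤ) = 8 * h := by rw [hN]; push_cast; rw [h2j]; ring
  have hZ1 : ∀ u ∈ A, ∀ m ∈ B, u - m ∈ Z j := by
    intro u hu m hm
    rw [hA, Finset.mem_Ico] at hu
    rw [hB, Finset.mem_Ico] at hm
    rw [mem_Z hj0, h2j, h2j1, abs_of_pos (by omega)]
    omega
  have hZ2 : ∀ u ∈ A, ∀ m ∈ B, m - u ∈ Z j := by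
    intro u hu m hm
    have := hZ1 u hu m hm
    rw [mem_Z hj0] at this ⊢
    rwa [abs_sub_comm]
  set α : ℤ → ℝ := fun k => (1 / b : ℝ) * ∑ u ∈ A, ∑ m ∈ B,
    ((if u - m = k then 1 else 0) + (if m - u = k then 1 else 0)) with hα
  have hbR : (0 : ℝ) < b := by exact_mod_cast hb1
  have hkey : ∀ F : ℤ → ℂ, ∑ k ∈ Z j, (α k : ℂ) * F k =
      (1 / b : ℂ) * ∑ u ∈ A, ∑ m ∈ B, (F (u - m) + F (m - u)) := by
    intro F
    simp only [hα]
    push_cast
    simp only [mul_assoc]
    rw [← Finset.mul_sum]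
    congr 1
    simp only [Finset.sum_mul]
    rw [Finset.sum_comm]
    refine Finset.sum_congr rfl fun u hu => ?_
    rw [Finset.sum_comm]
    refine Finset.sum_congr rfl fun m hm => ?_
    have hc : ∀ (p : Prop) [Decidable p], (((if p then 1 else 0 : ℝ)) : ℂ) = if p then 1 else 0 := by
      intro p _; split_ifs <;> simp
    simp only [hc, add_mul, ite_mul, one_mul, zero_mul]
    rw [Finset.sum_add_distrib, Finset.sum_ite_eq, Finset.sum_ite_eq, if_pos (hZ1 u hu m hm),
      if_pos (hZ2 u hu m hm)]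
  -- product formula
  have hprod : ∀ t : AddCircle (2 * Real.pi), ∑ k ∈ Z j, (α k : ℂ) * fourier k t =
      ((2 * ((1 / b : ℂ) * ((∑ u ∈ A, (fourier u t : ℂ)) * star (∑ m ∈ B, (fourier m t : ℂ)))).re : ℝ) : ℂ) := by
    intro t
    rw [hkey]
    have h1 : ∀ z : ℂ, ((2 * z.re : ℝ) : ℂ) = z + star z := by
      intro z
      rw [Complex.star_def, Complex.add_conj]
    rw [h1, star_mul', star_mul', star_star]
    have h2 : star (1 / b : ℂ) = 1 / b := by simp
    rw [h2, ← mul_add]
    congr 1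
    rw [star_sum, star_sum, Finset.sum_mul_sum, Finset.sum_mul_sum, ← Finset.sum_add_distrib]
    refine Finset.sum_congr rfl fun u _ => ?_
    rw [← Finset.sum_add_distrib]
    refine Finset.sum_congr rfl fun m _ => ?_
    rw [Complex.star_def, ← fourier_neg, ← fourier_neg, sub_eq_add_neg, sub_eq_add_neg, fourier_add,
      fourier_add]
    ring
  refine ⟨α, ?_, ?_, ?_, ?_⟩
  · -- value one on the block
    have hcount : ∀ k : ℤ, (h : ℤ) ≤ k → k < 2 * h →
        (∑ u ∈ A, ∑ m ∈ B, (((if u - m = k then 1 else 0) : ℝ) + (if m - u = k then 1 else 0))) = b := by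
      intro k hk1 hk2
      rw [Finset.sum_comm]
      have : ∀ m ∈ B, ∑ u ∈ A, (((if u - m = k then 1 else 0) : ℝ) + (if m - u = k then 1 else 0)) = 1 := by
        intro m hm
        rw [hB, Finset.mem_Ico] at hm
        rw [Finset.sum_add_distrib]
        have e1 : ∑ u ∈ A, ((if u - m = k then 1 else 0) : ℝ) = 1 := by
          rw [Finset.sum_eq_single (k + m)]
          · simp
          · intro u _ hu
            rw [if_neg]; omega
          · intro hn
            exfalso; apply hn; rw [hA, Finset.mem_Ico]; omega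
        have e2 : ∑ u ∈ A, ((if m - u = k then 1 else 0) : ℝ) = 0 := by
          apply Finset.sum_eq_zero
          intro u hu
          rw [hA, Finset.mem_Ico] at hu
          rw [if_neg]; omega
        rw [e1, e2, add_zero]
      rw [Finset.sum_congr rfl this]
      simp [hB]
    have hcount' : ∀ k : ℤ, (h : ℤ) ≤ -k → -k < 2 * h →
        (∑ u ∈ A, ∑ m ∈ B, (((if u - m = k then 1 else 0) : ℝ) + (if m - u = k then 1 else 0))) = b := by
      intro k hk1 hk2
      rw [← hcount (-k) hk1 hk2]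
      refine Finset.sum_congr rfl fun u _ => Finset.sum_congr rfl fun m _ => ?_
      have e1 : (u - m = k) ↔ (m - u = -k) := by omega
      have e2 : (m - u = k) ↔ (u - m = -k) := by omega
      simp only [e1, e2]
      ring
    intro k hk
    rw [mem_block1, h2j] at hk
    have h3 : (2 * (h : ℤ)) / 2 = h := by omega
    rw [h3] at hk
    simp only [hα]
    rcases abs_cases k with ⟨h1, h2⟩ | ⟨h1, h2⟩
    · rw [hcount k (by omega) (by omega)]; field_simp
    · rw [hcount' k (by omega) (by omega)]; field_simp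
  · intro k hk
    simp only [hα]
    rw [Finset.sum_eq_zero, mul_zero]
    intro u hu
    apply Finset.sum_eq_zero
    intro m hm
    rw [if_neg, if_neg, add_zero]
    · rintro rfl; exact hk (hZ2 u hu m hm)
    · rintro rfl; exact hk (hZ1 u hu m hm)
  · intro t
    rw [hprod]; exact Complex.ofReal_im _
  · intro y
    have hAcard : A.card ≤ 3 * b := by
      rw [hA, Int.card_Ico]; omega
    have hBcard : B.card = b := by rw [hB, Int.card_Ico]; omega
    have hPA := grid_parseval N hNpos A (by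
      intro k hk m hm hd
      rw [hA, Finset.mem_Ico] at hk hm
      have : |k - m| < N := by rw [hNh, abs_lt]; omega
      have := Int.eq_zero_of_abs_lt_dvd hd this
      omega) y
    have hPB := grid_parseval N hNpos B (by
      intro k hk m hm hd
      rw [hB, Finset.mem_Ico] at hk hm
      have : |k - m| < N := by rw [hNh, abs_lt]; omega
      have := Int.eq_zero_of_abs_lt_dvd hd this
      omega) y
    have hbound : ∀ i, ‖∑ k ∈ Z j, (α k : ℂ) * fourier k (y - gp N i)‖ ≤
        (2 / b : ℝ) * (‖∑ u ∈ A, (fourier u (y - gp N i) : ℂ)‖ * ‖∑ m ∈ B, (fourier m (y - gp N i) : ℂ)‖) := by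
      intro i
      rw [hprod, Complex.norm_real, Real.norm_eq_abs, abs_mul, abs_of_pos (by norm_num : (0:ℝ) < 2)]
      calc 2 * |((1 / b : ℂ) * ((∑ u ∈ A, (fourier u (y - gp N i) : ℂ)) *
              star (∑ m ∈ B, (fourier m (y - gp N i) : ℂ)))).re|
          ≤ 2 * ‖((1 / b : ℂ) * ((∑ u ∈ A, (fourier u (y - gp N i) : ℂ)) *
              star (∑ m ∈ B, (fourier m (y - gp N i) : ℂ))))‖ := by
            gcongr; exact Complex.abs_re_le_norm _
        _ = _ := by
            rw [norm_mul, norm_mul, norm_star, norm_div, norm_one, Complex.norm_natCast]; ring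
    calc ∑ i ∈ Finset.range N, ‖∑ k ∈ Z j, (α k : ℂ) * fourier k (y - gp N i)‖
        ≤ ∑ i ∈ Finset.range N, (2 / b : ℝ) * (‖∑ u ∈ A, (fourier u (y - gp N i) : ℂ)‖ *
            ‖∑ m ∈ B, (fourier m (y - gp N i) : ℂ)‖) := Finset.sum_le_sum fun i _ => hbound i
      _ = (2 / b : ℝ) * ∑ i ∈ Finset.range N, (‖∑ u ∈ A, (fourier u (y - gp N i) : ℂ)‖ *
            ‖∑ m ∈ B, (fourier m (y - gp N i) : ℂ)‖) := by rw [Finset.mul_sum]
      _ ≤ (2 / b : ℝ) * (2 * b * N) := by
          gcongr
          have hcs := Finset.sum_mul_sq_le_sq_mul_sq (Finset.range N)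
            (fun i => ‖∑ u ∈ A, (fourier u (y - gp N i) : ℂ)‖)
            (fun i => ‖∑ m ∈ B, (fourier m (y - gp N i) : ℂ)‖)
          rw [hPA, hPB, hBcard] at hcs
          have hA3 : (A.card : ℝ) ≤ 3 * b := by exact_mod_cast hAcard
          have hNR : (0 : ℝ) ≤ N := by positivity
          have h5 : ((N : ℝ) * A.card) * (N * b) ≤ (2 * b * N) ^ 2 := by
            have : (N : ℝ) * A.card * (N * b) = (N ^ 2 * b) * A.card := by ring
            rw [this]
            have : (2 * (b : ℝ) * N) ^ 2 = (N ^ 2 * b) * (4 * b) := by ring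
            rw [this]
            gcongr
            linarith
          exact le_of_sq_le_sq (hcs.trans h5) (by positivity)
      _ = 4 * (N : ℝ) := by field_simp; ring

end Pool.Agent.Lib.MP_629918_an

end

section

/-!
# Uniqueness of Fourier coefficients on the torus
-/


open MeasureTheory Filter Topology

namespace Pool.Agent.Lib.MP_629918_an

/-- The exponential as a continuous map. -/
noncomputable def expoC (k : ℤ × ℤ) : C(Torus, ℂ) := ⟨expo k, continuous_expo k⟩

/-- the star subalgebra generated by the exponentials -/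
noncomputable def expoAlg : StarSubalgebra ℂ C(Torus, ℂ) where
  toSubalgebra := Algebra.adjoin ℂ (Set.range expoC)
  star_mem' := by
    change Algebra.adjoin ℂ (Set.range expoC) ≤ star (Algebra.adjoin ℂ (Set.range expoC))
    refine Algebra.adjoin_le ?_
    rintro _ ⟨n, rfl⟩
    refine Algebra.subset_adjoin ⟨-n, ?_⟩
    ext1 x
    simp only [expoC, ContinuousMap.coe_mk, ContinuousMap.star_apply, expo_neg]

lemma expoAlg_coe : expoAlg.toSubalgebra.toSubmodule = Submodule.span ℂ (Set.range expoC) := by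
  apply Algebra.adjoin_eq_span_of_subset
  refine .trans (fun x ↦ Submonoid.closure_induction (fun _ ↦ id) ⟨0, ?_⟩ ?_) Submodule.subset_span
  · ext z
    simp [expoC]
  · rintro _ _ _ _ ⟨m, rfl⟩ ⟨n, rfl⟩
    refine ⟨m + n, ?_⟩
    ext z
    simp only [expoC, expo_add, ContinuousMap.coe_mk, ContinuousMap.mul_apply]

lemma expoAlg_sep : expoAlg.SeparatesPoints := by
  intro x y hxy
  have h : x.1 ≠ y.1 ∨ x.2 ≠ y.2 := by
    by_contra h
    push Not at h
    exact hxy (Prod.ext h.1 h.2)
  rcases h with h | h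
  · refine ⟨_, ⟨expoC (1, 0), Algebra.subset_adjoin ⟨(1, 0), rfl⟩, rfl⟩, ?_⟩
    simp only [expoC, ContinuousMap.coe_mk, expo, fourier_one, fourier_zero, mul_one]
    rw [Ne, Circle.coe_inj]
    exact fun h' => h (AddCircle.injective_toCircle Real.two_pi_pos.ne' h')
  · refine ⟨_, ⟨expoC (0, 1), Algebra.subset_adjoin ⟨(0, 1), rfl⟩, rfl⟩, ?_⟩
    simp only [expoC, ContinuousMap.coe_mk, expo, fourier_one, fourier_zero, one_mul]
    rw [Ne, Circle.coe_inj]
    exact fun h' => h (AddCircle.injective_toCircle Real.two_pi_pos.ne' h')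

lemma span_expoC_dense : (Submodule.span ℂ (Set.range expoC)).topologicalClosure = ⊤ := by
  rw [← expoAlg_coe]
  exact congr_arg (Subalgebra.toSubmodule <| StarSubalgebra.toSubalgebra ·)
    (ContinuousMap.starSubalgebra_topologicalClosure_eq_top_of_separatesPoints _ expoAlg_sep)

lemma integrable_mul_cont {f : Torus → ℂ} (hf : Integrable f torusMeasure) (g : C(Torus, ℂ)) :
    Integrable (fun x => f x * g x) torusMeasure := by
  refine hf.mul_bdd (c := ‖g‖) g.continuous.aestronglyMeasurable ?_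
  exact Eventually.of_forall fun x => g.norm_coe_le_norm x

lemma integral_mul_cont_eq_zero {f : Torus → ℂ} (hf : Integrable f torusMeasure)
    (h0 : ∀ k, coeff f k = 0) (g : C(Torus, ℂ)) : ∫ x, f x * g x ∂torusMeasure = 0 := by
  set L : C(Torus, ℂ) →ₗ[ℂ] ℂ :=
    { toFun := fun g => ∫ x, f x * g x ∂torusMeasure
      map_add' := by
        intro g h
        rw [← integral_add (integrable_mul_cont hf g) (integrable_mul_cont hf h)]
        congr 1; ext x
        simp only [ContinuousMap.add_apply]; ring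
      map_smul' := by
        intro c g
        simp only [RingHom.id_apply, smul_eq_mul]
        rw [← integral_const_mul]
        congr 1; ext x
        simp only [ContinuousMap.smul_apply, smul_eq_mul]; ring } with hL
  have hb : ∀ g, ‖L g‖ ≤ (∫ x, ‖f x‖ ∂torusMeasure) * ‖g‖ := by
    intro g
    rw [← integral_mul_const]
    refine (norm_integral_le_integral_norm _).trans ?_
    refine integral_mono (integrable_mul_cont hf g).norm (hf.norm.mul_const _) fun x => ?_
    simp only [norm_mul]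
    exact mul_le_mul_of_nonneg_left (g.norm_coe_le_norm x) (norm_nonneg _)
  have hcont : Continuous L := (L.mkContinuous _ hb).continuous
  have hle : (Submodule.span ℂ (Set.range expoC)).topologicalClosure ≤ LinearMap.ker L := by
    apply Submodule.topologicalClosure_minimal
    · rw [Submodule.span_le]
      rintro _ ⟨k, rfl⟩
      have := h0 (-k)
      unfold coeff at this
      rw [neg_neg] at this
      exact this
    · exact isClosed_singleton.preimage hcont
  rw [span_expoC_dense] at hle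
  exact hle (Submodule.mem_top (x := g))

theorem ae_zero_of_coeff {f : Torus → ℂ} (hf : Integrable f torusMeasure)
    (h0 : ∀ k, coeff f k = 0) : f =ᵐ[torusMeasure] 0 := by
  refine ae_eq_zero_of_forall_setIntegral_isClosed_eq_zero hf fun s hs => ?_
  have hlim := tendsto_integral_of_dominated_convergence (μ := torusMeasure)
    (F := fun n x => f x * (((hs.apprSeq n x : NNReal) : ℝ) : ℂ))
    (f := fun x => s.indicator f x) (fun x => ‖f x‖) ?_ hf.norm ?_ ?_
  · rw [integral_indicator hs.measurableSet] at hlim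
    refine tendsto_nhds_unique hlim ?_
    have : ∀ n, ∫ x, f x * (((hs.apprSeq n x : NNReal) : ℝ) : ℂ) ∂torusMeasure = 0 := by
      intro n
      have hc : Continuous fun x => (((hs.apprSeq n x : NNReal) : ℝ) : ℂ) :=
        Complex.continuous_ofReal.comp (NNReal.continuous_coe.comp (hs.apprSeq n).continuous)
      exact integral_mul_cont_eq_zero hf h0 ⟨_, hc⟩
    simp only [this]
    exact tendsto_const_nhds
  · intro n
    refine hf.aestronglyMeasurable.mul ?_
    exact (Complex.continuous_ofReal.comp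
      (NNReal.continuous_coe.comp (hs.apprSeq n).continuous)).aestronglyMeasurable
  · intro n
    refine Eventually.of_forall fun x => ?_
    rw [norm_mul]
    have h1 : ‖(((hs.apprSeq n x : NNReal) : ℝ) : ℂ)‖ ≤ 1 := by
      rw [Complex.norm_real, Real.norm_of_nonneg (NNReal.coe_nonneg _)]
      exact_mod_cast HasOuterApproxClosed.apprSeq_apply_le_one hs n x
    exact mul_le_of_le_one_right (norm_nonneg _) h1
  · refine Eventually.of_forall fun x => ?_
    have h1 := (tendsto_pi_nhds.1 (HasOuterApproxClosed.tendsto_apprSeq hs)) x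
    have h2 : Tendsto (fun n => f x * (((hs.apprSeq n x : NNReal) : ℝ) : ℂ)) atTop
        (𝓝 (f x * (((s.indicator (fun _ => (1 : NNReal)) x : NNReal) : ℝ) : ℂ))) :=
      ((Complex.continuous_ofReal.comp NNReal.continuous_coe).tendsto _ |>.comp h1).const_mul _
    convert h2 using 2
    by_cases hx : x ∈ s <;> simp [hx]

end Pool.Agent.Lib.MP_629918_an

end
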