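import Mathlib

set_option autoImplicit false

section

/-!
# Maurey's empirical method
-/


namespace Pool.Agent.Lib.MP_629918_an

open scoped InnerProductSpace

section

variable {E : Type*} [NormedAddCommGroup E] [InnerProductSpace ℂ E]

lemma maurey_aux {ι : Type*} [Fintype ι] (w : ι → ℝ) (hw : ∀ i, 0 ≤ w i) (hw1 : ∑ i, w i = 1)
    (x : ι → E) (M : ℝ) (hx : ∀ i, ‖x i‖ ≤ M) (m : ℕ) :
    ∃ s : Multiset ι, Multiset.card s = m ∧
      ‖(s.map x).sum - (m : ℝ) • ∑ i, w i • x i‖ ^ 2 ≤ 4 * M ^ 2 * m := by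
  set z := ∑ i, w i • x i with hz
  have hne : Nonempty ι := by
    by_contra h
    rw [not_nonempty_iff] at h
    simp at hw1
  have hM : 0 ≤ M := (norm_nonneg _).trans (hx hne.some)
  have hzM : ‖z‖ ≤ M := by
    rw [hz]
    calc ‖∑ i, w i • x i‖ ≤ ∑ i, ‖w i • x i‖ := norm_sum_le _ _
      _ ≤ ∑ i, w i * M := by
          refine Finset.sum_le_sum fun i _ => ?_
          rw [norm_smul, Real.norm_eq_abs, abs_of_nonneg (hw i)]
          exact mul_le_mul_of_nonneg_left (hx i) (hw i)
      _ = M := by rw [← Finset.sum_mul, hw1, one_mul]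
  induction m with
  | zero => exact ⟨0, by simp, by simp⟩
  | succ m ih =>
    obtain ⟨s, hs, hb⟩ := ih
    set S := (s.map x).sum - (m : ℝ) • z with hS
    -- choose i with nonpositive inner product
    obtain ⟨i, hi⟩ : ∃ i, (⟪S, x i - z⟫_ℂ).re ≤ 0 := by
      by_contra hcon
      push Not at hcon
      have h1 : ∑ i, w i * (⟪S, x i - z⟫_ℂ).re = 0 := by
        have h2 : ∑ i, w i • (x i - z) = 0 := by
          simp only [smul_sub, Finset.sum_sub_distrib, ← Finset.sum_smul, hw1, one_smul]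
          rw [← hz, sub_self]
        have h3 : ∑ i, w i * (⟪S, x i - z⟫_ℂ).re = (⟪S, ∑ i, w i • (x i - z)⟫_ℂ).re := by
          rw [inner_sum, Complex.re_sum]
          refine Finset.sum_congr rfl fun i _ => ?_
          rw [← Complex.coe_smul, inner_smul_right, Complex.re_ofReal_mul]
        rw [h3, h2, inner_zero_right]; rfl
      have h4 : 0 < ∑ i, w i * (⟪S, x i - z⟫_ℂ).re := by
        obtain ⟨j, hj⟩ : ∃ j, 0 < w j := by
          by_contra hall
          push Not at hall
          have : ∑ i, w i ≤ 0 := Finset.sum_nonpos fun i _ => hall i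
          linarith
        refine Finset.sum_pos' (fun i _ => mul_nonneg (hw i) (hcon i).le)
          ⟨j, Finset.mem_univ _, mul_pos hj (hcon j)⟩
      linarith
    refine ⟨i ::ₘ s, by simp [hs], ?_⟩
    have h5 : ((i ::ₘ s).map x).sum - ((m + 1 : ℕ) : ℝ) • z = S + (x i - z) := by
      rw [Multiset.map_cons, Multiset.sum_cons, hS]
      push_cast
      rw [add_smul, one_smul]
      abel
    rw [h5, norm_add_sq (𝕜 := ℂ)]
    have h6 : ‖x i - z‖ ^ 2 ≤ 4 * M ^ 2 := by
      have : ‖x i - z‖ ≤ 2 * M := (norm_sub_le _ _).trans (by have := hx i; linarith)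
      calc ‖x i - z‖ ^ 2 ≤ (2 * M) ^ 2 := pow_le_pow_left₀ (norm_nonneg _) this 2
        _ = 4 * M ^ 2 := by ring
    have hi' : RCLike.re ⟪S, x i - z⟫_ℂ ≤ 0 := hi
    push_cast
    nlinarith

/-- the points used in Maurey's method -/
noncomputable def mpt {J : Type*} (A : J → E) : Option (J × Fin 4) → E
  | none => 0
  | some (j, 0) => A j
  | some (j, 1) => - A j
  | some (j, 2) => Complex.I • A j
  | some (j, 3) => - (Complex.I • A j)

lemma norm_mpt_le {J : Type*} (A : J → E) (M : ℝ) (hM : 0 ≤ M) (hA : ∀ j, ‖A j‖ ≤ M) (o : Option (J × Fin 4)) :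
    ‖mpt A o‖ ≤ M := by
  rcases o with _ | ⟨j, i⟩
  · simpa [mpt] using hM
  · fin_cases i <;> simp [mpt, norm_smul, hA]

/-- the centers in Maurey's method -/
noncomputable def mcenter {J : Type*} (A : J → E) (Λ : ℝ) (m : ℕ) (s : Sym (Option (J × Fin 4)) m) : E :=
  (2 * Λ / m : ℝ) • ((s : Multiset (Option (J × Fin 4))).map (mpt A)).sum

/-- Maurey's lemma for complex combinations with `ℓ¹` norm at most `Λ`. -/
lemma maurey {J : Type*} [Fintype J] (A : J → E) (M Λ : ℝ) (hM : 0 ≤ M) (hA : ∀ j, ‖A j‖ ≤ M)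
    (hΛ : 0 < Λ) (m : ℕ) (hm : 0 < m) (lam : J → ℂ) (hlam : ∑ j, ‖lam j‖ ≤ Λ) :
    ∃ s : Sym (Option (J × Fin 4)) m, ‖∑ j, lam j • A j - mcenter A Λ m s‖ ≤ 4 * Λ * M / Real.sqrt m := by
  classical
  set u : J × Fin 4 → ℝ := fun p =>
    (match p with
      | (j, 0) => max (lam j).re 0
      | (j, 1) => max (-(lam j).re) 0
      | (j, 2) => max (lam j).im 0
      | (j, 3) => max (-(lam j).im) 0) / (2 * Λ) with hu
  have hu0 : ∀ p, 0 ≤ u p := by
    rintro ⟨j, i⟩
    fin_cases i <;> simp only [hu] <;> positivity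
  have hmax : ∀ x : ℝ, max x 0 + max (-x) 0 = |x| := by
    intro x
    rcases le_total 0 x with h | h
    · rw [max_eq_left h, max_eq_right (by linarith), abs_of_nonneg h, add_zero]
    · rw [max_eq_right h, max_eq_left (by linarith), abs_of_nonpos h, zero_add]
  have hmax' : ∀ x : ℝ, max x 0 - max (-x) 0 = x := by
    intro x
    rcases le_total 0 x with h | h
    · rw [max_eq_left h, max_eq_right (by linarith)]; ring
    · rw [max_eq_right h, max_eq_left (by linarith)]; ring
  have husum : ∑ p, u p ≤ 1 := by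
    rw [Fintype.sum_prod_type]
    have h1 : ∀ j, ∑ i, u (j, i) = (|(lam j).re| + |(lam j).im|) / (2 * Λ) := by
      intro j
      rw [Fin.sum_univ_four, ← hmax, ← hmax]
      simp only [hu]
      ring
    simp only [h1]
    rw [← Finset.sum_div, div_le_one (by positivity)]
    calc ∑ j, (|(lam j).re| + |(lam j).im|) ≤ ∑ j, 2 * ‖lam j‖ := by
          refine Finset.sum_le_sum fun j _ => ?_
          have := Complex.abs_re_le_norm (lam j)
          have := Complex.abs_im_le_norm (lam j)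
          linarith
      _ = 2 * ∑ j, ‖lam j‖ := by rw [Finset.mul_sum]
      _ ≤ 2 * Λ := by linarith
  set w : Option (J × Fin 4) → ℝ := fun o => match o with
    | none => 1 - ∑ p, u p
    | some p => u p with hw
  have hw0 : ∀ o, 0 ≤ w o := by
    rintro (_ | p)
    · simp only [hw]; linarith
    · exact hu0 p
  have hw1 : ∑ o, w o = 1 := by
    rw [Fintype.sum_option]; simp [hw]
  have hz : ∑ o, w o • mpt A o = (1 / (2 * Λ) : ℝ) • ∑ j, lam j • A j := by
    rw [Fintype.sum_option, Finset.smul_sum]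
    simp only [hw, mpt, smul_zero, zero_add]
    rw [Fintype.sum_prod_type]
    refine Finset.sum_congr rfl fun j _ => ?_
    rw [Fin.sum_univ_four]
    simp only [hu]
    have h1 : lam j = ((max (lam j).re 0 - max (-(lam j).re) 0 : ℝ) : ℂ) +
        ((max (lam j).im 0 - max (-(lam j).im) 0 : ℝ) : ℂ) * Complex.I := by
      rw [hmax', hmax', Complex.re_add_im]
    conv_rhs => rw [h1]
    simp only [← Complex.coe_smul, smul_neg, smul_smul, ← neg_smul, ← add_smul]
    congr 1
    push_cast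
    ring
  obtain ⟨s, hs, hb⟩ := maurey_aux w hw0 hw1 (mpt A) M (norm_mpt_le A M hM hA) m
  refine ⟨⟨s, hs⟩, ?_⟩
  rw [hz] at hb
  have hmR : (0 : ℝ) < m := by exact_mod_cast hm
  have hsq : 0 < Real.sqrt m := Real.sqrt_pos.2 hmR
  have h2 : ‖(s.map (mpt A)).sum - (m : ℝ) • ((1 / (2 * Λ) : ℝ) • ∑ j, lam j • A j)‖ ≤ 2 * M * Real.sqrt m := by
    have h3 : (2 * M * Real.sqrt m) ^ 2 = 4 * M ^ 2 * m := by
      rw [mul_pow, mul_pow, Real.sq_sqrt hmR.le]; ring
    rw [← h3] at hb
    exact le_of_sq_le_sq hb (by positivity)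
  have h4 : ∑ j, lam j • A j - mcenter A Λ m ⟨s, hs⟩ =
      -((2 * Λ / m : ℝ) • ((s.map (mpt A)).sum - (m : ℝ) • ((1 / (2 * Λ) : ℝ) • ∑ j, lam j • A j))) := by
    unfold mcenter
    rw [smul_sub, smul_smul, smul_smul]
    have h5 : (2 * Λ / m : ℝ) * m * (1 / (2 * Λ)) = 1 := by field_simp
    rw [h5, one_smul, neg_sub]
    rfl
  rw [h4, norm_neg, norm_smul, Real.norm_eq_abs, abs_of_pos (by positivity)]
  calc 2 * Λ / m * ‖(s.map (mpt A)).sum - (m : ℝ) • ((1 / (2 * Λ) : ℝ) • ∑ j, lam j • A j)‖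
      ≤ 2 * Λ / m * (2 * M * Real.sqrt m) := by gcongr
    _ = 4 * Λ * M / Real.sqrt m := by
        have : (m : ℝ) = Real.sqrt m * Real.sqrt m := (Real.mul_self_sqrt hmR.le).symm
        field_simp
        rw [Real.sq_sqrt hmR.le]
        ring

end

/-- The number of centers. -/
lemma card_sym_le (N m : ℕ) (hm : 0 < m) :
    ((N + m - 1).choose m : ℝ) ≤ (3 * (N + m) / m) ^ m := by
  have hmR : (0 : ℝ) < m := by exact_mod_cast hm
  have h1 : ((N + m - 1).choose m : ℝ) ≤ ((N + m : ℕ) : ℝ) ^ m / m.factorial := by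
    calc ((N + m - 1).choose m : ℝ) ≤ ((N + m).choose m : ℝ) := by
          exact_mod_cast Nat.choose_le_choose m (Nat.sub_le _ _)
      _ ≤ _ := Nat.choose_le_pow_div m (N + m)
  have h2 : (m : ℝ) ^ m / m.factorial ≤ 3 ^ m := by
    calc (m : ℝ) ^ m / m.factorial ≤ Real.exp m := Real.pow_div_factorial_le_exp _ hmR.le m
      _ = Real.exp 1 ^ m := by rw [← Real.exp_nat_mul, mul_one]
      _ ≤ 3 ^ m := by
          gcongr
          have := Real.exp_one_lt_d9
          linarith
  refine h1.trans ?_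
  have h3 : ((N + m : ℕ) : ℝ) ^ m / m.factorial = ((N + m : ℝ) / m) ^ m * ((m : ℝ) ^ m / m.factorial) := by
    rw [div_pow]; push_cast; field_simp
  rw [h3]
  calc ((N + m : ℝ) / m) ^ m * ((m : ℝ) ^ m / m.factorial) ≤ ((N + m : ℝ) / m) ^ m * 3 ^ m := by gcongr
    _ = (3 * (N + m) / m) ^ m := by rw [← mul_pow]; congr 1; ring

end Pool.Agent.Lib.MP_629918_an

end

section

/-!
# Lattice coverings of Euclidean balls
-/


namespace Pool.Agent.Lib.MP_629918_an

lemma sum_half_pow (K : ℕ) :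
    ∑ t ∈ Finset.Icc (-(K : ℤ)) K, (1 / 2 : ℝ) ^ t.natAbs = 3 - 2 * (1 / 2) ^ K := by
  induction K with
  | zero => simp; norm_num
  | succ K ih =>
    have h1 : Finset.Icc (-((K + 1 : ℕ) : ℤ)) ((K + 1 : ℕ) : ℤ) =
        insert ((K : ℤ) + 1) (insert (-((K : ℤ) + 1)) (Finset.Icc (-(K : ℤ)) K)) := by
      ext t
      simp only [Finset.mem_insert, Finset.mem_Icc]
      push_cast
      omega
    rw [h1, Finset.sum_insert, Finset.sum_insert, ih]
    · have e1 : ((K : ℤ) + 1).natAbs = K + 1 := by omega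
      have e2 : (-((K : ℤ) + 1)).natAbs = K + 1 := by omega
      rw [e1, e2, pow_succ]; ring
    · simp only [Finset.mem_Icc]; omega
    · simp only [Finset.mem_insert, Finset.mem_Icc]; omega

/-- integer vectors with small `ℓ¹` norm -/
noncomputable def latt (κ : Type) [Fintype κ] [DecidableEq κ] (K : ℕ) : Finset (κ → ℤ) :=
  (Fintype.piFinset fun _ : κ => Finset.Icc (-(K : ℤ)) K).filter (fun z => ∑ i, (z i).natAbs ≤ K)

lemma mem_latt {κ : Type} [Fintype κ] [DecidableEq κ] {K : ℕ} {z : κ → ℤ} :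
    z ∈ latt κ K ↔ ∑ i, (z i).natAbs ≤ K := by
  unfold latt
  rw [Finset.mem_filter, Fintype.mem_piFinset]
  constructor
  · exact fun h => h.2
  · intro h
    refine ⟨fun i => ?_, h⟩
    have : (z i).natAbs ≤ K := (Finset.single_le_sum (f := fun i => (z i).natAbs)
      (fun _ _ => Nat.zero_le _) (Finset.mem_univ i)).trans h
    rw [Finset.mem_Icc]; omega

lemma card_latt_le (κ : Type) [Fintype κ] [DecidableEq κ] (K : ℕ) :
    ((latt κ K).card : ℝ) ≤ 2 ^ K * 3 ^ (Fintype.card κ) := by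
  have h1 : ((latt κ K).card : ℝ) * (1 / 2) ^ K ≤ 3 ^ (Fintype.card κ) := by
    calc ((latt κ K).card : ℝ) * (1 / 2) ^ K = ∑ z ∈ latt κ K, (1 / 2 : ℝ) ^ K := by simp
      _ ≤ ∑ z ∈ latt κ K, ∏ i, (1 / 2 : ℝ) ^ (z i).natAbs := by
          refine Finset.sum_le_sum fun z hz => ?_
          rw [mem_latt] at hz
          rw [Finset.prod_pow_eq_pow_sum]
          exact pow_le_pow_of_le_one (by norm_num) (by norm_num) hz
      _ ≤ ∑ z ∈ Fintype.piFinset fun _ : κ => Finset.Icc (-(K : ℤ)) K, ∏ i, (1 / 2 : ℝ) ^ (z i).natAbs := by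
          refine Finset.sum_le_sum_of_subset_of_nonneg (Finset.filter_subset _ _) ?_
          intro z _ _; positivity
      _ = ∏ _i : κ, ∑ t ∈ Finset.Icc (-(K : ℤ)) K, (1 / 2 : ℝ) ^ t.natAbs := by
          rw [Finset.prod_univ_sum]
      _ ≤ ∏ _i : κ, 3 := by
          refine Finset.prod_le_prod (fun _ _ => Finset.sum_nonneg fun _ _ => by positivity) ?_
          intro i _
          rw [sum_half_pow]
          have : (0 : ℝ) < (1 / 2) ^ K := by positivity
          linarith
      _ = 3 ^ (Fintype.card κ) := by simp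
  have h2 : ((latt κ K).card : ℝ) = 2 ^ K * (((latt κ K).card : ℝ) * (1 / 2) ^ K) := by
    rw [mul_left_comm, ← mul_pow]; norm_num
  rw [h2]
  gcongr

/-- Lattice covering of the ball of radius `r` in `ℂ^ι` with error `r / A`. -/
lemma lattice_cover (ι : Type) [Fintype ι] [Nonempty ι] (r A : ℝ) (hr : 0 < r) (hA : 1 ≤ A) :
    ∃ S : Finset (EuclideanSpace ℂ ι), S.Nonempty ∧ (S.card : ℝ) ≤ 2 ^ ((A + 5) * (Fintype.card ι : ℝ)) ∧
      ∀ x : EuclideanSpace ℂ ι, ‖x‖ ≤ r → ∃ w ∈ S, ‖x - w‖ ≤ r / A := by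
  classical
  set d : ℕ := Fintype.card ι with hd
  have hd0 : 0 < d := Fintype.card_pos
  have hdR : (0 : ℝ) < d := by exact_mod_cast hd0
  set h : ℝ := 2 * r / (A * Real.sqrt (2 * d)) with hh
  have hs : 0 < Real.sqrt (2 * d) := Real.sqrt_pos.2 (by positivity)
  have hs2 : Real.sqrt (2 * d) ^ 2 = 2 * d := Real.sq_sqrt (by positivity)
  have hh0 : 0 < h := by positivity
  set K : ℕ := ⌊(A + 1) * d⌋₊ with hK
  set F : (ι × Fin 2 → ℤ) → EuclideanSpace ℂ ι := fun z =>
    WithLp.toLp 2 (fun i => ((h * z (i, 0) : ℝ) : ℂ) + ((h * z (i, 1) : ℝ) : ℂ) * Complex.I) with hF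
  refine ⟨(latt (ι × Fin 2) K).image F, ?_, ?_, ?_⟩
  · refine ⟨F 0, Finset.mem_image_of_mem _ ?_⟩
    rw [mem_latt]; simp
  · calc (((latt (ι × Fin 2) K).image F).card : ℝ) ≤ ((latt (ι × Fin 2) K).card : ℝ) := by
          exact_mod_cast Finset.card_image_le
      _ ≤ 2 ^ K * 3 ^ (Fintype.card (ι × Fin 2)) := card_latt_le _ _
      _ ≤ 2 ^ K * 2 ^ (4 * d) := by
          gcongr
          rw [Fintype.card_prod, Fintype.card_fin, ← hd, mul_comm d 2, pow_mul, pow_mul]
          gcongr
          norm_num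
      _ = (2 : ℝ) ^ ((K : ℝ) + 4 * d) := by
          rw [Real.rpow_add (by norm_num)]
          congr 1
          · rw [Real.rpow_natCast]
          · rw [← Real.rpow_natCast]; push_cast; rfl
      _ ≤ 2 ^ ((A + 5) * (d : ℝ)) := by
          apply Real.rpow_le_rpow_of_exponent_le (by norm_num)
          have := Nat.floor_le (show 0 ≤ (A + 1) * (d : ℝ) by positivity)
          rw [← hK] at this
          linarith
  · intro x hx
    set z : ι × Fin 2 → ℤ := fun p => if p.2 = 0 then round ((x p.1).re / h) else round ((x p.1).im / h) with hz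
    have hz0 : ∀ i, z (i, 0) = round ((x i).re / h) := fun i => by simp [hz]
    have hz1 : ∀ i, z (i, 1) = round ((x i).im / h) := fun i => by simp [hz]
    have hround : ∀ t : ℝ, |t - h * (round (t / h) : ℝ)| ≤ h / 2 := by
      intro t
      have h1 := abs_sub_round (t / h)
      have h2 : t - h * (round (t / h) : ℝ) = h * (t / h - round (t / h)) := by field_simp
      rw [h2, abs_mul, abs_of_pos hh0]
      nlinarith
    have hxn : ∑ i, ‖x i‖ ^ 2 ≤ r ^ 2 := by
      rw [← EuclideanSpace.norm_sq_eq]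
      exact pow_le_pow_left₀ (norm_nonneg _) hx 2
    refine ⟨F z, Finset.mem_image_of_mem _ ?_, ?_⟩
    · rw [mem_latt, hK]
      apply Nat.le_floor
      push_cast
      rw [Fintype.sum_prod_type]
      simp only [Fin.sum_univ_two, hz0, hz1]
      have habs : ∀ t : ℝ, ((round (t / h)).natAbs : ℝ) ≤ |t| / h + 1 / 2 := by
        intro t
        rw [Nat.cast_natAbs, Int.cast_abs]
        have h1 := abs_sub_round (t / h)
        have h2 : |(round (t / h) : ℝ)| ≤ |t / h| + |t / h - round (t / h)| := by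
          have := abs_sub_abs_le_abs_sub ((round (t / h) : ℝ)) (t / h)
          rw [abs_sub_comm] at this
          linarith
        rw [abs_div, abs_of_pos hh0] at h2
        linarith
      have hsum1 : ∑ i, (|(x i).re| + |(x i).im|) ≤ Real.sqrt (2 * d) * r := by
        have hcs : (∑ i, (|(x i).re| + |(x i).im|)) ^ 2 ≤ d * ∑ i, (|(x i).re| + |(x i).im|) ^ 2 := by
          have := sq_sum_le_card_mul_sum_sq (s := (Finset.univ : Finset ι)) (f := fun i => |(x i).re| + |(x i).im|)
          simpa [hd] using this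
        have h3 : ∀ i, (|(x i).re| + |(x i).im|) ^ 2 ≤ 2 * ‖x i‖ ^ 2 := by
          intro i
          rw [← Complex.normSq_eq_norm_sq, Complex.normSq_apply]
          have e1 := sq_abs (x i).re
          have e2 := sq_abs (x i).im
          nlinarith [sq_nonneg (|(x i).re| - |(x i).im|)]
        have h4 : (∑ i, (|(x i).re| + |(x i).im|)) ^ 2 ≤ (Real.sqrt (2 * d) * r) ^ 2 := by
          rw [mul_pow, hs2]
          calc (∑ i, (|(x i).re| + |(x i).im|)) ^ 2 ≤ d * ∑ i, (|(x i).re| + |(x i).im|) ^ 2 := hcs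
            _ ≤ d * ∑ i, 2 * ‖x i‖ ^ 2 := by gcongr with i _; exact h3 i
            _ = 2 * d * ∑ i, ‖x i‖ ^ 2 := by rw [← Finset.mul_sum]; ring
            _ ≤ 2 * d * r ^ 2 := by gcongr
        exact le_of_sq_le_sq h4 (by positivity)
      calc ∑ i, (((round ((x i).re / h)).natAbs : ℝ) + ((round ((x i).im / h)).natAbs : ℝ))
          ≤ ∑ i, ((|(x i).re| / h + 1 / 2) + (|(x i).im| / h + 1 / 2)) := by
            refine Finset.sum_le_sum fun i _ => ?_
            have := habs (x i).re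
            have := habs (x i).im
            linarith
        _ = (∑ i, (|(x i).re| + |(x i).im|)) / h + d := by
            rw [Finset.sum_div, hd, ← Finset.card_univ, Finset.card_eq_sum_ones]
            push_cast
            rw [← Finset.sum_add_distrib]
            refine Finset.sum_congr rfl fun i _ => ?_
            ring
        _ ≤ (Real.sqrt (2 * d) * r) / h + d := by gcongr
        _ = (A + 1) * d := by
            have h5 : Real.sqrt (2 * d) * r / h = A * (Real.sqrt (2 * d) ^ 2) / 2 := by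
              rw [hh]; field_simp
            rw [h5, hs2]; ring
    · apply le_of_sq_le_sq _ (by positivity)
      rw [EuclideanSpace.norm_sq_eq]
      have h6 : ∀ i, ‖(x - F z) i‖ ^ 2 ≤ h ^ 2 / 2 := by
        intro i
        have h7 : (x - F z) i = (((x i).re - h * z (i, 0) : ℝ) : ℂ) + (((x i).im - h * z (i, 1) : ℝ) : ℂ) * Complex.I := by
          simp only [hF, PiLp.sub_apply]
          conv_lhs => rw [← Complex.re_add_im (x i)]
          push_cast
          ring
        rw [h7, ← Complex.normSq_eq_norm_sq, Complex.normSq_add_mul_I, hz0, hz1]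
        have e1 := hround (x i).re
        have e2 := hround (x i).im
        rw [← sq_abs ((x i).re - _), ← sq_abs ((x i).im - _)]
        have g1 := pow_le_pow_left₀ (abs_nonneg _) e1 2
        have g2 := pow_le_pow_left₀ (abs_nonneg _) e2 2
        calc _ ≤ (h / 2) ^ 2 + (h / 2) ^ 2 := add_le_add g1 g2
          _ = h ^ 2 / 2 := by ring
      calc ∑ i, ‖(x - F z) i‖ ^ 2 ≤ ∑ _i : ι, h ^ 2 / 2 := Finset.sum_le_sum fun i _ => h6 i
        _ = d * (h ^ 2 / 2) := by simp [hd]
        _ = (r / A) ^ 2 := by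
            rw [hh, div_pow, mul_pow, mul_pow, hs2]
            field_simp

end Pool.Agent.Lib.MP_629918_an

end
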