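import Mathlib

set_option autoImplicit false

/-!
# Parameters: elementary inequalities
-/

open MeasureTheory Filter Topology Asymptotics

namespace Pool.Agent.Lib.MP_629918_an

/-- dimension parameter `D_l = (l+1) 2^l` -/
noncomputable def DD (l : ℕ) : ℝ := (l + 1) * 2 ^ l

lemma DD_pos (l : ℕ) : 0 < DD l := by unfold DD; positivity

lemma one_le_DD (l : ℕ) : 1 ≤ DD l := by
  unfold DD
  have : (1 : ℝ) ≤ 2 ^ l := one_le_pow₀ (by norm_num)
  nlinarith [(Nat.cast_nonneg l : (0 : ℝ) ≤ l)]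

/-- The bound for the `L¹` norm of the layer `l` in the class. -/
noncomputable def RR (a b : ℝ) (l : ℕ) : ℝ := 2 ^ (-a * l) * (max l 1 : ℝ) ^ b

lemma RR_pos (a b : ℝ) (l : ℕ) : 0 < RR a b l := by
  unfold RR
  have : (0 : ℝ) < max (l : ℝ) 1 := lt_max_of_lt_right one_pos
  positivity

lemma rpow_ratio {u v t b : ℝ} (hu : 0 < u) (hv : 0 < v) (ht : 1 ≤ t) (h1 : u ≤ t * v) (h2 : v ≤ t * u) :
    u ^ b ≤ t ^ |b| * v ^ b := by
  have ht0 : 0 < t := by linarith
  rcases le_total 0 b with hb | hb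
  · rw [abs_of_nonneg hb, ← Real.mul_rpow ht0.le hv.le]
    exact Real.rpow_le_rpow hu.le h1 hb
  · rw [abs_of_nonpos hb]
    have h3 : v / t ≤ u := by rw [div_le_iff₀ ht0]; linarith
    have h4 : u ^ b ≤ (v / t) ^ b := Real.rpow_le_rpow_of_nonpos (by positivity) h3 hb
    refine h4.trans (le_of_eq ?_)
    rw [Real.div_rpow hv.le ht0.le, Real.rpow_neg ht0.le]
    field_simp

lemma RR_down {a b : ℝ} {n l i : ℕ} (hn : 1 ≤ n) (h : l + i = n) :
    RR a b l ≤ RR a b n * (2 ^ (a * i) * ((i : ℝ) + 1) ^ |b|) := by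
  unfold RR
  have hnR : (1 : ℝ) ≤ n := by exact_mod_cast hn
  have hl : (l : ℝ) + i = n := by exact_mod_cast h
  have hi0 : (0 : ℝ) ≤ i := Nat.cast_nonneg _
  have hl0 : (0 : ℝ) ≤ l := Nat.cast_nonneg _
  have e1 : max (n : ℝ) 1 = n := max_eq_left hnR
  have hm : (1 : ℝ) ≤ max (l : ℝ) 1 := le_max_right _ _
  have key : (max (l : ℝ) 1) ^ b ≤ ((i : ℝ) + 1) ^ |b| * (n : ℝ) ^ b := by
    apply rpow_ratio (by linarith) (by linarith) (by linarith)
    · have : max (l : ℝ) 1 ≤ n := max_le (by linarith) hnR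
      nlinarith
    · rcases Nat.eq_zero_or_pos l with h0 | h0
      · subst h0
        simp only [Nat.cast_zero, zero_add] at hl
        simp only [Nat.cast_zero]
        rw [max_eq_right (by norm_num)]
        linarith
      · have h1 : (1 : ℝ) ≤ l := by exact_mod_cast h0
        rw [max_eq_left h1]
        nlinarith
  rw [e1]
  have e2 : (2 : ℝ) ^ (-a * l) = 2 ^ (-a * n) * 2 ^ (a * i) := by
    rw [← Real.rpow_add (by norm_num), ← hl]; congr 1; ring
  rw [e2]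
  calc (2 : ℝ) ^ (-a * n) * 2 ^ (a * i) * (max (l : ℝ) 1) ^ b
      ≤ 2 ^ (-a * n) * 2 ^ (a * i) * (((i : ℝ) + 1) ^ |b| * (n : ℝ) ^ b) := by gcongr
    _ = _ := by ring

lemma RR_up {a b : ℝ} {n j : ℕ} (hn : 1 ≤ n) :
    RR a b (n + j) ≤ RR a b n * (2 ^ (-a * j) * ((j : ℝ) + 1) ^ |b|) := by
  unfold RR
  have hnR : (1 : ℝ) ≤ n := by exact_mod_cast hn
  have hj0 : (0 : ℝ) ≤ j := Nat.cast_nonneg _
  have e1 : max (n : ℝ) 1 = n := max_eq_left hnR
  have e0 : max ((n + j : ℕ) : ℝ) 1 = n + j := by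
    push_cast; exact max_eq_left (by linarith)
  have key : ((n : ℝ) + j) ^ b ≤ ((j : ℝ) + 1) ^ |b| * (n : ℝ) ^ b := by
    apply rpow_ratio (by linarith) (by linarith) (by linarith)
    · nlinarith
    · nlinarith
  rw [e1, e0]
  have e2 : (2 : ℝ) ^ (-a * ((n + j : ℕ) : ℝ)) = 2 ^ (-a * n) * 2 ^ (-a * j) := by
    rw [← Real.rpow_add (by norm_num)]; congr 1; push_cast; ring
  rw [e2]
  calc (2 : ℝ) ^ (-a * n) * 2 ^ (-a * j) * ((n : ℝ) + j) ^ b
      ≤ 2 ^ (-a * n) * 2 ^ (-a * j) * (((j : ℝ) + 1) ^ |b| * (n : ℝ) ^ b) := by gcongr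
    _ = _ := by ring

lemma DD_down {n l i : ℕ} (h : l + i = n) : DD l ≤ DD n * 2 ^ (-(i : ℝ)) := by
  unfold DD
  subst h
  rw [Real.rpow_neg (by norm_num), Real.rpow_natCast, pow_add]
  push_cast
  have : (0 : ℝ) < 2 ^ i := by positivity
  have h3 : ((l : ℝ) + i + 1) * (2 ^ l * 2 ^ i) * (2 ^ i)⁻¹ = (l + i + 1) * 2 ^ l := by
    field_simp
  rw [h3]
  gcongr
  have : (0 : ℝ) ≤ i := Nat.cast_nonneg _
  linarith

lemma DD_up (n j : ℕ) : DD (n + j) ≤ DD n * (((j : ℝ) + 1) * 2 ^ (j : ℝ)) := by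
  unfold DD
  rw [Real.rpow_natCast, pow_add]
  push_cast
  have h1 : (n : ℝ) + j + 1 ≤ (n + 1) * (j + 1) := by
    have : (0 : ℝ) ≤ (n : ℝ) * j := by positivity
    nlinarith
  calc ((n : ℝ) + j + 1) * (2 ^ n * 2 ^ j) ≤ ((n + 1) * (j + 1)) * (2 ^ n * 2 ^ j) := by gcongr
    _ = _ := by ring

lemma log_bound (j : ℕ) : Real.logb 2 (393 * (((j : ℝ) + 1) * 2 ^ (2 * (j : ℝ)))) ≤ 9 * ((j : ℝ) + 1) := by
  have hj0 : (0 : ℝ) ≤ j := Nat.cast_nonneg _
  rw [Real.logb_le_iff_le_rpow (by norm_num) (by positivity)]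
  have h1 : (j : ℝ) + 1 ≤ 2 ^ (j : ℝ) := by
    rw [Real.rpow_natCast]
    exact_mod_cast Nat.lt_two_pow_self
  have h2 : (393 : ℝ) ≤ 2 ^ (9 : ℝ) := by
    rw [show (9 : ℝ) = ((9 : ℕ) : ℝ) by norm_num, Real.rpow_natCast]; norm_num
  calc 393 * (((j : ℝ) + 1) * 2 ^ (2 * (j : ℝ))) ≤ 2 ^ (9 : ℝ) * (2 ^ (j : ℝ) * 2 ^ (2 * (j : ℝ))) := by gcongr
    _ = 2 ^ (9 + 3 * (j : ℝ)) := by
        rw [← Real.rpow_add (by norm_num), ← Real.rpow_add (by norm_num)]; congr 1; ring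
    _ ≤ 2 ^ (9 * ((j : ℝ) + 1)) := by
        apply Real.rpow_le_rpow_of_exponent_le (by norm_num)
        linarith

lemma exists_nu {B : ℝ} (hB : 0 < B) {k : ℝ} (hk : 4 * B ≤ k) :
    ∃ n : ℕ, 1 ≤ n ∧ B * DD n ≤ k ∧ k < B * DD (n + 1) := by
  classical
  have hex : ∃ n : ℕ, k < B * DD (n + 1) := by
    obtain ⟨n, hn⟩ := exists_nat_gt (k / B)
    refine ⟨n, ?_⟩
    rw [div_lt_iff₀ hB] at hn
    have h1 : (n : ℝ) ≤ DD (n + 1) := by
      unfold DD
      push_cast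
      have h2 : (1 : ℝ) ≤ 2 ^ (n + 1) := one_le_pow₀ (by norm_num)
      have h3 : (0 : ℝ) ≤ n := Nat.cast_nonneg _
      nlinarith
    nlinarith
  refine ⟨Nat.find hex, ?_, ?_, Nat.find_spec hex⟩
  · by_contra h
    have h0 : Nat.find hex = 0 := by omega
    have h1 := Nat.find_spec hex
    rw [h0] at h1
    have : DD (0 + 1) = 4 := by unfold DD; norm_num
    rw [this] at h1
    linarith
  · by_cases h : Nat.find hex = 0
    · rw [h]
      have : DD 0 = 1 := by unfold DD; norm_num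
      rw [this]; linarith
    · obtain ⟨m, hm⟩ := Nat.exists_eq_succ_of_ne_zero h
      have h1 := Nat.find_min hex (m := m) (by omega)
      rw [hm]
      push Not at h1
      exact h1

/-- the comparison function -/
noncomputable def phi (a b : ℝ) (k : ℕ) : ℝ := (k : ℝ) ^ (-a) * (Real.log k) ^ (a + b)

lemma compare {a b B : ℝ} (ha : 0 < a) (hB : 0 < B) :
    ∃ C : ℝ, 0 < C ∧ ∀ᶠ k : ℕ in atTop, ∀ n : ℕ, 1 ≤ n → B * DD n ≤ k → (k : ℝ) < B * DD (n + 1) →
      RR a b n ≤ C * phi a b k ∧ phi a b k ≤ C * RR a b n := by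
  set t : ℝ := max 3 (2 + |Real.log (4 * B)|) with ht
  set t' : ℝ := max 1 (max (1 / B) (4 * B)) with ht'
  have ht1 : 1 ≤ t := le_trans (by norm_num) (le_max_left _ _)
  have ht1' : 1 ≤ t' := le_max_left _ _
  have ht0 : 0 < t := by linarith
  have ht0' : 0 < t' := by linarith
  refine ⟨t' ^ |(-a)| * t ^ |a + b| * 2 ^ a, by positivity, ?_⟩
  have hlog : ∀ᶠ k : ℕ in atTop, |Real.log B| + 1 ≤ Real.log k :=
    (Real.tendsto_log_atTop.comp tendsto_natCast_atTop_atTop).eventually_ge_atTop _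
  filter_upwards [hlog, eventually_ge_atTop 1] with k hL hk1 n hn h1 h2
  have hkR : (1 : ℝ) ≤ k := by exact_mod_cast hk1
  have hk0 : (0 : ℝ) < k := by linarith
  have hnR : (1 : ℝ) ≤ n := by exact_mod_cast hn
  have hn0 : (0 : ℝ) < n := by linarith
  have hD := DD_pos n
  have hLpos : 0 < Real.log k := by
    have := abs_nonneg (Real.log B)
    linarith
  have h4 : (k : ℝ) ≤ 4 * B * DD n := by
    have h3 := DD_up n 1
    have e : ((1 : ℕ) : ℝ) + 1 = 2 := by norm_num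
    rw [e, Nat.cast_one, Real.rpow_one] at h3
    have h3' := mul_le_mul_of_nonneg_left h3 hB.le
    linarith
  have hlogD : Real.log (DD n) = Real.log ((n : ℝ) + 1) + n * Real.log 2 := by
    unfold DD
    rw [Real.log_mul (by positivity) (by positivity), Real.log_pow]
  have hlog2a : Real.log 2 < 1 := by
    have := Real.log_two_lt_d9
    linarith
  have hlog2b : 2 / 3 < Real.log 2 := by
    have := Real.log_two_gt_d9
    linarith
  have hln : Real.log ((n : ℝ) + 1) ≤ n := by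
    have := Real.log_le_sub_one_of_pos (by positivity : (0 : ℝ) < (n : ℝ) + 1)
    linarith
  have hln0 : 0 ≤ Real.log ((n : ℝ) + 1) := Real.log_nonneg (by linarith)
  -- the logarithm is comparable with `n`
  have hu1 : (n : ℝ) ≤ t * Real.log k := by
    have h5 : Real.log (B * DD n) ≤ Real.log k := Real.log_le_log (by positivity) h1
    rw [Real.log_mul hB.ne' hD.ne', hlogD] at h5
    have h6 := neg_abs_le (Real.log B)
    have h7 : (n : ℝ) * Real.log 2 ≤ 2 * Real.log k := by linarith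
    have h8' := mul_le_mul_of_nonneg_left hlog2b.le hn0.le
    have h8 : (n : ℝ) ≤ 3 * Real.log k := by linarith
    have h9 : 3 ≤ t := le_max_left _ _
    have h9' := mul_le_mul_of_nonneg_right h9 hLpos.le
    linarith
  have hu2 : Real.log k ≤ t * n := by
    have h5 : Real.log k ≤ Real.log (4 * B * DD n) := Real.log_le_log hk0 h4
    rw [Real.log_mul (by positivity) hD.ne', hlogD] at h5
    have h6 := le_abs_self (Real.log (4 * B))
    have h6' := abs_nonneg (Real.log (4 * B))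
    have h9 : 2 + |Real.log (4 * B)| ≤ t := le_max_right _ _
    have h9' := mul_le_of_le_one_right hn0.le hlog2a.le
    have h10 : Real.log k ≤ |Real.log (4 * B)| + n + n := by linarith
    have h11 := mul_le_mul_of_nonneg_right h9 hn0.le
    have h12 := le_mul_of_one_le_right h6' hnR
    linarith
  have hv1 : DD n ≤ t' * k := by
    have h5 : 1 / B ≤ t' := (le_max_left _ _).trans (le_max_right _ _)
    calc DD n = 1 / B * (B * DD n) := by field_simp
      _ ≤ 1 / B * k := by gcongr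
      _ ≤ t' * k := by gcongr
  have hv2 : (k : ℝ) ≤ t' * DD n := by
    have h5 : 4 * B ≤ t' := (le_max_right _ _).trans (le_max_right _ _)
    have h5' := mul_le_mul_of_nonneg_right h5 hD.le
    linarith
  have r1 := rpow_ratio (b := a + b) hn0 hLpos ht1 hu1 hu2
  have r2 := rpow_ratio (b := a + b) hLpos hn0 ht1 hu2 hu1
  have r3 := rpow_ratio (b := -a) hD hk0 ht1' hv1 hv2
  have r4 := rpow_ratio (b := -a) hk0 hD ht1' hv2 hv1
  have hRR : RR a b n = DD n ^ (-a) * (((n : ℝ) + 1) ^ a * (n : ℝ) ^ b) := by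
    unfold RR DD
    rw [max_eq_left hnR, Real.mul_rpow (by positivity) (by positivity), ← Real.rpow_natCast (2 : ℝ) n,
      ← Real.rpow_mul (by norm_num), Real.rpow_neg (by positivity : (0 : ℝ) ≤ (n : ℝ) + 1)]
    have : (0 : ℝ) < ((n : ℝ) + 1) ^ a := by positivity
    have e : (n : ℝ) * -a = -a * n := by ring
    rw [e]
    field_simp
  have hup : ((n : ℝ) + 1) ^ a * (n : ℝ) ^ b ≤ 2 ^ a * (n : ℝ) ^ (a + b) := by
    rw [Real.rpow_add hn0, ← mul_assoc, ← Real.mul_rpow (by norm_num) hn0.le]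
    gcongr
    linarith
  have hlo : (n : ℝ) ^ (a + b) ≤ ((n : ℝ) + 1) ^ a * (n : ℝ) ^ b := by
    rw [Real.rpow_add hn0]
    gcongr
    linarith
  have h2a : (1 : ℝ) ≤ 2 ^ a := Real.one_le_rpow (by norm_num) ha.le
  unfold phi
  constructor
  · rw [hRR]
    calc DD n ^ (-a) * (((n : ℝ) + 1) ^ a * (n : ℝ) ^ b)
        ≤ (t' ^ |(-a)| * (k : ℝ) ^ (-a)) * (2 ^ a * (t ^ |a + b| * (Real.log k) ^ (a + b))) := by
          refine mul_le_mul r3 (hup.trans ?_) (by positivity) (by positivity)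
          gcongr
      _ = _ := by ring
  · rw [hRR]
    calc (k : ℝ) ^ (-a) * (Real.log k) ^ (a + b)
        ≤ (t' ^ |(-a)| * DD n ^ (-a)) * (t ^ |a + b| * (((n : ℝ) + 1) ^ a * (n : ℝ) ^ b)) := by
          refine mul_le_mul r4 (r2.trans ?_) (by positivity) (by positivity)
          gcongr
      _ = t' ^ |(-a)| * t ^ |a + b| * 1 * (DD n ^ (-a) * (((n : ℝ) + 1) ^ a * (n : ℝ) ^ b)) := by ring
      _ ≤ _ := by gcongr

end Pool.Agent.Lib.MP_629918_an
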