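import Pool.Agent.Lib.MP_629918_an.Defs
import Pool.Agent.Lib.MP_629918_an.MaureyLattice
import Pool.Agent.Lib.MP_629918_an.Param

set_option autoImplicit false

section

/-!
# The Riesz product inequality for hyperbolic layers
-/


open MeasureTheory

namespace Pool.Agent.Lib.MP_629918_an

/-- The coefficients of the one-dimensional kernel. -/
noncomputable def ker (j : ℕ) : ℤ → ℝ := Classical.choose (exists_kernel j)

lemma ker_one {j : ℕ} {k : ℤ} (hk : k ∈ block1 j) : ker j k = 1 :=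
  (Classical.choose_spec (exists_kernel j)).1 k hk

lemma ker_zero {j : ℕ} {k : ℤ} (hk : k ∉ Z j) : ker j k = 0 :=
  (Classical.choose_spec (exists_kernel j)).2.1 k hk

/-- The one-dimensional kernel. -/
noncomputable def kap (j : ℕ) (t : AddCircle (2 * Real.pi)) : ℂ := ∑ k ∈ Z j, (ker j k : ℂ) * fourier k t

lemma kap_im (j : ℕ) (t : AddCircle (2 * Real.pi)) : (kap j t).im = 0 :=
  (Classical.choose_spec (exists_kernel j)).2.2.1 t

lemma kap_neg (j : ℕ) (t : AddCircle (2 * Real.pi)) : kap j (-t) = star (kap j t) := by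
  unfold kap
  rw [star_sum]
  refine Finset.sum_congr rfl fun k _ => ?_
  rw [fourier_neg_point, fourier_neg, Complex.star_def, map_mul, Complex.conj_ofReal]

lemma kap_sum (j : ℕ) (y : AddCircle (2 * Real.pi)) :
    ∑ i ∈ Finset.range (4 * 2 ^ j), ‖kap j (gp (4 * 2 ^ j) i - y)‖ ≤ 4 * ((4 * 2 ^ j : ℕ) : ℝ) := by
  refine le_trans (le_of_eq ?_) ((Classical.choose_spec (exists_kernel j)).2.2.2 y)
  refine Finset.sum_congr rfl fun i _ => ?_
  rw [← neg_sub, kap_neg, norm_star]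
  rfl

/-- The index set of the layer `l`. -/
noncomputable def Q (l : ℕ) : Finset (ℤ × ℤ) := (Finset.range (l + 1)).biUnion (fun a => block (a, l - a))

lemma mem_Q {l : ℕ} {k : ℤ × ℤ} : k ∈ Q l ↔ ∃ a ≤ l, k ∈ block (a, l - a) := by
  simp [Q]

/-- two-dimensional kernel coefficients -/
noncomputable def ahat (l a : ℕ) (k : ℤ × ℤ) : ℝ := ker a k.1 * ker (l - a) k.2

/-- two-dimensional kernel frequencies -/
noncomputable def ZZ (l a : ℕ) : Finset (ℤ × ℤ) := Z a ×ˢ Z (l - a)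

lemma ahat_zero {l a : ℕ} {k : ℤ × ℤ} (hk : k ∉ ZZ l a) : ahat l a k = 0 := by
  unfold ahat
  rw [ZZ, Finset.mem_product, not_and_or] at hk
  rcases hk with h | h
  · rw [ker_zero h, zero_mul]
  · rw [ker_zero h, mul_zero]

lemma ahat_one {l a : ℕ} {k : ℤ × ℤ} (hk : k ∈ block (a, l - a)) : ahat l a k = 1 := by
  unfold ahat
  rw [block, Finset.mem_product] at hk
  rw [ker_one hk.1, ker_one hk.2, mul_one]

/-- two-dimensional kernel -/
noncomputable def K (l a : ℕ) (z : Torus) : ℂ := kap a z.1 * kap (l - a) z.2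

lemma K_eq (l a : ℕ) (z : Torus) : K l a z = ∑ m ∈ ZZ l a, (ahat l a m : ℂ) * expo m z := by
  unfold K kap ZZ
  rw [Finset.sum_mul_sum, Finset.sum_product]
  refine Finset.sum_congr rfl fun k _ => Finset.sum_congr rfl fun m _ => ?_
  simp only [ahat, expo]
  push_cast
  ring

lemma K_im (l a : ℕ) (z : Torus) : (K l a z).im = 0 := by
  unfold K
  rw [Complex.mul_im, kap_im, kap_im]; ring

/-- grid index set -/
noncomputable def G (l a : ℕ) : Finset (ℕ × ℕ) := Finset.range (4 * 2 ^ a) ×ˢ Finset.range (4 * 2 ^ (l - a))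

/-- grid points -/
noncomputable def pt (l a : ℕ) (i : ℕ × ℕ) : Torus := (gp (4 * 2 ^ a) i.1, gp (4 * 2 ^ (l - a)) i.2)

/-- number of grid points -/
noncomputable def NN (l a : ℕ) : ℝ := ((4 * 2 ^ a : ℕ) : ℝ) * ((4 * 2 ^ (l - a) : ℕ) : ℝ)

lemma NN_pos (l a : ℕ) : 0 < NN l a := by unfold NN; positivity

lemma K_sum (l a : ℕ) (y : Torus) : ∑ i ∈ G l a, ‖K l a (pt l a i - y)‖ ≤ 16 * NN l a := by
  unfold G K pt
  rw [Finset.sum_product]
  simp only [Prod.fst_sub, Prod.snd_sub, norm_mul]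
  rw [← Finset.sum_mul_sum]
  calc _ ≤ (4 * ((4 * 2 ^ a : ℕ) : ℝ)) * (4 * ((4 * 2 ^ (l - a) : ℕ) : ℝ)) := by
        gcongr
        · exact kap_sum a y.1
        · exact kap_sum (l - a) y.2
    _ = _ := by unfold NN; ring

lemma expo_add_point (k : ℤ × ℤ) (x y : Torus) : expo k (x + y) = expo k x * expo k y := by
  simp only [expo, Prod.fst_add, Prod.snd_add, fourier_add_point]; ring

lemma expo_neg_point (k : ℤ × ℤ) (x : Torus) : expo k (-x) = expo (-k) x := by
  simp only [expo, Prod.fst_neg, Prod.snd_neg, fourier_neg_point]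

lemma expo_sub_point (k : ℤ × ℤ) (x y : Torus) : expo k (x - y) = expo k x * expo (-k) y := by
  rw [sub_eq_add_neg, expo_add_point, expo_neg_point]

/-- The sampling functionals. -/
noncomputable def lam (l : ℕ) (c : ℤ × ℤ → ℂ) (a : ℕ) (i : ℕ × ℕ) : ℂ :=
  (1 / (NN l a : ℂ)) * ∑ k ∈ Q l, c k * (ahat l a k : ℂ) * expo k (pt l a i)

lemma sum_expo_pt (l a : ℕ) (k : ℤ × ℤ) : ∑ i ∈ G l a, expo k (pt l a i) =
    if ((4 * 2 ^ a : ℕ) : ℤ) ∣ k.1 ∧ ((4 * 2 ^ (l - a) : ℕ) : ℤ) ∣ k.2 then (NN l a : ℂ) else 0 := by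
  unfold G expo pt
  rw [Finset.sum_product]
  simp only
  rw [← Finset.sum_mul_sum, sum_fourier_gp _ (by positivity), sum_fourier_gp _ (by positivity)]
  by_cases h1 : ((4 * 2 ^ a : ℕ) : ℤ) ∣ k.1 <;> by_cases h2 : ((4 * 2 ^ (l - a) : ℕ) : ℤ) ∣ k.2
  · simp only [h1, h2, and_self, if_true, NN]; push_cast; ring
  · simp only [h1, h2, and_false, if_true, if_false, mul_zero]
  · simp only [h1, h2, false_and, if_true, if_false, zero_mul]
  · simp only [h1, h2, false_and, if_false, zero_mul]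

/-- Reconstruction of the coefficients from the samples. -/
lemma recon (l : ℕ) (c : ℤ × ℤ → ℂ) (a : ℕ) (ha : a ≤ l) (k : ℤ × ℤ) (hk : k ∈ block (a, l - a)) :
    ∑ i ∈ G l a, lam l c a i * expo (-k) (pt l a i) = c k := by
  have hN : (NN l a : ℂ) ≠ 0 := by exact_mod_cast (NN_pos l a).ne'
  unfold lam
  have h1 : ∀ i, (1 / (NN l a : ℂ)) * (∑ m ∈ Q l, c m * (ahat l a m : ℂ) * expo m (pt l a i)) *
      expo (-k) (pt l a i) =
      (1 / (NN l a : ℂ)) * ∑ m ∈ Q l, c m * (ahat l a m : ℂ) * expo (m - k) (pt l a i) := by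
    intro i
    rw [mul_assoc, Finset.sum_mul]
    congr 1
    refine Finset.sum_congr rfl fun m _ => ?_
    rw [sub_eq_add_neg, expo_add]; ring
  simp only [h1]
  rw [← Finset.mul_sum, Finset.sum_comm]
  simp only [← Finset.mul_sum, sum_expo_pt]
  have hkQ : k ∈ Q l := mem_Q.2 ⟨a, ha, hk⟩
  rw [Finset.sum_eq_single k]
  · simp only [sub_self, Prod.fst_zero, Prod.snd_zero, dvd_zero, and_self, if_true]
    rw [ahat_one hk]
    push_cast
    field_simp
  · intro m _ hmk
    by_cases hm : m ∈ ZZ l a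
    · rw [if_neg, mul_zero]
      rintro ⟨h2, h3⟩
      apply hmk
      rw [ZZ, Finset.mem_product] at hm
      rw [block, Finset.mem_product] at hk
      have e1 := Z_lt hm.1
      have e2 := Z_lt hm.2
      have e3 := (mem_block1.1 hk.1).1
      have e4 := (mem_block1.1 hk.2).1
      simp only at e3 e4
      have f1 : |m.1 - k.1| < ((4 * 2 ^ a : ℕ) : ℤ) := by
        have := abs_sub m.1 k.1
        push_cast
        rw [pow_succ] at e1
        have hp : (0 : ℤ) < 2 ^ a := by positivity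
        omega
      have f2 : |m.2 - k.2| < ((4 * 2 ^ (l - a) : ℕ) : ℤ) := by
        have := abs_sub m.2 k.2
        push_cast
        rw [pow_succ] at e2
        have hp : (0 : ℤ) < 2 ^ (l - a) := by positivity
        omega
      have g1 := Int.eq_zero_of_abs_lt_dvd h2 f1
      have g2 := Int.eq_zero_of_abs_lt_dvd h3 f2
      simp only [Prod.fst_sub, Prod.snd_sub] at g1 g2
      ext
      · omega
      · omega
    · rw [ahat_zero hm]; simp
  · intro h; exact absurd hkQ h

/-- Test functions built from signs at the grid points. -/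
noncomputable def T (l : ℕ) (ε : ℕ → ℕ × ℕ → ℝ) (a : ℕ) (y : Torus) : ℂ :=
  (1 / (NN l a : ℂ)) * ∑ i ∈ G l a, (ε a i : ℂ) * K l a (pt l a i - y)

lemma T_im (l : ℕ) (ε : ℕ → ℕ × ℕ → ℝ) (a : ℕ) (y : Torus) : (T l ε a y).im = 0 := by
  rw [← Complex.conj_eq_iff_im]
  unfold T
  rw [map_mul, map_sum, map_div₀, map_one, Complex.conj_ofReal]
  congr 1
  refine Finset.sum_congr rfl fun i _ => ?_
  rw [map_mul, Complex.conj_ofReal, Complex.conj_eq_iff_im.2 (K_im _ _ _)]

lemma norm_T_le (l : ℕ) (ε : ℕ → ℕ × ℕ → ℝ) (hε : ∀ a i, |ε a i| ≤ 1) (a : ℕ) (y : Torus) :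
    ‖T l ε a y‖ ≤ 16 := by
  unfold T
  have hN := NN_pos l a
  rw [norm_mul, norm_div, norm_one, Complex.norm_real, Real.norm_eq_abs, abs_of_pos hN]
  calc (1 / NN l a) * ‖∑ i ∈ G l a, (ε a i : ℂ) * K l a (pt l a i - y)‖
      ≤ (1 / NN l a) * ∑ i ∈ G l a, ‖K l a (pt l a i - y)‖ := by
        gcongr
        refine (norm_sum_le _ _).trans (Finset.sum_le_sum fun i _ => ?_)
        rw [norm_mul, Complex.norm_real, Real.norm_eq_abs]
        have := hε a i
        have h2 := norm_nonneg (K l a (pt l a i - y))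
        nlinarith
    _ ≤ (1 / NN l a) * (16 * NN l a) := by
        gcongr
        exact K_sum l a y
    _ = 16 := by field_simp

lemma continuous_T (l : ℕ) (ε : ℕ → ℕ × ℕ → ℝ) (a : ℕ) : Continuous (T l ε a) := by
  unfold T
  simp only [K_eq]
  refine continuous_const.mul (continuous_finsetSum _ fun i _ => continuous_const.mul
    (continuous_finsetSum _ fun m _ => continuous_const.mul ?_))
  exact (continuous_expo m).comp (continuous_const.sub continuous_id)

/-- Pairing of a trigonometric polynomial with a test function. -/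
lemma integral_mul_T (l : ℕ) (c : ℤ × ℤ → ℂ) (ε : ℕ → ℕ × ℕ → ℝ) (a : ℕ) :
    ∫ y, P (Q l) c y * T l ε a y ∂torusMeasure = ∑ i ∈ G l a, (ε a i : ℂ) * lam l c a i := by
  have hK : ∀ x : Torus, ∀ k : ℤ × ℤ, ∫ y, expo k y * K l a (x - y) ∂torusMeasure =
      (ahat l a k : ℂ) * expo k x := by
    intro x k
    have h1 : ∀ y, expo k y * K l a (x - y) =
        ∑ m ∈ ZZ l a, (ahat l a m : ℂ) * expo m x * expo (k - m) y := by
      intro y
      rw [K_eq, Finset.mul_sum]
      refine Finset.sum_congr rfl fun m _ => ?_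
      rw [expo_sub_point, sub_eq_add_neg, expo_add]; ring
    simp only [h1]
    rw [integral_finsetSum]
    · simp only [integral_const_mul, integral_expo, sub_eq_zero]
      simp only [mul_ite, mul_one, mul_zero]
      rw [Finset.sum_ite_eq]
      split_ifs with h
      · rfl
      · rw [ahat_zero h]; simp
    · intro m _
      exact integrable_of_continuous (continuous_const.mul (continuous_expo _))
  have hcK : ∀ x : Torus, Continuous fun y => K l a (x - y) := by
    intro x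
    simp only [K_eq]
    exact continuous_finsetSum _ fun m _ => continuous_const.mul
      ((continuous_expo m).comp (continuous_const.sub continuous_id))
  have h2 : ∀ y, P (Q l) c y * T l ε a y =
      ∑ i ∈ G l a, ∑ k ∈ Q l, ((ε a i : ℂ) * ((1 / (NN l a : ℂ)) * c k)) *
        (expo k y * K l a (pt l a i - y)) := by
    intro y
    unfold P T
    rw [Finset.sum_mul, Finset.sum_comm]
    refine Finset.sum_congr rfl fun k _ => ?_
    rw [Finset.mul_sum, Finset.mul_sum]
    refine Finset.sum_congr rfl fun i _ => ?_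
    ring
  simp only [h2]
  rw [integral_finsetSum]
  · refine Finset.sum_congr rfl fun i _ => ?_
    rw [integral_finsetSum]
    · simp only [integral_const_mul, hK]
      unfold lam
      rw [Finset.mul_sum, Finset.mul_sum]
      refine Finset.sum_congr rfl fun k _ => ?_
      ring
    · intro k _
      exact integrable_of_continuous (continuous_const.mul ((continuous_expo k).mul (hcK _)))
  · intro i _
    exact integrable_of_continuous (continuous_finsetSum _ fun k _ =>
      continuous_const.mul ((continuous_expo k).mul (hcK _)))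

/-! ### Spectra -/

/-- functions with spectrum in `S` -/
noncomputable def Sp (S : Set (ℤ × ℤ)) : Submodule ℂ (Torus → ℂ) := Submodule.span ℂ (expo '' S)

lemma T_mem_Sp (l : ℕ) (ε : ℕ → ℕ × ℕ → ℝ) (a : ℕ) : T l ε a ∈ Sp {m | -m ∈ ZZ l a} := by
  have h1 : T l ε a = ∑ m ∈ ZZ l a, ((1 / (NN l a : ℂ)) *
      ∑ i ∈ G l a, (ε a i : ℂ) * ((ahat l a m : ℂ) * expo m (pt l a i))) • expo (-m) := by
    ext y
    unfold T
    simp only [K_eq, expo_sub_point, Finset.sum_apply, Pi.smul_apply, smul_eq_mul, Finset.mul_sum,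
      Finset.sum_mul]
    rw [Finset.sum_comm]
    refine Finset.sum_congr rfl fun m _ => Finset.sum_congr rfl fun i _ => ?_
    ring
  rw [h1]
  refine Submodule.sum_mem _ fun m hm => Submodule.smul_mem _ _ (Submodule.subset_span ⟨-m, ?_, rfl⟩)
  simpa using hm

lemma mul_mem_Sp {S S' S'' : Set (ℤ × ℤ)} (h : ∀ m ∈ S, ∀ n ∈ S', m + n ∈ S'') {f g : Torus → ℂ}
    (hf : f ∈ Sp S) (hg : g ∈ Sp S') : f * g ∈ Sp S'' := by
  unfold Sp at *
  induction hf using Submodule.span_induction with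
  | mem x hx =>
    obtain ⟨m, hm, rfl⟩ := hx
    induction hg using Submodule.span_induction with
    | mem z hz =>
      obtain ⟨n, hn, rfl⟩ := hz
      refine Submodule.subset_span ⟨m + n, h m hm n hn, ?_⟩
      ext y; simp [expo_add]
    | zero => simp
    | add u v _ _ hu hv => rw [mul_add]; exact Submodule.add_mem _ hu hv
    | smul r u _ hu => rw [mul_smul_comm]; exact Submodule.smul_mem _ _ hu
  | zero => simp
  | add u v _ _ hu hv => rw [add_mul]; exact Submodule.add_mem _ hu hv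
  | smul r u _ hu => rw [smul_mul_assoc]; exact Submodule.smul_mem _ _ hu

lemma prod_mem_Sp (A : Finset ℕ) (S : ℕ → Set (ℤ × ℤ)) (f : ℕ → Torus → ℂ)
    (hf : ∀ a ∈ A, f a ∈ Sp (S a)) :
    (∏ a ∈ A, f a) ∈ Sp {m | ∃ g : ℕ → ℤ × ℤ, (∀ a ∈ A, g a ∈ S a) ∧ m = ∑ a ∈ A, g a} := by
  classical
  induction A using Finset.induction_on with
  | empty =>
    refine Submodule.subset_span ⟨0, ⟨fun _ => 0, by simp, by simp⟩, ?_⟩
    ext y; simp
  | insert a A ha ih =>
    rw [Finset.prod_insert ha]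
    refine mul_mem_Sp ?_ (hf a (Finset.mem_insert_self _ _))
      (ih fun b hb => hf b (Finset.mem_insert_of_mem hb))
    rintro m hm n ⟨g, hg1, rfl⟩
    refine ⟨Function.update g a m, ?_, ?_⟩
    · intro b hb
      rcases Finset.mem_insert.1 hb with hb' | hb'
      · subst hb'; simpa using hm
      · have : b ≠ a := by rintro rfl; exact ha hb'
        rw [Function.update_of_ne this]; exact hg1 b hb'
    · rw [Finset.sum_insert ha]
      simp only [Function.update_self]
      congr 1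
      refine Finset.sum_congr rfl fun b hb => ?_
      have : b ≠ a := by rintro rfl; exact ha hb
      rw [Function.update_of_ne this]

lemma integral_P_mul_eq_zero {Q' : Finset (ℤ × ℤ)} {c : ℤ × ℤ → ℂ} {S : Set (ℤ × ℤ)}
    (h : ∀ m ∈ S, -m ∉ Q') {g : Torus → ℂ} (hg : g ∈ Sp S) :
    ∫ y, P Q' c y * g y ∂torusMeasure = 0 := by
  suffices Continuous g ∧ ∫ y, P Q' c y * g y ∂torusMeasure = 0 from this.2
  unfold Sp at hg
  induction hg using Submodule.span_induction with
  | mem x hx =>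
    obtain ⟨m, hm, rfl⟩ := hx
    refine ⟨continuous_expo m, ?_⟩
    have := coeff_P Q' c (-m)
    rw [if_neg (h m hm)] at this
    unfold coeff at this
    rwa [neg_neg] at this
  | zero => exact ⟨continuous_const, by simp⟩
  | add u v _ _ hu hv =>
    refine ⟨hu.1.add hv.1, ?_⟩
    simp only [Pi.add_apply, mul_add]
    have e1 : Integrable (fun y => P Q' c y * u y) torusMeasure :=
      integrable_of_continuous ((continuous_P _ _).mul hu.1)
    have e2 : Integrable (fun y => P Q' c y * v y) torusMeasure :=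
      integrable_of_continuous ((continuous_P _ _).mul hv.1)
    rw [integral_add e1 e2, hu.2, hv.2, add_zero]
  | smul r u _ hu =>
    refine ⟨hu.1.const_smul r, ?_⟩
    simp only [Pi.smul_apply, smul_eq_mul]
    have : ∀ y, P Q' c y * (r * u y) = r * (P Q' c y * u y) := fun y => by ring
    simp only [this]
    rw [integral_const_mul, hu.2, mul_zero]

end Pool.Agent.Lib.MP_629918_an

end

section

/-!
# The Riesz product inequality: conclusion
-/


open MeasureTheory

namespace Pool.Agent.Lib.MP_629918_an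

/-- One-dimensional dominance: the largest frequency dominates the sum. -/
lemma dominance (A : Finset ℕ) (S : ℕ) (hS : S ∈ A) (hS6 : 6 ≤ S) (hA : ∀ a ∈ A, a ≠ S → a + 6 ≤ S)
    (g : ℕ → ℤ) (hg : ∀ a ∈ A, g a ∈ Z a) : (2 : ℤ) ^ S < 8 * |∑ a ∈ A, g a| := by
  have h1 : 2 ^ S < 4 * |g S| := ((mem_Z (by omega)).1 (hg S hS)).2
  have h2 : |∑ a ∈ A.erase S, g a| ≤ ∑ a ∈ Finset.range (S - 5), (2 : ℤ) ^ (a + 1) := by
    refine (Finset.abs_sum_le_sum_abs _ _).trans ?_
    calc ∑ a ∈ A.erase S, |g a| ≤ ∑ a ∈ A.erase S, (2 : ℤ) ^ (a + 1) := by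
          refine Finset.sum_le_sum fun a ha => ?_
          exact (Z_lt (hg a (Finset.mem_of_mem_erase ha))).le
      _ ≤ ∑ a ∈ Finset.range (S - 5), (2 : ℤ) ^ (a + 1) := by
          refine Finset.sum_le_sum_of_subset_of_nonneg ?_ (fun _ _ _ => by positivity)
          intro a ha
          rw [Finset.mem_erase] at ha
          have := hA a ha.2 ha.1
          rw [Finset.mem_range]; omega
  have h3 : ∀ n : ℕ, ∑ a ∈ Finset.range n, (2 : ℤ) ^ (a + 1) = 2 ^ (n + 1) - 2 := by
    intro n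
    induction n with
    | zero => simp
    | succ n ih => rw [Finset.sum_range_succ, ih]; ring
  rw [h3] at h2
  have h4 : (2 : ℤ) ^ S = 16 * 2 ^ (S - 5 + 1) := by
    have : S = 4 + (S - 5 + 1) := by omega
    conv_lhs => rw [this, pow_add]
    norm_num
  have h5 : ∑ a ∈ A, g a = g S + ∑ a ∈ A.erase S, g a := (Finset.add_sum_erase A g hS).symm
  rw [h5]
  have h6 : |g S| ≤ |g S + ∑ a ∈ A.erase S, g a| + |∑ a ∈ A.erase S, g a| := by
    have := abs_sub (g S + ∑ a ∈ A.erase S, g a) (∑ a ∈ A.erase S, g a)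
    rwa [add_sub_cancel_right] at this
  have hp : (0 : ℤ) < 2 ^ (S - 5) := by positivity
  rw [pow_succ] at h4 h2
  omega

lemma Z_neg {j : ℕ} {k : ℤ} : -k ∈ Z j ↔ k ∈ Z j := by
  by_cases hj : j = 0
  · subst hj; rw [mem_Z_zero, mem_Z_zero]; omega
  · rw [mem_Z hj, mem_Z hj, abs_neg]

lemma spectrum_avoids (l r : ℕ) (A : Finset ℕ) (hA : ∀ a ∈ A, a ≤ l ∧ a % 6 = r) (h2 : 2 ≤ A.card)
    (m : ℤ × ℤ) (hm : ∃ g : ℕ → ℤ × ℤ, (∀ a ∈ A, -(g a) ∈ ZZ l a) ∧ m = ∑ a ∈ A, g a) :
    -m ∉ Q l := by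
  obtain ⟨g, hg, rfl⟩ := hm
  intro hQ
  rw [mem_Q] at hQ
  obtain ⟨s, hs, hk⟩ := hQ
  rw [block, Finset.mem_product] at hk
  have hk1 := (mem_block1.1 hk.1).1
  have hk2 := (mem_block1.1 hk.2).1
  simp only [Prod.fst_neg, Prod.snd_neg, abs_neg] at hk1 hk2
  have hne : A.Nonempty := Finset.card_pos.1 (by omega)
  set S := A.max' hne with hSdef
  set σ := A.min' hne with hσdef
  have hSA : S ∈ A := A.max'_mem hne
  have hσA : σ ∈ A := A.min'_mem hne
  have hσS : σ < S := A.min'_lt_max'_of_card (by omega)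
  have hgap : ∀ a ∈ A, ∀ b ∈ A, a < b → a + 6 ≤ b := by
    intro a ha b hb hab
    have h1 := (hA a ha).2
    have h2 := (hA b hb).2
    omega
  have hσS6 : σ + 6 ≤ S := hgap σ hσA S hSA hσS
  have hSl := (hA S hSA).1
  -- first coordinate
  have d1 := dominance A S hSA (by omega) (by
    intro a ha hne'
    have := A.le_max' a ha
    exact hgap a ha S hSA (lt_of_le_of_ne this hne')) (fun a => (g a).1) (by
    intro a ha
    have := hg a ha
    rw [ZZ, Finset.mem_product] at this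
    exact Z_neg.1 this.1)
  -- second coordinate
  have hinj : Set.InjOn (fun a => l - a) (A : Set ℕ) := by
    intro a ha b hb hab
    have h1 := (hA a ha).1
    have h2 := (hA b hb).1
    simp only at hab
    omega
  have d2 := dominance (A.image fun a => l - a) (l - σ) (Finset.mem_image_of_mem _ hσA) (by omega) (by
    intro b hb hne'
    rw [Finset.mem_image] at hb
    obtain ⟨a, ha, rfl⟩ := hb
    have h1 := A.min'_le a ha
    have h3 : σ ≠ a := by rintro rfl; exact hne' rfl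
    have := hgap σ hσA a ha (lt_of_le_of_ne h1 h3)
    have := (hA a ha).1
    omega) (fun b => (g (l - b)).2) (by
    intro b hb
    rw [Finset.mem_image] at hb
    obtain ⟨a, ha, rfl⟩ := hb
    have hal := (hA a ha).1
    have := hg a ha
    rw [ZZ, Finset.mem_product] at this
    have e : l - (l - a) = a := by omega
    simp only [e]
    exact Z_neg.1 this.2)
  rw [Finset.sum_image hinj] at d2
  have e2 : ∑ a ∈ A, (g (l - (l - a))).2 = ∑ a ∈ A, (g a).2 := by
    refine Finset.sum_congr rfl fun a ha => ?_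
    have hal := (hA a ha).1
    have e : l - (l - a) = a := by omega
    rw [e]
  rw [e2] at d2
  rw [Prod.fst_sum] at hk1
  rw [Prod.snd_sum] at hk2
  have f1 : (2 : ℤ) ^ S < 2 ^ (s + 3) := by rw [pow_add]; norm_num; omega
  have f2 : (2 : ℤ) ^ (l - σ) < 2 ^ (l - s + 3) := by rw [pow_add]; norm_num; omega
  have g1 := (pow_lt_pow_iff_right₀ (by norm_num : (1 : ℤ) < 2)).1 f1
  have g2 := (pow_lt_pow_iff_right₀ (by norm_num : (1 : ℤ) < 2)).1 f2
  omega

/-- The Riesz product bound for a residue class. -/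
lemma riesz_class (l r : ℕ) (c : ℤ × ℤ → ℂ) (ε : ℕ → ℕ × ℕ → ℝ) (hε : ∀ a i, |ε a i| ≤ 1) :
    ‖∑ a ∈ (Finset.range (l + 1)).filter (fun a => a % 6 = r),
      ∫ y, P (Q l) c y * T l ε a y ∂torusMeasure‖ ≤
      48 * Real.sqrt (l + 1) * ∫ y, ‖P (Q l) c y‖ ∂torusMeasure := by
  classical
  set S := (Finset.range (l + 1)).filter (fun a => a % 6 = r) with hS
  set F := P (Q l) c with hF
  have hFc : Continuous F := continuous_P _ _
  set L : ℝ := Real.sqrt (l + 1) with hL
  have hL0 : 0 < L := Real.sqrt_pos.2 (by positivity)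
  have hL2 : L ^ 2 = l + 1 := Real.sq_sqrt (by positivity)
  set η : ℝ := 1 / (16 * L) with hη
  have hη0 : 0 < η := by positivity
  set t : ℕ → Torus → ℂ := fun a y => (Complex.I * η) * T l ε a y with ht
  have htc : ∀ a, Continuous (t a) := fun a => continuous_const.mul (continuous_T l ε a)
  set g : Finset ℕ → ℂ := fun A => ∫ y, F y * ∏ a ∈ A, t a y ∂torusMeasure with hg
  -- expansion
  have hexp : ∫ y, F y * ∏ a ∈ S, (1 + t a y) ∂torusMeasure = ∑ A ∈ S.powerset, g A := by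
    have h1 : ∀ y, F y * ∏ a ∈ S, (1 + t a y) = ∑ A ∈ S.powerset, F y * ∏ a ∈ A, t a y := by
      intro y
      rw [Finset.prod_one_add, Finset.mul_sum]
    simp only [h1]
    rw [integral_finsetSum]
    intro A _
    exact integrable_of_continuous (hFc.mul (continuous_finsetProd _ fun a _ => htc a))
  -- vanishing of higher products
  have hvan : ∀ A ∈ S.powerset, 2 ≤ A.card → g A = 0 := by
    intro A hA h2
    rw [Finset.mem_powerset] at hA
    have hT : (∏ a ∈ A, T l ε a) ∈ Sp {m | ∃ g : ℕ → ℤ × ℤ, (∀ a ∈ A, g a ∈ {m | -m ∈ ZZ l a}) ∧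
        m = ∑ a ∈ A, g a} := prod_mem_Sp A _ _ (fun a _ => T_mem_Sp l ε a)
    have h3 := integral_P_mul_eq_zero (Q' := Q l) (c := c) (fun m hm => by
      refine spectrum_avoids l r A ?_ h2 m hm
      intro a ha
      have := hA ha
      rw [hS, Finset.mem_filter, Finset.mem_range] at this
      exact ⟨by omega, this.2⟩) hT
    have h4 : ∀ y, F y * ∏ a ∈ A, t a y =
        (∏ _a ∈ A, Complex.I * (η : ℂ)) * (P (Q l) c y * (∏ a ∈ A, T l ε a) y) := by
      intro y
      simp only [ht]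
      rw [Finset.prod_mul_distrib, Finset.prod_apply, hF]; ring
    simp only [hg, h4]
    rw [integral_const_mul, h3, mul_zero]
  have hsum : ∑ A ∈ S.powerset, g A = g ∅ + ∑ a ∈ S, g {a} := by
    have hsub : insert ∅ (S.image fun a => ({a} : Finset ℕ)) ⊆ S.powerset := by
      intro A hA
      rw [Finset.mem_insert, Finset.mem_image] at hA
      rcases hA with rfl | ⟨a, ha, rfl⟩
      · simp
      · simpa using ha
    rw [← Finset.sum_subset hsub, Finset.sum_insert, Finset.sum_image]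
    · intro a _ b _ hab
      simpa using hab
    · simp
    · intro A hA hA'
      apply hvan A hA
      by_contra hlt
      apply hA'
      rw [Finset.mem_insert, Finset.mem_image]
      have : A.card = 0 ∨ A.card = 1 := by omega
      rcases this with h | h
      · left; exact Finset.card_eq_zero.1 h
      · right
        obtain ⟨a, rfl⟩ := Finset.card_eq_one.1 h
        exact ⟨a, by simpa using hA, rfl⟩
  -- size of the Riesz product
  have hΨ : ∀ y, ‖∏ a ∈ S, (1 + t a y)‖ ≤ 2 := by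
    intro y
    have h1 : ∀ a, ‖1 + t a y‖ ^ 2 ≤ Real.exp (1 / (l + 1)) := by
      intro a
      have him := T_im l ε a y
      have hn := norm_T_le l ε hε a y
      have hT : T l ε a y = (((T l ε a y).re : ℝ) : ℂ) := by
        apply Complex.ext <;> simp [him]
      rw [hT, Complex.norm_real, Real.norm_eq_abs] at hn
      have h2 : ‖1 + t a y‖ ^ 2 = 1 + (η * (T l ε a y).re) ^ 2 := by
        simp only [ht]
        rw [hT, ← Complex.normSq_eq_norm_sq, Complex.normSq_apply]
        simp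
        ring
      rw [h2]
      have h3 : (η * (T l ε a y).re) ^ 2 ≤ 1 / (l + 1) := by
        have : (T l ε a y).re ^ 2 ≤ 16 ^ 2 := by
          rw [← sq_abs]
          exact pow_le_pow_left₀ (abs_nonneg _) hn 2
        rw [mul_pow, hη, div_pow, one_pow, mul_pow, hL2]
        calc 1 / (16 ^ 2 * ((l : ℝ) + 1)) * (T l ε a y).re ^ 2
            ≤ 1 / (16 ^ 2 * ((l : ℝ) + 1)) * 16 ^ 2 := by gcongr
          _ = 1 / ((l : ℝ) + 1) := by field_simp
      calc 1 + (η * (T l ε a y).re) ^ 2 ≤ 1 / (l + 1) + 1 := by linarith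
        _ ≤ _ := Real.add_one_le_exp _
    have h2 : ‖∏ a ∈ S, (1 + t a y)‖ ^ 2 ≤ 4 := by
      rw [norm_prod, ← Finset.prod_pow]
      calc ∏ a ∈ S, ‖1 + t a y‖ ^ 2 ≤ ∏ _a ∈ S, Real.exp (1 / (l + 1)) :=
            Finset.prod_le_prod (fun _ _ => by positivity) (fun a _ => h1 a)
        _ = Real.exp (S.card * (1 / (l + 1))) := by
            rw [Finset.prod_const, ← Real.exp_nat_mul]
        _ ≤ Real.exp 1 := by
            apply Real.exp_le_exp.2
            have : (S.card : ℝ) ≤ l + 1 := by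
              have h := Finset.card_filter_le (Finset.range (l + 1)) (fun a => a % 6 = r)
              rw [Finset.card_range] at h
              exact_mod_cast h
            rw [mul_one_div, div_le_one (by positivity)]
            exact this
        _ ≤ 4 := by have := Real.exp_one_lt_d9; linarith
    have : ‖∏ a ∈ S, (1 + t a y)‖ ^ 2 ≤ 2 ^ 2 := h2.trans (by norm_num)
    exact le_of_sq_le_sq this (by norm_num)
  have hI : ‖∫ y, F y * ∏ a ∈ S, (1 + t a y) ∂torusMeasure‖ ≤ 2 * ∫ y, ‖F y‖ ∂torusMeasure := by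
    rw [← integral_const_mul]
    refine norm_integral_le_of_norm_le (integrable_of_continuous (continuous_const.mul hFc.norm)) ?_
    refine Filter.Eventually.of_forall fun y => ?_
    rw [norm_mul, mul_comm]
    gcongr
    exact hΨ y
  have hg0 : ‖g ∅‖ ≤ ∫ y, ‖F y‖ ∂torusMeasure := by
    simp only [hg, Finset.prod_empty, mul_one]
    exact norm_integral_le_integral_norm _
  have hg1 : ∑ a ∈ S, g {a} = (Complex.I * η) * ∑ a ∈ S, ∫ y, F y * T l ε a y ∂torusMeasure := by
    rw [Finset.mul_sum]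
    refine Finset.sum_congr rfl fun a _ => ?_
    simp only [hg, Finset.prod_singleton, ht]
    rw [← integral_const_mul]
    congr 1; ext y; ring
  rw [hexp, hsum, hg1] at hI
  have h5 : ‖(Complex.I * η) * ∑ a ∈ S, ∫ y, F y * T l ε a y ∂torusMeasure‖ ≤
      3 * ∫ y, ‖F y‖ ∂torusMeasure := by
    have := norm_sub_le (g ∅ + (Complex.I * η) * ∑ a ∈ S, ∫ y, F y * T l ε a y ∂torusMeasure) (g ∅)
    rw [add_sub_cancel_left] at this
    linarith
  rw [norm_mul, norm_mul, Complex.norm_I, one_mul, Complex.norm_real, Real.norm_eq_abs,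
    abs_of_pos hη0] at h5
  have h6 : ‖∑ a ∈ S, ∫ y, F y * T l ε a y ∂torusMeasure‖ =
      (16 * L) * (η * ‖∑ a ∈ S, ∫ y, F y * T l ε a y ∂torusMeasure‖) := by
    rw [hη]; field_simp
  rw [h6]
  calc (16 * L) * (η * ‖∑ a ∈ S, ∫ y, F y * T l ε a y ∂torusMeasure‖)
      ≤ (16 * L) * (3 * ∫ y, ‖F y‖ ∂torusMeasure) := by gcongr
    _ = _ := by ring

/-- The main inequality: the sampling coefficients have l1 norm `≤ C √(l+1) ‖f‖₁`. -/
theorem sum_norm_lam_le (l : ℕ) (c : ℤ × ℤ → ℂ) :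
    ∑ a ∈ Finset.range (l + 1), ∑ i ∈ G l a, ‖lam l c a i‖ ≤
      576 * Real.sqrt (l + 1) * ∫ y, ‖P (Q l) c y‖ ∂torusMeasure := by
  classical
  have key : ∀ φ : ℂ → ℝ, ∀ ε : ℕ → ℕ × ℕ → ℝ, (∀ a i, |ε a i| ≤ 1) →
      (∀ z : ℂ, |φ z| ≤ ‖z‖) → (∀ (s : Finset ℕ) (f : ℕ → ℂ), φ (∑ a ∈ s, f a) = ∑ a ∈ s, φ (f a)) →
      (∀ a, φ (∑ i ∈ G l a, (ε a i : ℂ) * lam l c a i) = ∑ i ∈ G l a, |φ (lam l c a i)|) →
      ∑ a ∈ Finset.range (l + 1), ∑ i ∈ G l a, |φ (lam l c a i)| ≤
        288 * Real.sqrt (l + 1) * ∫ y, ‖P (Q l) c y‖ ∂torusMeasure := by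
    intro φ ε hε hφ hadd heq
    rw [← Finset.sum_fiberwise_of_maps_to (g := fun a => a % 6) (t := Finset.range 6)
      (fun a _ => Finset.mem_range.2 (Nat.mod_lt _ (by norm_num)))]
    calc ∑ r ∈ Finset.range 6, ∑ a ∈ (Finset.range (l + 1)).filter (fun a => a % 6 = r),
          ∑ i ∈ G l a, |φ (lam l c a i)|
        ≤ ∑ r ∈ Finset.range 6, 48 * Real.sqrt (l + 1) * ∫ y, ‖P (Q l) c y‖ ∂torusMeasure := by
          refine Finset.sum_le_sum fun r _ => ?_
          refine le_trans ?_ (riesz_class l r c ε hε)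
          refine le_trans ?_ (hφ _)
          refine le_trans (le_of_eq ?_) (le_abs_self _)
          rw [hadd]
          refine Finset.sum_congr rfl fun a _ => ?_
          rw [integral_mul_T, heq]
      _ = _ := by rw [Finset.sum_const, Finset.card_range]; simp; ring
  have hsgn : ∀ x : ℝ, |(SignType.sign x : ℝ)| ≤ 1 := by
    intro x
    rcases lt_trichotomy x 0 with h | h | h
    · simp [sign_neg h]
    · simp [h]
    · simp [sign_pos h]
  have hre := key Complex.re (fun a i => (SignType.sign (lam l c a i).re : ℝ)) (fun a i => hsgn _)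
    Complex.abs_re_le_norm (fun s f => by rw [Complex.re_sum]) (by
      intro a
      rw [Complex.re_sum]
      refine Finset.sum_congr rfl fun i _ => ?_
      rw [Complex.re_ofReal_mul, sign_mul_self])
  have him := key Complex.im (fun a i => (SignType.sign (lam l c a i).im : ℝ)) (fun a i => hsgn _)
    Complex.abs_im_le_norm (fun s f => by rw [Complex.im_sum]) (by
      intro a
      rw [Complex.im_sum]
      refine Finset.sum_congr rfl fun i _ => ?_
      rw [Complex.im_ofReal_mul, sign_mul_self])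
  calc ∑ a ∈ Finset.range (l + 1), ∑ i ∈ G l a, ‖lam l c a i‖
      ≤ ∑ a ∈ Finset.range (l + 1), ∑ i ∈ G l a, (|(lam l c a i).re| + |(lam l c a i).im|) := by
        refine Finset.sum_le_sum fun a _ => Finset.sum_le_sum fun i _ => ?_
        exact Complex.norm_le_abs_re_add_abs_im _
    _ = ∑ a ∈ Finset.range (l + 1), ∑ i ∈ G l a, |(lam l c a i).re| +
        ∑ a ∈ Finset.range (l + 1), ∑ i ∈ G l a, |(lam l c a i).im| := by
        simp only [Finset.sum_add_distrib]
    _ ≤ _ := by linarith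

end Pool.Agent.Lib.MP_629918_an

end

section

/-!
# Covering a hyperbolic layer in `L²` by Maurey's method
-/


open MeasureTheory

namespace Pool.Agent.Lib.MP_629918_an

lemma card_block1 (j : ℕ) : (block1 j).card = 2 ^ j := by
  rcases Nat.eq_zero_or_pos j with rfl | hj
  · have : block1 0 = {0} := by ext k; rw [mem_block1_zero, Finset.mem_singleton]
    rw [this]; simp
  · obtain ⟨i, rfl⟩ := Nat.exists_eq_add_of_le hj
    have h2 : (2 : ℤ) ^ (1 + i) = 2 * 2 ^ i := by rw [pow_add]; norm_num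
    have hp : (0 : ℤ) < 2 ^ i := by positivity
    have : block1 (1 + i) = Finset.Ico (2 ^ i) (2 * 2 ^ i) ∪ Finset.Ioc (-(2 * 2 ^ i)) (-2 ^ i) := by
      ext k
      rw [mem_block1, h2, Finset.mem_union, Finset.mem_Ico, Finset.mem_Ioc]
      rcases abs_cases k with ⟨h1, h3⟩ | ⟨h1, h3⟩ <;> omega
    have hdisj : Disjoint (Finset.Ico ((2 : ℤ) ^ i) (2 * 2 ^ i)) (Finset.Ioc (-(2 * 2 ^ i)) (-2 ^ i)) := by
      rw [Finset.disjoint_left]
      intro k hk hk'
      rw [Finset.mem_Ico] at hk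
      rw [Finset.mem_Ioc] at hk'
      omega
    rw [this, Finset.card_union_of_disjoint hdisj, Int.card_Ico, Int.card_Ioc, pow_add]
    have : ((2 : ℤ) ^ i).toNat = 2 ^ i := by
      have : (2 : ℤ) ^ i = ((2 ^ i : ℕ) : ℤ) := by push_cast; rfl
      rw [this, Int.toNat_natCast]
    have e1 : (2 * (2 : ℤ) ^ i - 2 ^ i).toNat = 2 ^ i := by
      rw [← this]; congr 1; ring
    have e2 : (-(2 : ℤ) ^ i - -(2 * 2 ^ i)).toNat = 2 ^ i := by
      rw [← this]; congr 1; ring
    rw [e1, e2]; ring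

lemma block1_unique {a b : ℕ} {k : ℤ} (ha : k ∈ block1 a) (hb : k ∈ block1 b) : a = b := by
  have aux : ∀ a b : ℕ, k ∈ block1 a → k ∈ block1 b → ¬ a < b := by
    intro a b ha hb hab
    rw [mem_block1] at ha hb
    obtain ⟨i, rfl⟩ := Nat.exists_eq_add_of_lt hab
    have h1 : (2 : ℤ) ^ (a + i + 1) = 2 * 2 ^ (a + i) := by rw [pow_succ]; ring
    rw [h1] at hb
    have h2 : (2 : ℤ) ^ a ≤ 2 ^ (a + i) := pow_le_pow_right₀ (by norm_num) (by omega)
    omega
  rcases lt_trichotomy a b with h | h | h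
  · exact absurd h (aux a b ha hb)
  · exact h
  · exact absurd h (aux b a hb ha)

lemma card_block (l a : ℕ) (ha : a ≤ l) : (block (a, l - a)).card = 2 ^ l := by
  rw [block, Finset.card_product, card_block1, card_block1, ← pow_add]
  congr 1; simp only; omega

lemma block_disjoint (l : ℕ) : (↑(Finset.range (l + 1)) : Set ℕ).PairwiseDisjoint
    (fun a => block (a, l - a)) := by
  intro a _ b _ hab
  rw [Function.onFun, Finset.disjoint_left]
  intro k hk hk'
  rw [block, Finset.mem_product] at hk hk'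
  exact hab (block1_unique hk.1 hk'.1)

lemma card_Q (l : ℕ) : (Q l).card = (l + 1) * 2 ^ l := by
  unfold Q
  rw [Finset.card_biUnion (fun a ha b hb hab => block_disjoint l ha hb hab)]
  rw [Finset.sum_congr rfl (fun a ha => card_block l a (by rw [Finset.mem_range] at ha; omega))]
  simp

lemma Q_disjoint {l m : ℕ} {k : ℤ × ℤ} (h1 : k ∈ Q l) (h2 : k ∈ Q m) : l = m := by
  rw [mem_Q] at h1 h2
  obtain ⟨a, ha, hka⟩ := h1
  obtain ⟨b, hb, hkb⟩ := h2
  rw [block, Finset.mem_product] at hka hkb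
  have e1 := block1_unique hka.1 hkb.1
  have e2 := block1_unique hka.2 hkb.2
  simp only at e1 e2
  omega

/-- index set of the atoms -/
noncomputable def JJ (l : ℕ) : Finset (Σ _ : ℕ, ℕ × ℕ) := (Finset.range (l + 1)).sigma (fun a => G l a)

lemma card_JJ (l : ℕ) : (JJ l).card = 16 * ((l + 1) * 2 ^ l) := by
  unfold JJ
  rw [Finset.card_sigma]
  have : ∀ a ∈ Finset.range (l + 1), (G l a).card = 16 * 2 ^ l := by
    intro a ha
    rw [Finset.mem_range] at ha
    rw [G, Finset.card_product, Finset.card_range, Finset.card_range]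
    have : 2 ^ l = 2 ^ a * 2 ^ (l - a) := by rw [← pow_add]; congr 1; omega
    rw [this]; ring
  rw [Finset.sum_congr rfl this]
  simp; ring

/-- coefficient vectors -/
noncomputable def vec (l : ℕ) (c : ℤ × ℤ → ℂ) : EuclideanSpace ℂ (Q l) := WithLp.toLp 2 (fun k => c k)

lemma vec_sub (l : ℕ) (c d : ℤ × ℤ → ℂ) : vec l (c - d) = vec l c - vec l d := rfl

lemma norm_sq_vec (l : ℕ) (c : ℤ × ℤ → ℂ) : ‖vec l c‖ ^ 2 = ∑ k ∈ Q l, ‖c k‖ ^ 2 := by
  rw [EuclideanSpace.norm_sq_eq]
  simp only [vec]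
  exact Finset.sum_coe_sort (Q l) (fun k => ‖c k‖ ^ 2)

lemma integral_sq_eq_norm_vec (l : ℕ) (c : ℤ × ℤ → ℂ) :
    ∫ x, ‖P (Q l) c x‖ ^ 2 ∂torusMeasure = ‖vec l c‖ ^ 2 := by
  rw [integral_norm_sq_P, norm_sq_vec]

/-- the atoms: block Dirichlet kernels -/
noncomputable def atom (l : ℕ) (j : JJ l) : EuclideanSpace ℂ (Q l) :=
  WithLp.toLp 2 (fun k => if (k : ℤ × ℤ) ∈ block (j.1.1, l - j.1.1) then expo (-(k : ℤ × ℤ)) (pt l j.1.1 j.1.2) else 0)

lemma norm_atom_le (l : ℕ) (j : JJ l) : ‖atom l j‖ ≤ Real.sqrt (2 ^ l) := by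
  apply Real.le_sqrt_of_sq_le
  rw [EuclideanSpace.norm_sq_eq]
  simp only [atom]
  have h1 : ∀ k : Q l, ‖if (k : ℤ × ℤ) ∈ block (j.1.1, l - j.1.1) then
      expo (-(k : ℤ × ℤ)) (pt l j.1.1 j.1.2) else 0‖ ^ 2 =
      if (k : ℤ × ℤ) ∈ block (j.1.1, l - j.1.1) then 1 else 0 := by
    intro k
    split_ifs
    · rw [norm_expo]; norm_num
    · simp
  simp only [h1]
  rw [Finset.sum_coe_sort (Q l) (fun k => if k ∈ block (j.1.1, l - j.1.1) then (1 : ℝ) else 0)]
  rw [← Finset.sum_filter, Finset.sum_const, nsmul_eq_mul, mul_one]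
  have hj : j.1.1 ≤ l := by
    have := (Finset.mem_sigma.1 j.2).1
    rw [Finset.mem_range] at this; omega
  have : ((Q l).filter (fun k => k ∈ block (j.1.1, l - j.1.1))).card ≤ 2 ^ l := by
    rw [← card_block l j.1.1 hj]
    apply Finset.card_le_card
    intro k hk
    exact (Finset.mem_filter.1 hk).2
  exact_mod_cast this

lemma vec_eq_sum (l : ℕ) (c : ℤ × ℤ → ℂ) :
    vec l c = ∑ j : JJ l, lam l c j.1.1 j.1.2 • atom l j := by
  ext k
  have hk := k.2
  rw [mem_Q] at hk
  obtain ⟨a0, ha0, hk0⟩ := hk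
  simp only [WithLp.ofLp_sum, WithLp.ofLp_smul, Finset.sum_apply, Pi.smul_apply, smul_eq_mul, atom, vec]
  rw [Finset.sum_coe_sort (JJ l) (fun j => lam l c j.1 j.2 *
    (if (k : ℤ × ℤ) ∈ block (j.1, l - j.1) then expo (-(k : ℤ × ℤ)) (pt l j.1 j.2) else 0))]
  unfold JJ
  rw [Finset.sum_sigma]
  rw [Finset.sum_eq_single a0]
  · simp only [hk0, if_true]
    exact (recon l c a0 ha0 k hk0).symm
  · intro a _ hne
    apply Finset.sum_eq_zero
    intro i _
    rw [if_neg, mul_zero]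
    intro h
    rw [block, Finset.mem_product] at h hk0
    exact hne (block1_unique h.1 hk0.1)
  · intro h
    exact absurd (Finset.mem_range.2 (by omega)) h

/-- `L²` covering of the `L¹` ball of a layer. -/
lemma layer_L2_cover (l : ℕ) (R : ℝ) (hR : 0 < R) (m : ℕ) (hm : 0 < m) (c : ℤ × ℤ → ℂ)
    (hc : ∫ y, ‖P (Q l) c y‖ ∂torusMeasure ≤ R) :
    ∃ s : Sym (Option (JJ l × Fin 4)) m,
      ‖vec l c - mcenter (atom l) (576 * Real.sqrt (l + 1) * R) m s‖ ≤ 2304 * R * Real.sqrt (DD l / m) := by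
  have h1 : ∑ j : JJ l, ‖lam l c j.1.1 j.1.2‖ ≤ 576 * Real.sqrt (l + 1) * R := by
    rw [Finset.sum_coe_sort (JJ l) (fun j => ‖lam l c j.1 j.2‖)]
    unfold JJ
    rw [Finset.sum_sigma]
    refine (sum_norm_lam_le l c).trans ?_
    gcongr
  obtain ⟨s, hs⟩ := maurey (atom l) (Real.sqrt (2 ^ l)) (576 * Real.sqrt (l + 1) * R)
    (Real.sqrt_nonneg _) (norm_atom_le l) (by positivity) m hm (fun j => lam l c j.1.1 j.1.2) h1
  refine ⟨s, ?_⟩
  rw [vec_eq_sum]
  refine hs.trans (le_of_eq ?_)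
  unfold DD
  rw [Real.sqrt_div (by positivity), Real.sqrt_mul (by positivity)]
  ring

end Pool.Agent.Lib.MP_629918_an

end

section

/-!
# `L^p` coverings of the layers
-/


open MeasureTheory

namespace Pool.Agent.Lib.MP_629918_an

/-- The `L^p` norm as a real integral. -/
noncomputable def normp (p : ℝ) (f : Torus → ℂ) : ℝ := (∫ x, ‖f x‖ ^ p ∂torusMeasure) ^ (1 / p)

lemma memLp_of_continuous' {E : Type*} [NormedAddCommGroup E] {f : Torus → E}
    (hf : Continuous f) (q : ENNReal) : MemLp f q torusMeasure :=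
  hf.memLp_of_hasCompactSupport (HasCompactSupport.of_compactSpace f)

lemma interp {p : ℝ} (hp1 : 1 < p) (hp2 : p < 2) {f : Torus → ℂ} (hf : Continuous f) :
    ∫ x, ‖f x‖ ^ p ∂torusMeasure ≤
      (∫ x, ‖f x‖ ∂torusMeasure) ^ (2 - p) * (∫ x, ‖f x‖ ^ 2 ∂torusMeasure) ^ (p - 1) := by
  have h1 : 0 < 2 - p := by linarith
  have h2 : 0 < p - 1 := by linarith
  have hc1 : Continuous fun x => ‖f x‖ ^ (2 - p) := hf.norm.rpow_const fun _ => Or.inr h1.le
  have hc2 : Continuous fun x => ‖f x‖ ^ (2 * (p - 1)) := hf.norm.rpow_const fun _ => Or.inr (by positivity)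
  have h := integral_mul_le_Lp_mul_Lq_of_nonneg (μ := torusMeasure)
    (Real.HolderConjugate.inv_inv h1 h2 (by ring))
    (f := fun x => ‖f x‖ ^ (2 - p)) (g := fun x => ‖f x‖ ^ (2 * (p - 1)))
    (Filter.Eventually.of_forall fun x => by positivity)
    (Filter.Eventually.of_forall fun x => by positivity)
    (memLp_of_continuous' hc1 _) (memLp_of_continuous' hc2 _)
  have e1 : ∀ x, ‖f x‖ ^ (2 - p) * ‖f x‖ ^ (2 * (p - 1)) = ‖f x‖ ^ p := by
    intro x
    rw [← Real.rpow_add_of_nonneg (norm_nonneg _) h1.le (by positivity)]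
    congr 1; ring
  have e2 : ∀ x, (‖f x‖ ^ (2 - p)) ^ ((2 - p)⁻¹) = ‖f x‖ := by
    intro x
    rw [← Real.rpow_mul (norm_nonneg _), mul_inv_cancel₀ h1.ne', Real.rpow_one]
  have e3 : ∀ x, (‖f x‖ ^ (2 * (p - 1))) ^ ((p - 1)⁻¹) = ‖f x‖ ^ 2 := by
    intro x
    rw [← Real.rpow_mul (norm_nonneg _), mul_assoc, mul_inv_cancel₀ h2.ne', mul_one]
    norm_num
  simp only [e1, e2, e3, one_div, inv_inv] at h
  exact h

lemma normp_le {p : ℝ} (hp1 : 1 < p) (hp2 : p < 2) {f : Torus → ℂ} (hf : Continuous f)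
    {X Y : ℝ} (hX : ∫ x, ‖f x‖ ∂torusMeasure ≤ X) (hY0 : 0 ≤ Y)
    (hY : ∫ x, ‖f x‖ ^ 2 ∂torusMeasure ≤ Y ^ 2) :
    normp p f ≤ X ^ ((2 - p) / p) * Y ^ (2 * (p - 1) / p) := by
  have hp0 : 0 < p := by linarith
  have hX0 : 0 ≤ X := (integral_nonneg fun x => norm_nonneg _).trans hX
  have h1' : 0 < 2 - p := by linarith
  have h2' : 0 < p - 1 := by linarith
  have h1 : ∫ x, ‖f x‖ ^ p ∂torusMeasure ≤ X ^ (2 - p) * (Y ^ 2) ^ (p - 1) := by
    refine (interp hp1 hp2 hf).trans ?_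
    have i1 : 0 ≤ ∫ x, ‖f x‖ ∂torusMeasure := integral_nonneg fun x => norm_nonneg _
    have i2 : 0 ≤ ∫ x, ‖f x‖ ^ 2 ∂torusMeasure := integral_nonneg fun x => by positivity
    exact mul_le_mul (Real.rpow_le_rpow i1 hX h1'.le) (Real.rpow_le_rpow i2 hY h2'.le)
      (by positivity) (by positivity)
  unfold normp
  calc (∫ x, ‖f x‖ ^ p ∂torusMeasure) ^ (1 / p) ≤ (X ^ (2 - p) * (Y ^ 2) ^ (p - 1)) ^ (1 / p) :=
        Real.rpow_le_rpow (integral_nonneg fun x => by positivity) h1 (by positivity)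
    _ = X ^ ((2 - p) / p) * Y ^ (2 * (p - 1) / p) := by
        rw [Real.mul_rpow (by positivity) (by positivity), ← Real.rpow_mul hX0,
          ← Real.rpow_natCast Y 2, ← Real.rpow_mul hY0, ← Real.rpow_mul hY0]
        have e1 : (2 - p) * (1 / p) = (2 - p) / p := by ring
        have e2 : ((2 : ℕ) : ℝ) * (p - 1) * (1 / p) = 2 * (p - 1) / p := by push_cast; ring
        rw [e1, e2]

/-- exponents add up to one -/
lemma rpow_combine {p : ℝ} (hp1 : 1 < p) {R t : ℝ} (hR : 0 ≤ R) (ht : 0 ≤ t) :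
    R ^ ((2 - p) / p) * (R * t) ^ (2 * (p - 1) / p) = R * (t ^ 2) ^ (1 - 1 / p) := by
  have hp0 : 0 < p := by linarith
  rcases hR.eq_or_lt with rfl | hR'
  · rw [zero_mul, zero_mul, Real.zero_rpow (by positivity : 2 * (p - 1) / p ≠ 0), mul_zero]
  rw [Real.mul_rpow hR ht, ← mul_assoc, ← Real.rpow_add hR', ← Real.rpow_natCast t 2,
    ← Real.rpow_mul ht]
  have e1 : (2 - p) / p + 2 * (p - 1) / p = 1 := by field_simp; ring
  have e2 : 2 * (p - 1) / p = ((2 : ℕ) : ℝ) * (1 - 1 / p) := by push_cast; field_simp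
  rw [e1, e2, Real.rpow_one]

lemma norm_coeff_le (l : ℕ) (c : ℤ × ℤ → ℂ) {k : ℤ × ℤ} (hk : k ∈ Q l) :
    ‖c k‖ ≤ ∫ y, ‖P (Q l) c y‖ ∂torusMeasure := by
  have h := coeff_P (Q l) c k
  rw [if_pos hk] at h
  rw [← h]
  unfold coeff
  refine (norm_integral_le_integral_norm _).trans (le_of_eq ?_)
  congr 1
  ext x
  rw [norm_mul, norm_expo, mul_one]

/-- trivial bound for the `L^p` norm of a layer -/
lemma normp_trivial {p : ℝ} (hp1 : 1 < p) (hp2 : p < 2) (l : ℕ) (c : ℤ × ℤ → ℂ) {R : ℝ}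
    (hc : ∫ y, ‖P (Q l) c y‖ ∂torusMeasure ≤ R) :
    normp p (P (Q l) c) ≤ R * (DD l) ^ (1 - 1 / p) := by
  have hR : 0 ≤ R := (integral_nonneg fun x => norm_nonneg _).trans hc
  have hD := DD_pos l
  have h1 : ∫ x, ‖P (Q l) c x‖ ^ 2 ∂torusMeasure ≤ (R * Real.sqrt (DD l)) ^ 2 := by
    rw [integral_norm_sq_P, mul_pow, Real.sq_sqrt hD.le]
    calc ∑ k ∈ Q l, ‖c k‖ ^ 2 ≤ ∑ _k ∈ Q l, R ^ 2 := by
          refine Finset.sum_le_sum fun k hk => ?_
          exact pow_le_pow_left₀ (norm_nonneg _) ((norm_coeff_le l c hk).trans hc) 2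
      _ = R ^ 2 * DD l := by
          rw [Finset.sum_const, card_Q, nsmul_eq_mul, DD]; push_cast; ring
  have h2 := normp_le hp1 hp2 (continuous_P (Q l) c) hc (by positivity) h1
  rwa [rpow_combine hp1 hR (Real.sqrt_nonneg _), Real.sq_sqrt hD.le] at h2

/-- Covering statement for a layer. -/
def Cov (p : ℝ) (l : ℕ) (R b E : ℝ) : Prop :=
  ∃ (I : Type) (_ : Fintype I) (_ : Nonempty I) (z : I → (ℤ × ℤ → ℂ)),
    (Fintype.card I : ℝ) ≤ 2 ^ b ∧
    ∀ c : ℤ × ℤ → ℂ, ∫ y, ‖P (Q l) c y‖ ∂torusMeasure ≤ R → ∃ i, normp p (P (Q l) (c - z i)) ≤ E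

lemma Cov.mono {p : ℝ} {l : ℕ} {R b E b' E' : ℝ} (h : Cov p l R b E) (hb : b ≤ b') (hE : E ≤ E') :
    Cov p l R b' E' := by
  obtain ⟨I, i1, i2, z, h1, h2⟩ := h
  refine ⟨I, i1, i2, z, h1.trans (Real.rpow_le_rpow_of_exponent_le (by norm_num) hb), ?_⟩
  intro c hc
  obtain ⟨i, hi⟩ := h2 c hc
  exact ⟨i, hi.trans hE⟩

lemma cov_trivial {p : ℝ} (hp1 : 1 < p) (hp2 : p < 2) (l : ℕ) (R : ℝ) :
    Cov p l R 0 (R * (DD l) ^ (1 - 1 / p)) := by
  refine ⟨Unit, inferInstance, inferInstance, fun _ => 0, by simp, ?_⟩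
  intro c hc
  refine ⟨(), ?_⟩
  rw [sub_zero]
  exact normp_trivial hp1 hp2 l c hc

lemma card_sym_option (l m : ℕ) (hm : 0 < m) :
    (Fintype.card (Sym (Option (JJ l × Fin 4)) m) : ℝ) ≤ (3 * (65 * DD l / m + 1)) ^ m := by
  rw [Sym.card_sym_eq_choose]
  refine (card_sym_le _ m hm).trans ?_
  have h1 : ((Fintype.card (Option (JJ l × Fin 4)) : ℕ) : ℝ) ≤ 65 * DD l := by
    rw [Fintype.card_option, Fintype.card_prod, Fintype.card_fin, Fintype.card_coe, card_JJ]
    have := one_le_DD l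
    unfold DD at *
    push_cast
    linarith
  have hmR : (0 : ℝ) < m := by exact_mod_cast hm
  gcongr
  rw [mul_div_assoc, add_div, div_self hmR.ne']
  gcongr

lemma cov_maurey {p : ℝ} (hp1 : 1 < p) (hp2 : p < 2) (l : ℕ) (R : ℝ) (hR : 0 < R) (m : ℕ) (hm : 0 < m) :
    Cov p l R (m * Real.logb 2 (3 * (65 * DD l / m + 1))) (4608 * R * (DD l / m) ^ (1 - 1 / p)) := by
  classical
  have hD := DD_pos l
  have hmR : (0 : ℝ) < m := by exact_mod_cast hm
  set e : ℝ := 2304 * R * Real.sqrt (DD l / m) with he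
  have he0 : 0 ≤ e := by positivity
  set y : Sym (Option (JJ l × Fin 4)) m → EuclideanSpace ℂ (Q l) :=
    mcenter (atom l) (576 * Real.sqrt (l + 1) * R) m with hy
  have hrep : ∀ s, ∃ z : ℤ × ℤ → ℂ, ∫ x, ‖P (Q l) z x‖ ∂torusMeasure ≤ R ∧
      ((∃ c : ℤ × ℤ → ℂ, ∫ x, ‖P (Q l) c x‖ ∂torusMeasure ≤ R ∧ ‖vec l c - y s‖ ≤ e) →
        ‖vec l z - y s‖ ≤ e) := by
    intro s
    by_cases h : ∃ c : ℤ × ℤ → ℂ, ∫ x, ‖P (Q l) c x‖ ∂torusMeasure ≤ R ∧ ‖vec l c - y s‖ ≤ e
    · obtain ⟨c, hc1, hc2⟩ := h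
      exact ⟨c, hc1, fun _ => hc2⟩
    · refine ⟨0, ?_, fun h' => absurd h' h⟩
      simp [P, hR.le]
  choose z hz1 hz2 using hrep
  refine ⟨Sym (Option (JJ l × Fin 4)) m, inferInstance, ⟨Sym.replicate m none⟩, z, ?_, ?_⟩
  · refine (card_sym_option l m hm).trans (le_of_eq ?_)
    rw [mul_comm (m : ℝ) (Real.logb 2 _), Real.rpow_mul (by norm_num),
      Real.rpow_logb (by norm_num) (by norm_num) (by positivity), Real.rpow_natCast]
  · intro c hc
    obtain ⟨s, hs⟩ := layer_L2_cover l R hR m hm c hc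
    refine ⟨s, ?_⟩
    have h1 := hz2 s ⟨c, hc, hs⟩
    have h2 : ‖vec l (c - z s)‖ ≤ 2 * e := by
      rw [vec_sub]
      have : vec l c - vec l (z s) = (vec l c - y s) - (vec l (z s) - y s) := by abel
      rw [this]
      refine (norm_sub_le _ _).trans ?_
      linarith
    have h3 : ∫ x, ‖P (Q l) (c - z s) x‖ ∂torusMeasure ≤ 2 * R := by
      calc ∫ x, ‖P (Q l) (c - z s) x‖ ∂torusMeasure
          ≤ ∫ x, (‖P (Q l) c x‖ + ‖P (Q l) (z s) x‖) ∂torusMeasure := by
            refine integral_mono (integrable_of_continuous (continuous_P _ _).norm)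
              (integrable_of_continuous ((continuous_P _ _).norm.add (continuous_P _ _).norm)) fun x => ?_
            simp only [P_sub]
            exact norm_sub_le _ _
        _ = ∫ x, ‖P (Q l) c x‖ ∂torusMeasure + ∫ x, ‖P (Q l) (z s) x‖ ∂torusMeasure :=
            integral_add (integrable_of_continuous (continuous_P _ _).norm)
              (integrable_of_continuous (continuous_P _ _).norm)
        _ ≤ 2 * R := by have := hz1 s; linarith
    have h4 : ∫ x, ‖P (Q l) (c - z s) x‖ ^ 2 ∂torusMeasure ≤ (2 * e) ^ 2 := by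
      rw [integral_sq_eq_norm_vec]
      exact pow_le_pow_left₀ (norm_nonneg _) h2 2
    have h5 := normp_le hp1 hp2 (continuous_P (Q l) (c - z s)) (h3.trans (by linarith : 2 * R ≤ 4608 * R))
      (by positivity) h4
    have h6 : 2 * e = (4608 * R) * Real.sqrt (DD l / m) := by rw [he]; ring
    rw [h6, rpow_combine hp1 (by positivity) (Real.sqrt_nonneg _), Real.sq_sqrt (by positivity)] at h5
    exact h5

/-- extension of a coefficient vector by zero -/
noncomputable def ext0 (l : ℕ) (v : EuclideanSpace ℂ (Q l)) (k : ℤ × ℤ) : ℂ :=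
  if h : k ∈ Q l then v ⟨k, h⟩ else 0

lemma vec_ext0 (l : ℕ) (v : EuclideanSpace ℂ (Q l)) : vec l (ext0 l v) = v := by
  ext k
  simp [vec, ext0]

lemma cov_fine {p : ℝ} (hp1 : 1 < p) (hp2 : p < 2) (l : ℕ) (R : ℝ) (hR : 0 < R) (A : ℝ) (hA : 1 ≤ A) :
    Cov p l R ((A + 13) * DD l) (2304 * R / A) := by
  classical
  have hp0 : 0 < p := by linarith
  have hD := DD_pos l
  set m : ℕ := (l + 1) * 2 ^ l with hm
  have hm0 : 0 < m := by positivity
  have hmD : (m : ℝ) = DD l := by rw [hm, DD]; push_cast; ring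
  have hne : Nonempty (Q l) := by
    apply Fintype.card_pos_iff.1
    rw [Fintype.card_coe, card_Q]; positivity
  obtain ⟨S, hSne, hScard, hS⟩ := lattice_cover (Q l) (2304 * R) A (by positivity) hA
  set y : Sym (Option (JJ l × Fin 4)) m → EuclideanSpace ℂ (Q l) :=
    mcenter (atom l) (576 * Real.sqrt (l + 1) * R) m with hy
  refine ⟨Sym (Option (JJ l × Fin 4)) m × S, inferInstance, ⟨(Sym.replicate m none, ⟨hSne.choose, hSne.choose_spec⟩)⟩,
    fun q => ext0 l (y q.1 + q.2), ?_, ?_⟩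
  · rw [Fintype.card_prod, Fintype.card_coe, Nat.cast_mul]
    have h1 : (Fintype.card (Sym (Option (JJ l × Fin 4)) m) : ℝ) ≤ 2 ^ (8 * DD l) := by
      refine (card_sym_option l m hm0).trans ?_
      rw [hmD, mul_div_assoc, div_self hD.ne', Real.rpow_mul (by norm_num), ← hmD, Real.rpow_natCast]
      gcongr
      norm_num
    have h2 : (S.card : ℝ) ≤ 2 ^ ((A + 5) * DD l) := by
      have : ((Fintype.card (Q l) : ℕ) : ℝ) = DD l := by
        rw [Fintype.card_coe, card_Q, ← hmD]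
      rwa [this] at hScard
    calc (Fintype.card (Sym (Option (JJ l × Fin 4)) m) : ℝ) * (S.card : ℝ)
        ≤ 2 ^ (8 * DD l) * 2 ^ ((A + 5) * DD l) := by gcongr
      _ = 2 ^ ((A + 13) * DD l) := by rw [← Real.rpow_add (by norm_num)]; congr 1; ring
  · intro c hc
    obtain ⟨s, hs⟩ := layer_L2_cover l R hR m hm0 c hc
    rw [hmD, div_self hD.ne', Real.sqrt_one, mul_one] at hs
    obtain ⟨w, hw, hw2⟩ := hS _ hs
    refine ⟨(s, ⟨w, hw⟩), ?_⟩
    set d := c - ext0 l (y s + w) with hd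
    have h1 : ‖vec l d‖ ≤ 2304 * R / A := by
      rw [hd, vec_sub, vec_ext0, ← sub_sub]
      exact hw2
    have h2 : ∫ x, ‖P (Q l) d x‖ ^ 2 ∂torusMeasure ≤ (2304 * R / A) ^ 2 := by
      rw [integral_sq_eq_norm_vec]
      exact pow_le_pow_left₀ (norm_nonneg _) h1 2
    have h3 : ∫ x, ‖P (Q l) d x‖ ∂torusMeasure ≤ 2304 * R / A := by
      have hcs := integral_mul_le_Lp_mul_Lq_of_nonneg (μ := torusMeasure) Real.HolderConjugate.two_two
        (f := fun x => ‖P (Q l) d x‖) (g := fun _ => (1 : ℝ))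
        (Filter.Eventually.of_forall fun x => norm_nonneg _)
        (Filter.Eventually.of_forall fun x => zero_le_one)
        (memLp_of_continuous' (continuous_P _ _).norm _) (memLp_of_continuous' continuous_const _)
      simp only [mul_one, Real.one_rpow, integral_const, probReal_univ, smul_eq_mul] at hcs
      refine hcs.trans ?_
      rw [← Real.sqrt_eq_rpow]
      apply Real.sqrt_le_iff.2
      refine ⟨by positivity, ?_⟩
      refine le_trans (le_of_eq ?_) h2
      congr 1; ext x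
      exact_mod_cast rfl
    have h5 := normp_le hp1 hp2 (continuous_P (Q l) d) h3 (by positivity) h2
    have h6 := rpow_combine hp1 (R := 2304 * R / A) (t := 1) (by positivity) zero_le_one
    rw [mul_one] at h6
    rw [h6] at h5
    simpa using h5

end Pool.Agent.Lib.MP_629918_an

end
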