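import Pool.Agent.Lib.MP_629918_an.Riesz

set_option autoImplicit false

section

/-!
# Choice of the parameters of the layer coverings
-/


open MeasureTheory

namespace Pool.Agent.Lib.MP_629918_an

lemma cov_low {p : ℝ} (hp1 : 1 < p) (hp2 : p < 2) {a b : ℝ} (ha2 : a ≤ 1 / 2)
    {n l i : ℕ} (hn : 1 ≤ n) (h : l + i = n) :
    Cov p l (RR a b l) (DD n * (14 * 2 ^ (-(i : ℝ) / 4)))
      (RR a b n * (2304 * (((i : ℝ) + 1) ^ |b| * 2 ^ (-(i : ℝ) / 4)))) := by
  have hi0 : (0 : ℝ) ≤ i := Nat.cast_nonneg _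
  have hA : (1 : ℝ) ≤ 2 ^ (3 / 4 * (i : ℝ)) := Real.one_le_rpow (by norm_num) (by positivity)
  refine (cov_fine hp1 hp2 l (RR a b l) (RR_pos a b l) (2 ^ (3 / 4 * (i : ℝ))) hA).mono ?_ ?_
  · calc ((2 : ℝ) ^ (3 / 4 * (i : ℝ)) + 13) * DD l ≤ (14 * 2 ^ (3 / 4 * (i : ℝ))) * (DD n * 2 ^ (-(i : ℝ))) := by
          have := DD_pos n
          have := DD_pos l
          gcongr
          · linarith
          · exact DD_down h
      _ = DD n * (14 * 2 ^ (-(i : ℝ) / 4)) := by
          have : (2 : ℝ) ^ (-(i : ℝ) / 4) = 2 ^ (3 / 4 * (i : ℝ)) * 2 ^ (-(i : ℝ)) := by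
            rw [← Real.rpow_add (by norm_num)]; congr 1; ring
          rw [this]; ring
  · have hR := RR_down (a := a) (b := b) hn h
    have hRn := RR_pos a b n
    calc 2304 * RR a b l / 2 ^ (3 / 4 * (i : ℝ))
        ≤ 2304 * (RR a b n * (2 ^ (a * i) * ((i : ℝ) + 1) ^ |b|)) / 2 ^ (3 / 4 * (i : ℝ)) := by gcongr
      _ ≤ 2304 * (RR a b n * (2 ^ (1 / 2 * (i : ℝ)) * ((i : ℝ) + 1) ^ |b|)) / 2 ^ (3 / 4 * (i : ℝ)) := by
          have : (2 : ℝ) ^ (a * (i : ℝ)) ≤ 2 ^ (1 / 2 * (i : ℝ)) :=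
            Real.rpow_le_rpow_of_exponent_le (by norm_num) (by gcongr)
          gcongr
      _ = RR a b n * (2304 * (((i : ℝ) + 1) ^ |b| * 2 ^ (-(i : ℝ) / 4))) := by
          have : (2 : ℝ) ^ (1 / 2 * (i : ℝ)) = 2 ^ (3 / 4 * (i : ℝ)) * 2 ^ (-(i : ℝ) / 4) := by
            rw [← Real.rpow_add (by norm_num)]; congr 1; ring
          rw [this]
          have : (0 : ℝ) < 2 ^ (3 / 4 * (i : ℝ)) := by positivity
          field_simp

lemma cov_high {p : ℝ} (hp1 : 1 < p) (hp2 : p < 2) {a b δ : ℝ} (hδ0 : 0 < δ) (hδ1 : δ ≤ 1)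
    (hδ : a = 1 - 1 / p + 2 * δ) {n j : ℕ} (hn : 1 ≤ n) :
    Cov p (n + j) (RR a b (n + j)) (DD n * (9 * (((j : ℝ) + 1) * 2 ^ (-δ * (j : ℝ)))))
      (RR a b n * (9216 * (((j : ℝ) + 1) ^ (|b| + 1) * 2 ^ (-δ * (j : ℝ))))) := by
  have hj0 : (0 : ℝ) ≤ j := Nat.cast_nonneg _
  have hp0 : 0 < p := by linarith
  set β : ℝ := 1 - 1 / p with hβ
  have hβ0 : 0 ≤ β := by
    rw [hβ, sub_nonneg, div_le_one hp0]; exact hp1.le
  have hβ1 : β ≤ 1 := by
    rw [hβ]; have : 0 < 1 / p := by positivity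
    linarith
  have hDn := DD_pos n
  have hRn := RR_pos a b n
  have hDl := DD_pos (n + j)
  have hRl := RR_pos a b (n + j)
  have hup := DD_up n j
  have hRup := RR_up (a := a) (b := b) (j := j) hn
  -- the basic estimate
  have basic : ∀ t : ℝ, 0 < t → t ≤ 2 ^ (δ * (j : ℝ)) * 2 →
      RR a b (n + j) * (t * (((j : ℝ) + 1) * 2 ^ (j : ℝ))) ^ β
        ≤ RR a b n * (2 * (((j : ℝ) + 1) ^ (|b| + 1) * 2 ^ (-δ * (j : ℝ)))) := by
    intro t ht ht2
    have h1 : (t * (((j : ℝ) + 1) * 2 ^ (j : ℝ))) ^ β ≤ 2 * (((j : ℝ) + 1) * 2 ^ ((β + δ) * (j : ℝ))) := by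
      calc (t * (((j : ℝ) + 1) * 2 ^ (j : ℝ))) ^ β
          ≤ ((2 ^ (δ * (j : ℝ)) * 2) * (((j : ℝ) + 1) * 2 ^ (j : ℝ))) ^ β := by gcongr
        _ = (2 : ℝ) ^ β * ((j : ℝ) + 1) ^ β * 2 ^ ((1 + δ) * (j : ℝ) * β) := by
            have : ((2 : ℝ) ^ (δ * (j : ℝ)) * 2) * (((j : ℝ) + 1) * 2 ^ (j : ℝ))
                = 2 * ((j : ℝ) + 1) * 2 ^ ((1 + δ) * (j : ℝ)) := by
              have : (2 : ℝ) ^ ((1 + δ) * (j : ℝ)) = 2 ^ (δ * (j : ℝ)) * 2 ^ (j : ℝ) := by
                rw [← Real.rpow_add (by norm_num)]; congr 1; ring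
              rw [this]; ring
            rw [this, Real.mul_rpow (by positivity) (by positivity),
              Real.mul_rpow (by norm_num) (by positivity), ← Real.rpow_mul (by norm_num)]
        _ ≤ 2 * ((j : ℝ) + 1) * 2 ^ ((β + δ) * (j : ℝ)) := by
            have e1 : (2 : ℝ) ^ β ≤ 2 := by
              calc (2 : ℝ) ^ β ≤ 2 ^ (1 : ℝ) := Real.rpow_le_rpow_of_exponent_le (by norm_num) hβ1
                _ = 2 := Real.rpow_one 2
            have e2 : ((j : ℝ) + 1) ^ β ≤ (j : ℝ) + 1 := by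
              calc ((j : ℝ) + 1) ^ β ≤ ((j : ℝ) + 1) ^ (1 : ℝ) :=
                    Real.rpow_le_rpow_of_exponent_le (by linarith) hβ1
                _ = (j : ℝ) + 1 := Real.rpow_one _
            have e3 : (2 : ℝ) ^ ((1 + δ) * (j : ℝ) * β) ≤ 2 ^ ((β + δ) * (j : ℝ)) := by
              apply Real.rpow_le_rpow_of_exponent_le (by norm_num)
              have h0 : δ * β ≤ δ := mul_le_of_le_one_right hδ0.le hβ1
              have h0' := mul_le_mul_of_nonneg_right h0 hj0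
              linarith
            gcongr
        _ = _ := by ring
    calc RR a b (n + j) * (t * (((j : ℝ) + 1) * 2 ^ (j : ℝ))) ^ β
        ≤ (RR a b n * (2 ^ (-a * j) * ((j : ℝ) + 1) ^ |b|)) * (2 * (((j : ℝ) + 1) * 2 ^ ((β + δ) * (j : ℝ)))) := by
          gcongr
      _ = RR a b n * (2 * (((j : ℝ) + 1) ^ (|b| + 1) * 2 ^ (-δ * (j : ℝ)))) := by
          rw [Real.rpow_add_one (by positivity)]
          have : (2 : ℝ) ^ (-δ * (j : ℝ)) = 2 ^ (-a * (j : ℝ)) * 2 ^ ((β + δ) * (j : ℝ)) := by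
            rw [← Real.rpow_add (by norm_num)]; congr 1; rw [hδ]; ring
          rw [this]; ring
  set m : ℕ := ⌊DD n * 2 ^ (-δ * (j : ℝ))⌋₊ with hm
  have hinv : (2 : ℝ) ^ (-δ * (j : ℝ)) * 2 ^ (δ * (j : ℝ)) = 1 := by
    rw [← Real.rpow_add (by norm_num)]
    have : -δ * (j : ℝ) + δ * (j : ℝ) = 0 := by ring
    rw [this, Real.rpow_zero]
  have hq : (0 : ℝ) < 2 ^ (δ * (j : ℝ)) := by positivity
  have hq' : (0 : ℝ) < 2 ^ (-δ * (j : ℝ)) := by positivity
  rcases Nat.eq_zero_or_pos m with h0 | h0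
  · -- trivial center
    have h1 : DD n * 2 ^ (-δ * (j : ℝ)) < 1 := by
      have := Nat.lt_floor_add_one (DD n * 2 ^ (-δ * (j : ℝ)))
      rw [← hm, h0] at this
      simpa using this
    have h2 : DD n ≤ 2 ^ (δ * (j : ℝ)) * 2 := by
      have h3 : DD n = DD n * 2 ^ (-δ * (j : ℝ)) * 2 ^ (δ * (j : ℝ)) := by
        rw [mul_assoc, hinv, mul_one]
      rw [h3]
      have h3' := mul_le_mul_of_nonneg_right h1.le hq.le
      linarith
    refine (cov_trivial hp1 hp2 (n + j) (RR a b (n + j))).mono (by positivity) ?_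
    calc RR a b (n + j) * DD (n + j) ^ (1 - 1 / p)
        ≤ RR a b (n + j) * (DD n * (((j : ℝ) + 1) * 2 ^ (j : ℝ))) ^ β := by gcongr
      _ ≤ RR a b n * (2 * (((j : ℝ) + 1) ^ (|b| + 1) * 2 ^ (-δ * (j : ℝ)))) := basic _ hDn h2
      _ ≤ _ := by gcongr; norm_num
  · have hmR : (1 : ℝ) ≤ m := by exact_mod_cast h0
    have hm1 : (m : ℝ) ≤ DD n * 2 ^ (-δ * (j : ℝ)) := Nat.floor_le (by positivity)
    have hm2 : DD n * 2 ^ (-δ * (j : ℝ)) ≤ 2 * m := by
      have := (Nat.lt_floor_add_one (DD n * 2 ^ (-δ * (j : ℝ)))).le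
      rw [← hm] at this
      linarith
    have hratio : DD n / m ≤ 2 ^ (δ * (j : ℝ)) * 2 := by
      rw [div_le_iff₀ (by linarith)]
      have h3 : DD n = DD n * 2 ^ (-δ * (j : ℝ)) * 2 ^ (δ * (j : ℝ)) := by
        rw [mul_assoc, hinv, mul_one]
      rw [h3]
      have h3' := mul_le_mul_of_nonneg_right hm2 hq.le
      linarith
    have hr2 : DD (n + j) / m ≤ (DD n / m) * (((j : ℝ) + 1) * 2 ^ (j : ℝ)) := by
      rw [div_mul_eq_mul_div]
      gcongr
    refine (cov_maurey hp1 hp2 (n + j) (RR a b (n + j)) hRl m h0).mono ?_ ?_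
    · have hlog : Real.logb 2 (3 * (65 * DD (n + j) / m + 1)) ≤ 9 * ((j : ℝ) + 1) := by
        refine le_trans ?_ (log_bound j)
        apply Real.logb_le_logb_of_le (by norm_num) (by positivity)
        have h4 : DD (n + j) / m ≤ 2 * (((j : ℝ) + 1) * 2 ^ (2 * (j : ℝ))) := by
          calc DD (n + j) / m ≤ (DD n / m) * (((j : ℝ) + 1) * 2 ^ (j : ℝ)) := hr2
            _ ≤ (2 ^ (δ * (j : ℝ)) * 2) * (((j : ℝ) + 1) * 2 ^ (j : ℝ)) := by gcongr
            _ ≤ (2 ^ ((j : ℝ)) * 2) * (((j : ℝ) + 1) * 2 ^ (j : ℝ)) := by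
                have : (2 : ℝ) ^ (δ * (j : ℝ)) ≤ 2 ^ (j : ℝ) :=
                  Real.rpow_le_rpow_of_exponent_le (by norm_num) (mul_le_of_le_one_left hj0 hδ1)
                gcongr
            _ = 2 * (((j : ℝ) + 1) * 2 ^ (2 * (j : ℝ))) := by
                have : (2 : ℝ) ^ (2 * (j : ℝ)) = 2 ^ (j : ℝ) * 2 ^ (j : ℝ) := by
                  rw [← Real.rpow_add (by norm_num)]; congr 1; ring
                rw [this]; ring
        have h5 : (1 : ℝ) ≤ ((j : ℝ) + 1) * 2 ^ (2 * (j : ℝ)) := by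
          have h0 : (1 : ℝ) ≤ 2 ^ (2 * (j : ℝ)) := Real.one_le_rpow (by norm_num) (by positivity)
          exact one_le_mul_of_one_le_of_one_le (by linarith) h0
        rw [mul_div_assoc]
        linarith
      have hlog0 : 0 ≤ Real.logb 2 (3 * (65 * DD (n + j) / m + 1)) := by
        apply Real.logb_nonneg (by norm_num)
        have : 0 ≤ 65 * DD (n + j) / m := by positivity
        linarith
      calc (m : ℝ) * Real.logb 2 (3 * (65 * DD (n + j) / m + 1))
          ≤ (DD n * 2 ^ (-δ * (j : ℝ))) * (9 * ((j : ℝ) + 1)) := by gcongr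
        _ = _ := by ring
    · have hpos : 0 < DD n / m := by positivity
      calc 4608 * RR a b (n + j) * (DD (n + j) / m) ^ (1 - 1 / p)
          ≤ 4608 * RR a b (n + j) * ((DD n / m) * (((j : ℝ) + 1) * 2 ^ (j : ℝ))) ^ β := by gcongr
        _ = 4608 * (RR a b (n + j) * ((DD n / m) * (((j : ℝ) + 1) * 2 ^ (j : ℝ))) ^ β) := by ring
        _ ≤ 4608 * (RR a b n * (2 * (((j : ℝ) + 1) ^ (|b| + 1) * 2 ^ (-δ * (j : ℝ))))) := by
            have := basic _ hpos hratio
            gcongr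
        _ = _ := by ring

end Pool.Agent.Lib.MP_629918_an

end

section

/-!
# The functions of the class as `L^p` sums of their layers
-/


open MeasureTheory Filter Topology

namespace Pool.Agent.Lib.MP_629918_an

lemma layer_eq_P (l : ℕ) (f : Torus → ℂ) : layer l f = P (Q l) (coeff f) := by
  funext x
  unfold layer P Q
  rw [Finset.sum_biUnion (fun a ha b hb hab => block_disjoint l ha hb hab)]

lemma exists_block1 (k : ℤ) : ∃ j, k ∈ block1 j := by
  by_cases hk : k = 0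
  · exact ⟨0, mem_block1_zero.2 hk⟩
  · refine ⟨Nat.log 2 k.natAbs + 1, mem_block1.2 ⟨?_, ?_⟩⟩
    · have h := Nat.lt_pow_succ_log_self (b := 2) (by norm_num) k.natAbs
      rw [Int.abs_eq_natAbs]
      exact_mod_cast h
    · have h := Nat.pow_log_le_self 2 (x := k.natAbs) (by simpa using hk)
      rw [Int.abs_eq_natAbs, pow_succ, Int.mul_ediv_cancel _ (by norm_num)]
      exact_mod_cast h

lemma exists_Q (k : ℤ × ℤ) : ∃ l, k ∈ Q l := by
  obtain ⟨i, hi⟩ := exists_block1 k.1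
  obtain ⟨j, hj⟩ := exists_block1 k.2
  refine ⟨i + j, mem_Q.2 ⟨i, by omega, ?_⟩⟩
  rw [block, Finset.mem_product]
  refine ⟨hi, ?_⟩
  have : (i, i + j - i).2 = j := by simp
  rw [this]; exact hj

section

variable (p : ℝ)

/-- The layer as an element of `L^p`. -/
noncomputable def LX (l : ℕ) (c : ℤ × ℤ → ℂ) : Lp ℂ (ENNReal.ofReal p) torusMeasure :=
  (memLp_of_continuous' (continuous_P (Q l) c) _).toLp (P (Q l) c)

lemma coeFn_LX (l : ℕ) (c : ℤ × ℤ → ℂ) : LX p l c =ᵐ[torusMeasure] P (Q l) c :=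
  MemLp.coeFn_toLp _

lemma LX_sub (l : ℕ) (c d : ℤ × ℤ → ℂ) : LX p l (c - d) = LX p l c - LX p l d := by
  unfold LX
  rw [← MemLp.toLp_sub]
  have : P (Q l) (c - d) = P (Q l) c - P (Q l) d := by
    funext x
    rw [P_sub]; rfl
  simp only [this]

lemma norm_toLp_eq (hp : 1 ≤ p) {g : Torus → ℂ} (hg : MemLp g (ENNReal.ofReal p) torusMeasure) :
    ‖hg.toLp g‖ = normp p g := by
  have hp0 : 0 < p := by linarith
  rw [Lp.norm_toLp, hg.eLpNorm_eq_integral_rpow_norm (by simpa using hp0) ENNReal.ofReal_ne_top,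
    ENNReal.toReal_ofReal (by positivity), ENNReal.toReal_ofReal hp0.le]
  unfold normp
  rw [one_div]

lemma norm_LX (hp : 1 ≤ p) (l : ℕ) (c : ℤ × ℤ → ℂ) : ‖LX p l c‖ = normp p (P (Q l) c) :=
  norm_toLp_eq p hp _

lemma integral_norm_le (hp : 1 ≤ p) (g : Lp ℂ (ENNReal.ofReal p) torusMeasure) :
    ∫ x, ‖g x‖ ∂torusMeasure ≤ ‖g‖ := by
  have hm := Lp.memLp g
  have h1 : (1 : ENNReal) ≤ ENNReal.ofReal p := by
    rw [← ENNReal.ofReal_one]; exact ENNReal.ofReal_le_ofReal hp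
  have hi : Integrable g torusMeasure := hm.integrable h1
  have h2 := eLpNorm_le_eLpNorm_of_exponent_le (μ := torusMeasure) h1 hm.1
  rw [Lp.norm_def, integral_norm_eq_lintegral_enorm hi.1, ← eLpNorm_one_eq_lintegral_enorm]
  exact ENNReal.toReal_mono (Lp.eLpNorm_ne_top g) h2

lemma integrable_of_Lp (hp : 1 ≤ p) (g : Lp ℂ (ENNReal.ofReal p) torusMeasure) :
    Integrable g torusMeasure := by
  have h1 : (1 : ENNReal) ≤ ENNReal.ofReal p := by
    rw [← ENNReal.ofReal_one]; exact ENNReal.ofReal_le_ofReal hp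
  exact (Lp.memLp g).integrable h1

lemma coeff_congr {f g : Torus → ℂ} (h : f =ᵐ[torusMeasure] g) (k : ℤ × ℤ) :
    coeff f k = coeff g k := by
  unfold coeff
  refine integral_congr_ae ?_
  filter_upwards [h] with x hx
  rw [hx]

lemma integrable_mul_expo {f : Torus → ℂ} (hf : Integrable f torusMeasure) (k : ℤ × ℤ) :
    Integrable (fun x => f x * expo k x) torusMeasure :=
  integrable_mul_cont hf (expoC k)

lemma coeff_sub {f g : Torus → ℂ} (hf : Integrable f torusMeasure) (hg : Integrable g torusMeasure)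
    (k : ℤ × ℤ) : coeff (f - g) k = coeff f k - coeff g k := by
  unfold coeff
  rw [← integral_sub (integrable_mul_expo hf _) (integrable_mul_expo hg _)]
  congr 1; ext x
  simp only [Pi.sub_apply]; ring

lemma coeff_add {f g : Torus → ℂ} (hf : Integrable f torusMeasure) (hg : Integrable g torusMeasure)
    (k : ℤ × ℤ) : coeff (f + g) k = coeff f k + coeff g k := by
  unfold coeff
  rw [← integral_add (integrable_mul_expo hf _) (integrable_mul_expo hg _)]
  congr 1; ext x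
  simp only [Pi.add_apply]; ring

lemma norm_coeff_le_L1 {f : Torus → ℂ} (k : ℤ × ℤ) :
    ‖coeff f k‖ ≤ ∫ x, ‖f x‖ ∂torusMeasure := by
  unfold coeff
  refine (norm_integral_le_integral_norm _).trans (le_of_eq ?_)
  congr 1; ext x
  rw [norm_mul, norm_expo, mul_one]

/-- The Fourier coefficient as a continuous linear functional on `L^p`. -/
noncomputable def coeffL (hp : 1 ≤ p) [Fact (1 ≤ ENNReal.ofReal p)] (k : ℤ × ℤ) :
    Lp ℂ (ENNReal.ofReal p) torusMeasure →L[ℂ] ℂ :=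
  LinearMap.mkContinuous
    { toFun := fun g => coeff g k
      map_add' := by
        intro g h
        rw [coeff_congr (Lp.coeFn_add g h), coeff_add (integrable_of_Lp p hp g) (integrable_of_Lp p hp h)]
      map_smul' := by
        intro c g
        rw [coeff_congr (Lp.coeFn_smul c g), RingHom.id_apply, smul_eq_mul]
        unfold coeff
        rw [← integral_const_mul]
        congr 1; ext x
        simp only [Pi.smul_apply, smul_eq_mul]; ring } 1 (by
      intro g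
      rw [one_mul]
      exact (norm_coeff_le_L1 k).trans (integral_norm_le p hp g))

lemma coeffL_apply (hp : 1 ≤ p) [Fact (1 ≤ ENNReal.ofReal p)] (k : ℤ × ℤ)
    (g : Lp ℂ (ENNReal.ofReal p) torusMeasure) : coeffL p hp k g = coeff g k := rfl

/-- The trivial bound for the `L^p` norm of the layer. -/
noncomputable def tau (a b : ℝ) (l : ℕ) : ℝ := RR a b l * (DD l) ^ (1 - 1 / p)

lemma tau_nonneg (a b : ℝ) (l : ℕ) : 0 ≤ tau p a b l := by
  unfold tau
  have := RR_pos a b l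
  have := DD_pos l
  positivity

end

/-- summability of polynomial times geometric, real exponents -/
lemma summable_poly_geom (s δ : ℝ) (hδ : 0 < δ) :
    Summable fun j : ℕ => ((j : ℝ) + 1) ^ s * 2 ^ (-δ * (j : ℝ)) := by
  obtain ⟨K, hK⟩ := exists_nat_ge s
  set r : ℝ := 2 ^ (-δ) with hr
  have hr0 : 0 < r := by positivity
  have hr1 : r < 1 := Real.rpow_lt_one_of_one_lt_of_neg (by norm_num) (by linarith)
  have h1 : Summable fun n : ℕ => ((n : ℝ) ^ K * r ^ n : ℝ) :=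
    summable_pow_mul_geometric_of_norm_lt_one K (by rwa [Real.norm_of_nonneg hr0.le])
  have h2 := (summable_nat_add_iff 1).2 h1
  refine Summable.of_nonneg_of_le (fun j => by positivity) (fun j => ?_) (h2.mul_left r⁻¹)
  have hj0 : (0 : ℝ) ≤ j := Nat.cast_nonneg _
  have e1 : (2 : ℝ) ^ (-δ * (j : ℝ)) = r ^ j := by
    rw [hr, ← Real.rpow_natCast, ← Real.rpow_mul (by norm_num)]
  have e2 : ((j : ℝ) + 1) ^ s ≤ ((j : ℝ) + 1) ^ K := by
    rw [← Real.rpow_natCast]
    exact Real.rpow_le_rpow_of_exponent_le (by linarith) hK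
  rw [e1]
  calc ((j : ℝ) + 1) ^ s * r ^ j ≤ ((j : ℝ) + 1) ^ K * r ^ j := by gcongr
    _ = r⁻¹ * (((j + 1 : ℕ) : ℝ) ^ K * r ^ (j + 1)) := by
        push_cast
        rw [pow_succ r j]
        field_simp

lemma summable_tau {p : ℝ} (hp1 : 1 < p) {a b : ℝ} (ha : 1 - 1 / p < a) :
    Summable (tau p a b) := by
  have hp0 : 0 < p := by linarith
  set β : ℝ := 1 - 1 / p with hβ
  have hβ0 : 0 ≤ β := by rw [hβ, sub_nonneg, div_le_one hp0]; exact hp1.le
  have hβ1 : β ≤ 1 := by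
    rw [hβ]; have : 0 < 1 / p := by positivity
    linarith
  rw [← summable_nat_add_iff 1]
  have hs := (summable_poly_geom (|b| + 1) (a - β) (by linarith)).mul_left (RR a b 1 * 4)
  refine Summable.of_nonneg_of_le (fun j => tau_nonneg _ _ _ _) (fun j => ?_) hs
  have hj0 : (0 : ℝ) ≤ j := Nat.cast_nonneg _
  have hR1 := RR_pos a b 1
  have h1 : RR a b (j + 1) ≤ RR a b 1 * (2 ^ (-a * j) * ((j : ℝ) + 1) ^ |b|) := by
    rw [add_comm]; exact RR_up le_rfl
  have h2 : DD (j + 1) ≤ 4 * (((j : ℝ) + 1) * 2 ^ (j : ℝ)) := by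
    have h := DD_up 1 j
    rw [add_comm]
    refine h.trans (le_of_eq ?_)
    unfold DD; norm_num
  have hD := DD_pos (j + 1)
  have h3 : DD (j + 1) ^ β ≤ 4 * (((j : ℝ) + 1) * 2 ^ (β * (j : ℝ))) := by
    calc DD (j + 1) ^ β ≤ (4 * (((j : ℝ) + 1) * 2 ^ (j : ℝ))) ^ β := by gcongr
      _ = (4 : ℝ) ^ β * (((j : ℝ) + 1) ^ β * 2 ^ (β * (j : ℝ))) := by
          rw [Real.mul_rpow (by norm_num) (by positivity), Real.mul_rpow (by positivity) (by positivity),
            ← Real.rpow_mul (by norm_num), mul_comm β]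
      _ ≤ 4 * (((j : ℝ) + 1) * 2 ^ (β * (j : ℝ))) := by
          have e1 : (4 : ℝ) ^ β ≤ 4 := by
            calc (4 : ℝ) ^ β ≤ 4 ^ (1 : ℝ) := Real.rpow_le_rpow_of_exponent_le (by norm_num) hβ1
              _ = 4 := Real.rpow_one 4
          have e2 : ((j : ℝ) + 1) ^ β ≤ (j : ℝ) + 1 := by
            calc ((j : ℝ) + 1) ^ β ≤ ((j : ℝ) + 1) ^ (1 : ℝ) :=
                  Real.rpow_le_rpow_of_exponent_le (by linarith) hβ1
              _ = (j : ℝ) + 1 := Real.rpow_one _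
          gcongr
  have hRj := RR_pos a b (j + 1)
  unfold tau
  calc RR a b (j + 1) * DD (j + 1) ^ β
      ≤ (RR a b 1 * (2 ^ (-a * j) * ((j : ℝ) + 1) ^ |b|)) * (4 * (((j : ℝ) + 1) * 2 ^ (β * (j : ℝ)))) := by
        gcongr
    _ = RR a b 1 * 4 * (((j : ℝ) + 1) ^ (|b| + 1) * 2 ^ (-(a - β) * (j : ℝ))) := by
        rw [Real.rpow_add_one (by positivity)]
        have : (2 : ℝ) ^ (-(a - β) * (j : ℝ)) = 2 ^ (-a * (j : ℝ)) * 2 ^ (β * (j : ℝ)) := by
          rw [← Real.rpow_add (by norm_num)]; congr 1; ring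
        rw [this]; ring

lemma norm_LX_le {p : ℝ} (hp1 : 1 < p) (hp2 : p < 2) {a b : ℝ} {c : ℤ × ℤ → ℂ}
    (hc : ∀ l, ∫ x, ‖P (Q l) c x‖ ∂torusMeasure ≤ RR a b l) (l : ℕ) :
    ‖LX p l c‖ ≤ tau p a b l := by
  rw [norm_LX p hp1.le]
  exact normp_trivial hp1 hp2 l c (hc l)

lemma summable_LX {p : ℝ} (hp1 : 1 < p) (hp2 : p < 2) [Fact (1 ≤ ENNReal.ofReal p)]
    {a b : ℝ} (ha : 1 - 1 / p < a) {c : ℤ × ℤ → ℂ}
    (hc : ∀ l, ∫ x, ‖P (Q l) c x‖ ∂torusMeasure ≤ RR a b l) :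
    Summable fun l => LX p l c :=
  Summable.of_norm_bounded (summable_tau hp1 ha) (norm_LX_le hp1 hp2 hc)

/-- the coefficients of the sum of the layers -/
lemma coeff_tsum {p : ℝ} (hp1 : 1 < p) (hp2 : p < 2) [Fact (1 ≤ ENNReal.ofReal p)]
    {a b : ℝ} (ha : 1 - 1 / p < a) {c : ℤ × ℤ → ℂ}
    (hc : ∀ l, ∫ x, ‖P (Q l) c x‖ ∂torusMeasure ≤ RR a b l) (k : ℤ × ℤ) :
    coeff (∑' l, LX p l c : Lp ℂ (ENNReal.ofReal p) torusMeasure) k = c k := by
  have hs := summable_LX hp1 hp2 ha hc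
  have h1 := (coeffL p hp1.le k).hasSum hs.hasSum
  obtain ⟨l0, hl0⟩ := exists_Q k
  have h2 : HasSum (fun l => coeffL p hp1.le k (LX p l c)) (c k) := by
    have h3 : ∀ l, coeffL p hp1.le k (LX p l c) = if l = l0 then c k else 0 := by
      intro l
      rw [coeffL_apply, coeff_congr (coeFn_LX p l c), coeff_P]
      by_cases h : l = l0
      · subst h; simp [hl0]
      · rw [if_neg h, if_neg]
        intro hk
        exact h (Q_disjoint hk hl0)
    simp only [h3]
    exact hasSum_ite_eq l0 (c k)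
  rw [← coeffL_apply p hp1.le k]
  exact h1.unique h2

lemma mem_classW_iff {a b : ℝ} {f : Torus → ℂ} : f ∈ classW a b ↔ Integrable f torusMeasure ∧
    ∀ l, ∫ x, ‖P (Q l) (coeff f) x‖ ∂torusMeasure ≤ RR a b l := by
  unfold classW RR
  simp only [layer_eq_P, Set.mem_ofPred_eq]

/-- Every function of the class is a.e. equal to the `L^p` sum of its layers. -/
theorem ae_eq_tsum {p : ℝ} (hp1 : 1 < p) (hp2 : p < 2) [Fact (1 ≤ ENNReal.ofReal p)]
    {a b : ℝ} (ha : 1 - 1 / p < a) {f : Torus → ℂ} (hf : f ∈ classW a b) :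
    f =ᵐ[torusMeasure] (∑' l, LX p l (coeff f) : Lp ℂ (ENNReal.ofReal p) torusMeasure) := by
  rw [mem_classW_iff] at hf
  obtain ⟨hi, hc⟩ := hf
  set S : Lp ℂ (ENNReal.ofReal p) torusMeasure := ∑' l, LX p l (coeff f) with hS
  have hSi := integrable_of_Lp p hp1.le S
  have h0 : ∀ k, coeff (f - S) k = 0 := by
    intro k
    rw [coeff_sub hi hSi, coeff_tsum hp1 hp2 ha hc k, sub_self]
  have := ae_zero_of_coeff (hi.sub hSi) h0
  filter_upwards [this] with x hx
  simp only [Pi.sub_apply, Pi.zero_apply, sub_eq_zero] at hx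
  exact hx

theorem memLp_of_mem {p : ℝ} (hp1 : 1 < p) (hp2 : p < 2)
    {a b : ℝ} (ha : 1 - 1 / p < a) {f : Torus → ℂ} (hf : f ∈ classW a b) :
    MemLp f (ENNReal.ofReal p) torusMeasure := by
  have : Fact (1 ≤ ENNReal.ofReal p) := ⟨by
    rw [← ENNReal.ofReal_one]; exact ENNReal.ofReal_le_ofReal hp1.le⟩
  exact (Lp.memLp _).ae_eq (ae_eq_tsum hp1 hp2 ha hf).symm

/-- Covering of partial sums. -/
lemma cover_partial {p : ℝ} (hp1 : 1 < p) [Fact (1 ≤ ENNReal.ofReal p)] (R b E : ℕ → ℝ)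
    (h : ∀ l, Cov p l (R l) (b l) (E l)) (M : ℕ) :
    ∃ (I : Type) (_ : Fintype I) (_ : Nonempty I) (z : I → Lp ℂ (ENNReal.ofReal p) torusMeasure),
      (Fintype.card I : ℝ) ≤ 2 ^ (∑ l ∈ Finset.range M, b l) ∧
      ∀ c : ℤ × ℤ → ℂ, (∀ l, ∫ x, ‖P (Q l) c x‖ ∂torusMeasure ≤ R l) →
        ∃ i, ‖∑ l ∈ Finset.range M, LX p l c - z i‖ ≤ ∑ l ∈ Finset.range M, E l := by
  induction M with
  | zero =>
    refine ⟨Unit, inferInstance, inferInstance, fun _ => 0, by simp, fun c _ => ⟨(), by simp⟩⟩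
  | succ M ih =>
    obtain ⟨I, i1, i2, z, hz1, hz2⟩ := ih
    obtain ⟨J, j1, j2, w, hw1, hw2⟩ := h M
    refine ⟨I × J, inferInstance, inferInstance, fun q => z q.1 + LX p M (w q.2), ?_, ?_⟩
    · rw [Fintype.card_prod, Nat.cast_mul, Finset.sum_range_succ, Real.rpow_add (by norm_num)]
      gcongr
    · intro c hc
      obtain ⟨i, hi⟩ := hz2 c hc
      obtain ⟨j, hj⟩ := hw2 c (hc M)
      refine ⟨(i, j), ?_⟩
      rw [Finset.sum_range_succ, Finset.sum_range_succ]
      have : ∑ l ∈ Finset.range M, LX p l c + LX p M c - (z i + LX p M (w j))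
          = (∑ l ∈ Finset.range M, LX p l c - z i) + LX p M (c - w j) := by
        rw [LX_sub]; abel
      rw [this]
      refine (norm_add_le _ _).trans ?_
      rw [norm_LX p hp1.le M]
      exact add_le_add hi hj

/-- Entropy numbers of a subset of a normed space. -/
noncomputable def entX {X : Type*} [NormedAddCommGroup X] (k : ℕ) (A : Set X) : ℝ :=
  sInf {ε : ℝ | 0 < ε ∧ ∃ y : Fin (2 ^ k) → X, A ⊆ ⋃ j, Metric.closedBall (y j) ε}

lemma entropy_le {X : Type*} [NormedAddCommGroup X] {k : ℕ} {A : Set X} {ε : ℝ} (hε : 0 < ε)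
    {I : Type} [Fintype I] [Nonempty I] (z : I → X) (hcard : Fintype.card I ≤ 2 ^ k)
    (h : ∀ g ∈ A, ∃ i, ‖g - z i‖ ≤ ε) : entX k A ≤ ε := by
  unfold entX
  refine csInf_le ⟨0, fun x hx => hx.1.le⟩ ⟨hε, ?_⟩
  have hemb : Nonempty (I ↪ Fin (2 ^ k)) := by
    apply Function.Embedding.nonempty_of_card_le
    rwa [Fintype.card_fin]
  obtain ⟨φ⟩ := hemb
  refine ⟨fun j => z (Function.invFun φ j), ?_⟩
  intro g hg
  obtain ⟨i, hi⟩ := h g hg
  rw [Set.mem_iUnion]
  refine ⟨φ i, ?_⟩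
  show g ∈ Metric.closedBall (z (Function.invFun φ (φ i))) ε
  rw [Function.leftInverse_invFun φ.injective i, Metric.mem_closedBall, dist_eq_norm]
  exact hi

end Pool.Agent.Lib.MP_629918_an

end

section

/-!
# The upper bound for the entropy numbers
-/


open MeasureTheory Filter Topology

namespace Pool.Agent.Lib.MP_629918_an

lemma sum_inj_le {u : ℕ → ℝ} (hu : ∀ i, 0 ≤ u i) (hs : Summable u) (S : Finset ℕ) (φ : ℕ → ℕ)
    (hφ : Set.InjOn φ S) : ∑ l ∈ S, u (φ l) ≤ ∑' i, u i := by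
  rw [← Finset.sum_image hφ]
  exact hs.sum_le_tsum _ (fun i _ => hu i)

lemma sum_dist_le {u : ℕ → ℝ} (hu : ∀ i, 0 ≤ u i) (hs : Summable u) (M n : ℕ) :
    ∑ l ∈ Finset.range M, u ((n - l) + (l - n)) ≤ 2 * ∑' i, u i := by
  rw [← Finset.sum_filter_add_sum_filter_not (Finset.range M) (fun l => l ≤ n), two_mul]
  refine add_le_add ?_ ?_
  · refine sum_inj_le hu hs _ (fun l => (n - l) + (l - n)) ?_
    intro x hx y hy hxy
    simp only [Finset.coe_filter, Set.mem_ofPred_eq] at hx hy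
    simp only at hxy
    omega
  · refine sum_inj_le hu hs _ (fun l => (n - l) + (l - n)) ?_
    intro x hx y hy hxy
    simp only [Finset.coe_filter, Set.mem_ofPred_eq] at hx hy
    simp only at hxy
    omega

/-- the class as a subset of `L^p` -/
def WLp (p a b : ℝ) : Set (Lp ℂ (ENNReal.ofReal p) torusMeasure) :=
  {g | (g : Torus → ℂ) ∈ classW a b}

theorem upper {p : ℝ} [Fact (1 ≤ ENNReal.ofReal p)] (hp1 : 1 < p) (hp2 : p < 2) {a b : ℝ} (ha1 : 1 - 1 / p < a) (ha2 : a ≤ 1 / 2) :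
    ∃ B C : ℝ, 0 < B ∧ 0 < C ∧ ∀ n k : ℕ, 1 ≤ n → B * DD n ≤ k →
      entX k (WLp p a b) ≤ C * RR a b n := by
  have hp0 : 0 < p := by linarith
  obtain ⟨δ, hδ⟩ : ∃ δ, a = 1 - 1 / p + 2 * δ := ⟨(a - (1 - 1 / p)) / 2, by ring⟩
  have hβ0 : 0 ≤ 1 - 1 / p := by rw [sub_nonneg, div_le_one hp0]; exact hp1.le
  have hδ0 : 0 < δ := by linarith
  have hδ1 : δ ≤ 1 := by linarith
  set u : ℕ → ℝ := fun i => 14 * 2 ^ (-(i : ℝ) / 4) + 9 * (((i : ℝ) + 1) * 2 ^ (-δ * (i : ℝ))) with hu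
  set v : ℕ → ℝ := fun i => 2304 * (((i : ℝ) + 1) ^ |b| * 2 ^ (-(i : ℝ) / 4)) +
    9216 * (((i : ℝ) + 1) ^ (|b| + 1) * 2 ^ (-δ * (i : ℝ))) with hv
  have e4 : ∀ i : ℕ, -(i : ℝ) / 4 = -(1 / 4) * (i : ℝ) := fun i => by ring
  have hus : Summable u := by
    refine Summable.add (Summable.mul_left _ ?_) (Summable.mul_left _ ?_)
    · have h := summable_poly_geom 0 (1 / 4) (by norm_num)
      simp only [Real.rpow_zero, one_mul] at h
      simpa only [e4] using h
    · have h := summable_poly_geom 1 δ hδ0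
      simpa only [Real.rpow_one] using h
  have hvs : Summable v := by
    refine Summable.add (Summable.mul_left _ ?_) (Summable.mul_left _ ?_)
    · have h := summable_poly_geom |b| (1 / 4) (by norm_num)
      simpa only [e4] using h
    · exact summable_poly_geom (|b| + 1) δ hδ0
  have hu0 : ∀ i, 0 ≤ u i := fun i => by rw [hu]; positivity
  have hv0 : ∀ i, 0 ≤ v i := fun i => by rw [hv]; positivity
  have hU0 : 0 ≤ ∑' i, u i := tsum_nonneg hu0
  have hV0 : 0 ≤ ∑' i, v i := tsum_nonneg hv0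
  refine ⟨2 * ∑' i, u i + 1, 2 * ∑' i, v i + 1, by positivity, by positivity, ?_⟩
  intro n k hn hk
  have hDn := DD_pos n
  have hRn := RR_pos a b n
  -- coverings of all the layers
  have hcov : ∀ l, Cov p l (RR a b l) (DD n * u ((n - l) + (l - n))) (RR a b n * v ((n - l) + (l - n))) := by
    intro l
    rcases le_total l n with hl | hl
    · obtain ⟨i, hi⟩ := Nat.exists_eq_add_of_le hl
      have h1 : (n - l) + (l - n) = i := by omega
      rw [h1]
      refine (cov_low hp1 hp2 (b := b) ha2 hn hi.symm).mono ?_ ?_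
      · apply mul_le_mul_of_nonneg_left _ hDn.le
        rw [hu]
        exact le_add_of_nonneg_right (by positivity)
      · apply mul_le_mul_of_nonneg_left _ hRn.le
        rw [hv]
        exact le_add_of_nonneg_right (by positivity)
    · obtain ⟨j, rfl⟩ := Nat.exists_eq_add_of_le hl
      have h1 : (n - (n + j)) + (n + j - n) = j := by omega
      rw [h1]
      refine (cov_high hp1 hp2 (b := b) hδ0 hδ1 hδ hn).mono ?_ ?_
      · apply mul_le_mul_of_nonneg_left _ hDn.le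
        rw [hu]
        exact le_add_of_nonneg_left (by positivity)
      · apply mul_le_mul_of_nonneg_left _ hRn.le
        rw [hv]
        exact le_add_of_nonneg_left (by positivity)
  -- cutoff
  have htau := summable_tau hp1 (a := a) (b := b) ha1
  obtain ⟨M, hM⟩ : ∃ M, ∑' l, tau p a b (l + M) ≤ RR a b n := by
    have h1 := tendsto_sum_nat_add (tau p a b)
    have h2 := (h1.eventually (gt_mem_nhds hRn)).exists
    obtain ⟨M, hM⟩ := h2
    exact ⟨M, hM.le⟩
  obtain ⟨I, i1, i2, z, hz1, hz2⟩ := cover_partial hp1 (fun l => RR a b l) _ _ hcov M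
  have hb : ∑ l ∈ Finset.range M, DD n * u ((n - l) + (l - n)) ≤ k := by
    rw [← Finset.mul_sum]
    have h1 := sum_dist_le hu0 hus M n
    refine le_trans ?_ hk
    nlinarith
  have hE : ∑ l ∈ Finset.range M, RR a b n * v ((n - l) + (l - n)) ≤ RR a b n * (2 * ∑' i, v i) := by
    rw [← Finset.mul_sum]
    exact mul_le_mul_of_nonneg_left (sum_dist_le hv0 hvs M n) hRn.le
  apply entropy_le (by positivity) z
  · have h1 : (Fintype.card I : ℝ) ≤ 2 ^ (k : ℝ) :=
      hz1.trans (Real.rpow_le_rpow_of_exponent_le (by norm_num) hb)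
    rw [Real.rpow_natCast] at h1
    exact_mod_cast h1
  · intro g hg
    have hg' : (g : Torus → ℂ) ∈ classW a b := hg
    have hc := (mem_classW_iff.1 hg').2
    obtain ⟨i, hi⟩ := hz2 _ hc
    refine ⟨i, ?_⟩
    have hgs : g = ∑' l, LX p l (coeff g) := Lp.ext (ae_eq_tsum hp1 hp2 ha1 hg')
    have hs := summable_LX hp1 hp2 ha1 hc
    have hsplit := hs.sum_add_tsum_nat_add M
    have htail : ‖∑' l, LX p (l + M) (coeff g)‖ ≤ RR a b n := by
      refine le_trans ?_ hM
      refine tsum_of_norm_bounded ((summable_nat_add_iff M).2 htau).hasSum fun l => ?_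
      exact norm_LX_le hp1 hp2 hc (l + M)
    have : g - z i = (∑ l ∈ Finset.range M, LX p l (coeff g) - z i) + ∑' l, LX p (l + M) (coeff g) := by
      conv_lhs => rw [hgs, ← hsplit]
      abel
    rw [this]
    calc ‖(∑ l ∈ Finset.range M, LX p l (coeff g) - z i) + ∑' l, LX p (l + M) (coeff g)‖
        ≤ RR a b n * (2 * ∑' i, v i) + RR a b n :=
          (norm_add_le _ _).trans (add_le_add (hi.trans hE) htail)
      _ = (2 * ∑' i, v i + 1) * RR a b n := by ring

end Pool.Agent.Lib.MP_629918_an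

end

section

/-!
# The lower bound for the entropy numbers
-/


open MeasureTheory Filter Topology

namespace Pool.Agent.Lib.MP_629918_an

lemma volume_bound {X : Type*} [NormedAddCommGroup X] [NormedSpace ℝ X] (F : Submodule ℝ X)
    [FiniteDimensional ℝ F] {A : Set X} {R ε : ℝ} (hR : 0 < R) (hε : 0 < ε)
    (hA : ∀ g ∈ F, ‖g‖ ≤ R → g ∈ A) {k : ℕ} (hk : k ≤ Module.finrank ℝ F) (h0 : 0 < Module.finrank ℝ F)
    (y : Fin (2 ^ k) → X) (hcov : A ⊆ ⋃ j, Metric.closedBall (y j) ε) : R ≤ 4 * ε := by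
  classical
  let _ : MeasurableSpace F := borel F
  have _ : BorelSpace F := ⟨rfl⟩
  set d := Module.finrank ℝ F with hd
  set μ : Measure F := Measure.addHaar with hμ
  have hsel : ∀ j, ∃ v : F, ∀ w : F, ‖(w : X) - y j‖ ≤ ε → w ∈ Metric.closedBall v (2 * ε) := by
    intro j
    by_cases h : ∃ v : F, ‖(v : X) - y j‖ ≤ ε
    · obtain ⟨v, hv⟩ := h
      refine ⟨v, fun w hw => ?_⟩
      rw [Metric.mem_closedBall, dist_eq_norm]
      have h1 : ‖w - v‖ = ‖((w : X) - y j) - ((v : X) - y j)‖ := by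
        have h2 : ‖w - v‖ = ‖((w : X) - (v : X))‖ := rfl
        rw [h2]
        congr 1; abel
      rw [h1]
      refine (norm_sub_le _ _).trans ?_
      linarith
    · push Not at h
      exact ⟨0, fun w hw => absurd hw (not_le.2 (h w))⟩
  choose v hv using hsel
  have hsub : Metric.closedBall (0 : F) R ⊆ ⋃ j, Metric.closedBall (v j) (2 * ε) := by
    intro w hw
    rw [mem_closedBall_zero_iff] at hw
    have h1 : (w : X) ∈ A := hA w w.2 hw
    obtain ⟨j, hj⟩ := Set.mem_iUnion.1 (hcov h1)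
    rw [Metric.mem_closedBall, dist_eq_norm] at hj
    exact Set.mem_iUnion.2 ⟨j, hv j w hj⟩
  have h2 : μ (Metric.closedBall (0 : F) R) ≤ ∑ j : Fin (2 ^ k), μ (Metric.closedBall (v j) (2 * ε)) :=
    (measure_mono hsub).trans (measure_iUnion_fintype_le _ _)
  rw [Measure.addHaar_closedBall μ 0 hR.le] at h2
  simp only [Measure.addHaar_closedBall μ _ (by positivity : (0 : ℝ) ≤ 2 * ε)] at h2
  rw [Finset.sum_const, Finset.card_univ, Fintype.card_fin, nsmul_eq_mul, ← mul_assoc] at h2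
  have hb0 : μ (Metric.ball (0 : F) 1) ≠ 0 := (Metric.measure_ball_pos μ 0 one_pos).ne'
  have hbt : μ (Metric.ball (0 : F) 1) ≠ ⊤ := measure_ball_lt_top.ne
  have h3 := (ENNReal.mul_le_mul_iff_left hb0 hbt).1 h2
  have h4 : ((2 ^ k : ℕ) : ENNReal) = ENNReal.ofReal (2 ^ k) := by
    rw [← ENNReal.ofReal_natCast]; push_cast; rfl
  rw [h4, ← ENNReal.ofReal_mul (by positivity), ENNReal.ofReal_le_ofReal_iff (by positivity)] at h3
  have h5 : R ^ d ≤ (4 * ε) ^ d := by
    calc R ^ d ≤ 2 ^ k * (2 * ε) ^ d := h3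
      _ ≤ 2 ^ d * (2 * ε) ^ d := by
          gcongr
          norm_num
      _ = (4 * ε) ^ d := by rw [← mul_pow]; congr 1; ring
  exact (pow_le_pow_iff_left₀ hR.le (by positivity) h0.ne').1 h5

section

variable (p : ℝ)

/-- real coefficient vectors, extended by zero -/
noncomputable def extR (n : ℕ) (v : Q n → ℝ) (k : ℤ × ℤ) : ℂ := if h : k ∈ Q n then (v ⟨k, h⟩ : ℂ) else 0

lemma LX_add (l : ℕ) (c d : ℤ × ℤ → ℂ) : LX p l (c + d) = LX p l c + LX p l d := by
  unfold LX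
  rw [← MemLp.toLp_add]
  have : P (Q l) (c + d) = P (Q l) c + P (Q l) d := by
    funext x
    rw [P_add]; rfl
  simp only [this]

/-- The embedding of real coefficient vectors into `L^p`. -/
noncomputable def Phi [Fact (1 ≤ ENNReal.ofReal p)] (n : ℕ) :
    (Q n → ℝ) →ₗ[ℝ] Lp ℂ (ENNReal.ofReal p) torusMeasure where
  toFun v := LX p n (extR n v)
  map_add' v w := by
    rw [← LX_add]
    congr 1
    funext k
    simp only [extR, Pi.add_apply]
    split_ifs <;> simp
  map_smul' r v := by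
    rw [RingHom.id_apply]
    unfold LX
    rw [← MemLp.toLp_const_smul]
    have : P (Q n) (extR n (r • v)) = r • P (Q n) (extR n v) := by
      funext x
      simp only [P, Pi.smul_apply, Finset.smul_sum]
      refine Finset.sum_congr rfl fun k hk => ?_
      simp only [extR, hk, dif_pos, Pi.smul_apply, smul_eq_mul, Complex.real_smul]
      push_cast
      ring
    simp only [this]

lemma coeff_LX (l : ℕ) (c : ℤ × ℤ → ℂ) (k : ℤ × ℤ) :
    coeff (LX p l c) k = if k ∈ Q l then c k else 0 := by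
  rw [coeff_congr (coeFn_LX p l c), coeff_P]

lemma Phi_injective [Fact (1 ≤ ENNReal.ofReal p)] (n : ℕ) : Function.Injective (Phi p n) := by
  rw [injective_iff_map_eq_zero]
  intro v hv
  funext k
  have h1 : LX p n (extR n v) = 0 := hv
  have h2 := coeff_LX p n (extR n v) k
  rw [h1, if_pos k.2] at h2
  have h3 : coeff ((0 : Lp ℂ (ENNReal.ofReal p) torusMeasure)) k = 0 := by
    rw [coeff_congr (Lp.coeFn_zero ℂ (ENNReal.ofReal p) torusMeasure)]
    simp [coeff]
  rw [h3] at h2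
  have h4 : ((v k : ℝ) : ℂ) = 0 := by
    rw [h2]
    simp [extR]
  rw [Pi.zero_apply]
  exact_mod_cast h4

lemma LX_mem (hp : 1 ≤ p) (a b : ℝ) (n : ℕ) (c : ℤ × ℤ → ℂ) (h : ‖LX p n c‖ ≤ RR a b n) :
    LX p n c ∈ WLp p a b := by
  have hmem : (LX p n c : Torus → ℂ) ∈ classW a b := by
    rw [mem_classW_iff]
    refine ⟨integrable_of_Lp p hp _, fun l => ?_⟩
    have hc : ∀ k, coeff (LX p n c) k = if k ∈ Q n then c k else 0 := coeff_LX p n c
    by_cases hl : l = n
    · subst hl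
      have h1 : P (Q l) (coeff (LX p l c)) = P (Q l) c := by
        funext x
        unfold P
        refine Finset.sum_congr rfl fun k hk => ?_
        rw [hc, if_pos hk]
      rw [h1]
      have h2 : ∫ x, ‖P (Q l) c x‖ ∂torusMeasure = ∫ x, ‖LX p l c x‖ ∂torusMeasure := by
        refine integral_congr_ae ?_
        filter_upwards [coeFn_LX p l c] with x hx
        rw [hx]
      rw [h2]
      exact (integral_norm_le p hp _).trans h
    · have h1 : P (Q l) (coeff (LX p n c)) = 0 := by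
        funext x
        unfold P
        rw [Pi.zero_apply]
        refine Finset.sum_eq_zero fun k hk => ?_
        rw [hc, if_neg, zero_mul]
        intro hk'
        exact hl (Q_disjoint hk hk')
      rw [h1]
      simp only [Pi.zero_apply, norm_zero, integral_zero]
      exact (RR_pos a b l).le
  exact hmem

end

lemma norm_le_of_mem {p : ℝ} [Fact (1 ≤ ENNReal.ofReal p)] (hp1 : 1 < p) (hp2 : p < 2) {a b : ℝ}
    (ha1 : 1 - 1 / p < a) {g : Lp ℂ (ENNReal.ofReal p) torusMeasure} (hg : g ∈ WLp p a b) :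
    ‖g‖ ≤ ∑' l, tau p a b l := by
  have hg' : (g : Torus → ℂ) ∈ classW a b := hg
  have hc := (mem_classW_iff.1 hg').2
  have hgs : g = ∑' l, LX p l (coeff g) := Lp.ext (ae_eq_tsum hp1 hp2 ha1 hg')
  rw [hgs]
  exact tsum_of_norm_bounded (summable_tau hp1 ha1).hasSum (norm_LX_le hp1 hp2 hc)

theorem lower {p : ℝ} [Fact (1 ≤ ENNReal.ofReal p)] (hp1 : 1 < p) (hp2 : p < 2) {a b : ℝ}
    (ha1 : 1 - 1 / p < a) (n k : ℕ) (hk : k ≤ (n + 1) * 2 ^ n) :
    RR a b n ≤ 4 * entX k (WLp p a b) := by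
  have hR := RR_pos a b n
  have key : RR a b n / 4 ≤ entX k (WLp p a b) := by
    unfold entX
    apply le_csInf
    · refine ⟨∑' l, tau p a b l + 1, ?_, fun _ => 0, ?_⟩
      · have : 0 ≤ ∑' l, tau p a b l := tsum_nonneg (tau_nonneg p a b)
        positivity
      · intro g hg
        have h1 := norm_le_of_mem hp1 hp2 ha1 hg
        refine Set.mem_iUnion.2 ⟨⟨0, by positivity⟩, ?_⟩
        rw [mem_closedBall_zero_iff]
        linarith
    · rintro ε ⟨hε, y, hy⟩
      have hfin : Module.finrank ℝ (LinearMap.range (Phi p n)) = (n + 1) * 2 ^ n := by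
        rw [LinearMap.finrank_range_of_inj (Phi_injective p n), Module.finrank_fintype_fun_eq_card,
          Fintype.card_coe, card_Q]
      have h1 := volume_bound (LinearMap.range (Phi p n)) hR hε (A := WLp p a b) ?_
        (k := k) (by rw [hfin]; exact hk) (by rw [hfin]; positivity) y hy
      · linarith
      · rintro g ⟨v, rfl⟩ hg
        exact LX_mem p hp1.le a b n _ hg
  linarith

end Pool.Agent.Lib.MP_629918_an

end
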